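import Pool.Agent.Work.MP_426d99_co.KT.St

/-!
# Two disjoint traces are not both odd on a class
-/

open Finset Classical

namespace RGraph.KT

namespace Colex

/-- The number of `m` in `[k, j)` with `P m` is odd. -/
def od (P : ℕ → Prop) (k j : ℕ) : Prop := Odd ((Finset.Ico k j).filter P).card

theorem od_empty {P : ℕ → Prop} {k j : ℕ} (h : j ≤ k) : ¬ od P k j := by
  unfold od
  rw [Finset.Ico_eq_empty (by omega)]
  simp

theorem od_left {P : ℕ → Prop} {k j : ℕ} (h : k < j) :
    od P k j ↔ ((P k ∧ ¬ od P (k + 1) j) ∨ (¬ P k ∧ od P (k + 1) j)) := by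
  unfold od
  have e : Finset.Ico k j = insert k (Finset.Ico (k + 1) j) := by
    ext m
    simp only [Finset.mem_Ico, Finset.mem_insert]
    omega
  have hn : k ∉ (Finset.Ico (k + 1) j).filter P := by
    simp
  rw [e, Finset.filter_insert]
  by_cases hk : P k
  · rw [if_pos hk, Finset.card_insert_of_notMem hn, Nat.odd_add_one]
    tauto
  · rw [if_neg hk]
    tauto

theorem od_right {P : ℕ → Prop} {k j : ℕ} (h : k ≤ j) :
    od P k (j + 1) ↔ ((P j ∧ ¬ od P k j) ∨ (¬ P j ∧ od P k j)) := by
  unfold od
  have e : Finset.Ico k (j + 1) = insert j (Finset.Ico k j) := by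
    ext m
    simp only [Finset.mem_Ico, Finset.mem_insert]
    omega
  have hn : j ∉ (Finset.Ico k j).filter P := by
    simp
  rw [e, Finset.filter_insert]
  by_cases hk : P j
  · rw [if_pos hk, Finset.card_insert_of_notMem hn, Nat.odd_add_one]
    tauto
  · rw [if_neg hk]
    tauto

theorem od_congr {P P' : ℕ → Prop} {k j : ℕ} (h : ∀ m, k ≤ m → m < j → (P' m ↔ P m)) :
    od P' k j ↔ od P k j := by
  unfold od
  have : (Finset.Ico k j).filter P' = (Finset.Ico k j).filter P := by
    apply Finset.filter_congr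
    intro m hm
    rw [Finset.mem_Ico] at hm
    exact h m hm.1 hm.2
  rw [this]

/-- If `P` does not occur in `[l, k)` the start of the interval can be shifted. -/
theorem od_shift {P : ℕ → Prop} {j : ℕ} : ∀ (d l : ℕ), l + d ≤ j →
    (∀ m, l ≤ m → m < l + d → ¬ P m) → (od P l j ↔ od P (l + d) j)
  | 0, l, _, _ => by simp
  | d + 1, l, h, hP => by
      have h1 := od_shift (j := j) d (l + 1) (by omega) (fun m hm hm' => hP m (by omega) (by omega))
      rw [od_left (by omega : l < j), h1]
      have h2 : ¬ P l := hP l le_rfl (by omega)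
      have e : l + 1 + d = l + (d + 1) := by omega
      rw [e]
      tauto

/-- The pair is doomed: `j` is in `P` and the first element after `i` is in `Q`. -/
def Doom (j i : ℕ) (P Q : ℕ → Prop) : Prop :=
  P j ∧ ∃ k0, i ≤ k0 ∧ k0 < j ∧ Q k0 ∧ ∀ m, i ≤ m → m < k0 → ¬ P m ∧ ¬ Q m

/-- The invariant. -/
def Inv (j i : ℕ) (P Q : ℕ → Prop) : Prop :=
  ((∀ k, i ≤ k → ¬ (od P k j ∧ od Q k j)) ∧
    (∀ k, k ≤ i → ¬ (od P k (j + 1) ∧ od Q k (j + 1)))) ∨ Doom j i P Q ∨ Doom j i Q P

theorem Inv.symm {j i : ℕ} {P Q : ℕ → Prop} (h : Inv j i P Q) : Inv j i Q P := by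
  rcases h with ⟨h1, h2⟩ | h | h
  · left
    exact ⟨fun k hk => fun hh => h1 k hk ⟨hh.2, hh.1⟩, fun k hk => fun hh => h2 k hk ⟨hh.2, hh.1⟩⟩
  · right; right; exact h
  · right; left; exact h

/-- The first element. -/
theorem first {P Q : ℕ → Prop} {l j : ℕ} (hA : ∀ k, l ≤ k → ¬ (od P k j ∧ od Q k j))
    (hd : ∀ m, ¬ (P m ∧ Q m)) (hP : ¬ od P l j) (hQ : od Q l j) :
    ∃ k0, l ≤ k0 ∧ k0 < j ∧ Q k0 ∧ ∀ m, l ≤ m → m < k0 → ¬ P m ∧ ¬ Q m := by
  have hex : ∃ k, l ≤ k ∧ k < j ∧ (P k ∨ Q k) := by
    by_contra hno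
    push Not at hno
    have : ((Finset.Ico l j).filter Q).card = 0 := by
      rw [Finset.card_eq_zero, Finset.filter_eq_empty_iff]
      intro m hm
      rw [Finset.mem_Ico] at hm
      exact (hno m hm.1 hm.2).2
    unfold od at hQ
    rw [this] at hQ
    simp at hQ
  obtain ⟨h1, h2, h3⟩ := Nat.find_spec hex
  have hmin : ∀ m, l ≤ m → m < Nat.find hex → ¬ P m ∧ ¬ Q m := by
    intro m hm hm'
    have := Nat.find_min hex hm'
    push Not at this
    exact this hm (by omega)
  refine ⟨Nat.find hex, h1, h2, ?_, hmin⟩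
  rcases h3 with h3 | h3
  · exfalso
    set k0 := Nat.find hex with hk0
    obtain ⟨d, hd'⟩ : ∃ d, k0 = l + d := ⟨k0 - l, by omega⟩
    have e1 : od P l j ↔ od P k0 j := by
      rw [hd']
      exact od_shift d l (by omega) (fun m hm hm' => (hmin m hm (by omega)).1)
    have e2 : od Q l j ↔ od Q k0 j := by
      rw [hd']
      exact od_shift d l (by omega) (fun m hm hm' => (hmin m hm (by omega)).2)
    have hQk : ¬ Q k0 := fun hq => hd k0 ⟨h3, hq⟩
    rw [e1, od_left h2] at hP
    rw [e2, od_left h2] at hQ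
    apply hA (k0 + 1) (by omega)
    tauto
  · exact h3

/-- The start of a batch. -/
theorem start {P Q : ℕ → Prop} {j : ℕ} (hS : ∀ k, ¬ (od P k j ∧ od Q k j))
    (hd : ∀ m, ¬ (P m ∧ Q m)) : Inv j 0 P Q := by
  by_cases hb : od P 0 (j + 1) ∧ od Q 0 (j + 1)
  · obtain ⟨h1, h2⟩ := hb
    rw [od_right (Nat.zero_le j)] at h1 h2
    have h3 := hS 0
    have h4 := hd j
    by_cases hPj : P j
    · right; left
      exact ⟨hPj, first (fun k _ => hS k) hd (by tauto) (by tauto)⟩
    · right; right
      exact ⟨by tauto, first (fun k _ => fun hh => hS k ⟨hh.2, hh.1⟩)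
        (fun m hm => hd m ⟨hm.2, hm.1⟩) (by tauto) (by tauto)⟩
  · left
    refine ⟨fun k _ => hS k, fun k hk => ?_⟩
    have : k = 0 := by omega
    rw [this]
    exact hb

/-- One gadget, `Q` is not active. -/
theorem step {P Q P' : ℕ → Prop} {i j : ℕ} (hij : i < j)
    (h1 : ∀ m, m ≠ i → m ≠ j → (P' m ↔ P m)) (hT : Tr (P i) (P j) (P' i) (P' j))
    (hQi : ¬ Q i) (hQj : ¬ Q j) (hd : ∀ m, ¬ (P m ∧ Q m)) (hI : Inv j i P Q) :
    Inv j (i + 1) P' Q := by
  have c1 : ∀ k, i + 1 ≤ k → (od P' k j ↔ od P k j) := fun k hk =>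
    od_congr (fun m hm hm' => h1 m (by omega) (by omega))
  have q1 : od Q (i + 1) (j + 1) ↔ od Q (i + 1) j := by
    rw [od_right (by omega : i + 1 ≤ j)]
    tauto
  have p1 : od P' (i + 1) (j + 1) ↔ ((P' j ∧ ¬ od P (i + 1) j) ∨ (¬ P' j ∧ od P (i + 1) j)) := by
    rw [od_right (by omega : i + 1 ≤ j), c1 (i + 1) le_rfl]
  have p1' : od P (i + 1) (j + 1) ↔ ((P j ∧ ¬ od P (i + 1) j) ∨ (¬ P j ∧ od P (i + 1) j)) :=
    od_right (by omega : i + 1 ≤ j)
  have p2 : od P i (j + 1) ↔ ((P i ∧ ¬ od P (i + 1) (j + 1)) ∨ (¬ P i ∧ od P (i + 1) (j + 1))) :=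
    od_left (by omega)
  have p2' : od P' i (j + 1) ↔
      ((P' i ∧ ¬ od P' (i + 1) (j + 1)) ∨ (¬ P' i ∧ od P' (i + 1) (j + 1))) := od_left (by omega)
  have par : od P' i (j + 1) ↔ od P i (j + 1) := by
    rw [p2, p2', p1, p1']
    rcases hT with ⟨a, b, a', b'⟩ | ⟨a, b, a', b'⟩ | ⟨a, b, a', b'⟩ | ⟨a, b, a', b'⟩ |
      ⟨a, b, a', b'⟩ | ⟨a, b, a', b'⟩ <;> by_cases o : od P (i + 1) j <;> simp [a, b, a', b', o]
  have parall : ∀ d k, k + d = i → (od P' k (j + 1) ↔ od P k (j + 1)) := by
    intro d
    induction d with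
    | zero => intro k hk; have : k = i := by omega
              rw [this]; exact par
    | succ d ih =>
      intro k hk
      rw [od_left (by omega : k < j + 1), od_left (by omega : k < j + 1), ih (k + 1) (by omega),
        h1 k (by omega) (by omega)]
  rcases hI with ⟨hA, hB⟩ | hD | hD
  · have hA' : ∀ k, i + 1 ≤ k → ¬ (od P' k j ∧ od Q k j) := by
      intro k hk
      rw [c1 k hk]
      exact hA k (by omega)
    have hB1 : ∀ k, k ≤ i → ¬ (od P' k (j + 1) ∧ od Q k (j + 1)) := by
      intro k hk
      rw [parall (i - k) k (by omega)]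
      exact hB k hk
    by_cases hb : od P' (i + 1) (j + 1) ∧ od Q (i + 1) (j + 1)
    · -- both odd
      have hAi := hA (i + 1) (by omega)
      have hQo : od Q (i + 1) j := q1.1 hb.2
      have hPo : ¬ od P (i + 1) j := fun hh => hAi ⟨hh, hQo⟩
      have hP'j : P' j := by
        rcases p1.1 hb.1 with hh | hh
        · exact hh.1
        · exact absurd hh.2 hPo
      right; left
      refine ⟨hP'j, ?_⟩
      have hf := first (P := P') (Q := Q) (l := i + 1) (j := j) hA' ?_ ?_ ?_
      · exact hf
      · intro m hm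
        by_cases hmi : m = i
        · exact hQi (hmi ▸ hm.2)
        · by_cases hmj : m = j
          · exact hQj (hmj ▸ hm.2)
          · exact hd m ⟨(h1 m hmi hmj).1 hm.1, hm.2⟩
      · rw [c1 (i + 1) le_rfl]
        exact hPo
      · exact hQo
    · left
      refine ⟨hA', fun k hk => ?_⟩
      by_cases hk' : k ≤ i
      · exact hB1 k hk'
      · have : k = i + 1 := by omega
        rw [this]
        exact hb
  · obtain ⟨hPj, k0, hk1, hk2, hk3, hk4⟩ := hD
    have hne : k0 ≠ i := fun hh => hQi (hh ▸ hk3)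
    have hPi : ¬ P i := (hk4 i le_rfl (by omega)).1
    have hP' : ¬ P' i ∧ P' j := by
      rcases hT with ⟨a, b, a', b'⟩ | ⟨a, b, a', b'⟩ | ⟨a, b, a', b'⟩ | ⟨a, b, a', b'⟩ |
        ⟨a, b, a', b'⟩ | ⟨a, b, a', b'⟩
      · exact absurd hPj b
      · exact absurd hPj b
      · exact absurd hPj b
      · exact absurd hPj b
      · exact ⟨a', b'⟩
      · exact absurd a hPi
    right; left
    refine ⟨hP'.2, k0, by omega, hk2, hk3, ?_⟩
    intro m hm hm'
    rw [h1 m (by omega) (by omega)]
    exact hk4 m (by omega) hm'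
  · exact absurd hD.1 hQj

/-- Nothing happens. -/
theorem skip {P Q : ℕ → Prop} {i j : ℕ} (hij : i < j) (hPi : ¬ P i) (hQi : ¬ Q i)
    (hI : Inv j i P Q) : Inv j (i + 1) P Q := by
  have e : ∀ R : ℕ → Prop, ¬ R i → (od R i (j + 1) ↔ od R (i + 1) (j + 1)) := by
    intro R hR
    rw [od_left (by omega : i < j + 1)]
    tauto
  rcases hI with ⟨hA, hB⟩ | ⟨hj, k0, h1, h2, h3, h4⟩ | ⟨hj, k0, h1, h2, h3, h4⟩
  · left
    refine ⟨fun k hk => hA k (by omega), fun k hk => ?_⟩
    by_cases hk' : k ≤ i
    · exact hB k hk'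
    · have : k = i + 1 := by omega
      rw [this, ← e P hPi, ← e Q hQi]
      exact hB i le_rfl
  · right; left
    have : k0 ≠ i := fun hh => hQi (hh ▸ h3)
    exact ⟨hj, k0, by omega, h2, h3, fun m hm hm' => h4 m (by omega) hm'⟩
  · right; right
    have : k0 ≠ i := fun hh => hPi (hh ▸ h3)
    exact ⟨hj, k0, by omega, h2, h3, fun m hm hm' => h4 m (by omega) hm'⟩

/-- The elements of `S` of the class `c`. -/
def cls (K c : ℕ) (S : Finset ℕ) (m : ℕ) : Prop := m % K = c ∧ m ∈ S

theorem cls_disj {K c : ℕ} {S T : Finset ℕ} (h : Disjoint S T) (m : ℕ) :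
    ¬ (cls K c S m ∧ cls K c T m) := fun hh =>
  (Finset.disjoint_left.1 h hh.1.2) hh.2.2

theorem reach_disj : ∀ {l : List (ℕ × ℕ)} {S T : Finset ℕ}, Reach l S T → Disjoint S T
  | [], _, _, h => h
  | _ :: _, _, _, h => h.1

theorem batch_inv {K j : ℕ}
    (hS : ∀ S T, Reach (colex K j) S T → ∀ c k, ¬ (od (cls K c S) k j ∧ od (cls K c T) k j)) :
    ∀ i, i ≤ j → ∀ S T, Reach (batch K j i ++ colex K j) S T →
      (∀ c, c ≠ j % K → ∀ k, ¬ (od (cls K c S) k j ∧ od (cls K c T) k j)) ∧
      Inv j i (cls K (j % K) S) (cls K (j % K) T) := by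
  intro i
  induction i with
  | zero =>
    intro _ S T hR
    have hR' : Reach (colex K j) S T := hR
    refine ⟨fun c _ k => hS S T hR' c k, ?_⟩
    exact start (fun k => hS S T hR' _ k) (cls_disj (reach_disj hR'))
  | succ i ih =>
    intro hij S' T' hR
    by_cases hc : i % K = j % K
    · have e : batch K j (i + 1) ++ colex K j = (i, j) :: (batch K j i ++ colex K j) := by
        show (if i % K = j % K then (i, j) :: batch K j i else batch K j i) ++ colex K j = _
        rw [if_pos hc]
        rfl
      rw [e] at hR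
      obtain ⟨hd', S, T, hR0, hTS, hTT, hk, hact⟩ := hR
      obtain ⟨ih1, ih2⟩ := ih (by omega) S T hR0
      have hd := reach_disj hR0
      refine ⟨?_, ?_⟩
      · intro c hcj k
        have e1 : ∀ m, cls K c S' m ↔ cls K c S m := by
          intro m
          unfold cls
          by_cases hmi : m = i
          · subst hmi
            constructor
            · intro hh; exact absurd (hh.1.symm.trans hc) hcj
            · intro hh; exact absurd (hh.1.symm.trans hc) hcj
          · by_cases hmj : m = j
            · subst hmj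
              constructor
              · intro hh; exact absurd hh.1.symm hcj
              · intro hh; exact absurd hh.1.symm hcj
            · rw [(hk m hmi hmj).1]
        have e2 : ∀ m, cls K c T' m ↔ cls K c T m := by
          intro m
          unfold cls
          by_cases hmi : m = i
          · subst hmi
            constructor
            · intro hh; exact absurd (hh.1.symm.trans hc) hcj
            · intro hh; exact absurd (hh.1.symm.trans hc) hcj
          · by_cases hmj : m = j
            · subst hmj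
              constructor
              · intro hh; exact absurd hh.1.symm hcj
              · intro hh; exact absurd hh.1.symm hcj
            · rw [(hk m hmi hmj).2]
        rw [od_congr (fun m _ _ => e1 m), od_congr (fun m _ _ => e2 m)]
        exact ih1 c hcj k
      · have ei : ∀ X : Finset ℕ, cls K (j % K) X i ↔ i ∈ X := fun X => by
          unfold cls; tauto
        have ej : ∀ X : Finset ℕ, cls K (j % K) X j ↔ j ∈ X := fun X => by
          unfold cls; tauto
        by_cases hTa : i ∈ T ∨ j ∈ T ∨ i ∈ T' ∨ j ∈ T'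
        · -- S is not active
          have hSa : ¬ (i ∈ S ∨ j ∈ S ∨ i ∈ S' ∨ j ∈ S') := fun hh => hact ⟨hh, hTa⟩
          push Not at hSa
          have eS : ∀ m, cls K (j % K) S' m ↔ cls K (j % K) S m := by
            intro m
            by_cases hmi : m = i
            · subst hmi; rw [ei, ei]; tauto
            · by_cases hmj : m = j
              · subst hmj; rw [ej, ej]; tauto
              · unfold cls; rw [(hk m hmi hmj).1]
          have eS' : cls K (j % K) S' = cls K (j % K) S := by
            funext m; exact propext (eS m)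
          rw [eS']
          apply Inv.symm
          refine step (P := cls K (j % K) T) (by omega) ?_ ?_ ?_ ?_ ?_ ih2.symm
          · intro m hmi hmj
            unfold cls; rw [(hk m hmi hmj).2]
          · rw [ei, ei, ej, ej]; exact hTT
          · rw [ei]; exact hSa.1
          · rw [ej]; exact hSa.2.1
          · intro m hm
            exact cls_disj hd m ⟨hm.2, hm.1⟩
        · push Not at hTa
          have eT : ∀ m, cls K (j % K) T' m ↔ cls K (j % K) T m := by
            intro m
            by_cases hmi : m = i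
            · subst hmi; rw [ei, ei]; tauto
            · by_cases hmj : m = j
              · subst hmj; rw [ej, ej]; tauto
              · unfold cls; rw [(hk m hmi hmj).2]
          have eT' : cls K (j % K) T' = cls K (j % K) T := by
            funext m; exact propext (eT m)
          rw [eT']
          refine step (P := cls K (j % K) S) (by omega) ?_ ?_ ?_ ?_ ?_ ih2
          · intro m hmi hmj
            unfold cls; rw [(hk m hmi hmj).1]
          · rw [ei, ei, ej, ej]; exact hTS
          · rw [ei]; exact hTa.1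
          · rw [ej]; exact hTa.2.1
          · intro m hm
            exact cls_disj hd m hm
    · have e : batch K j (i + 1) = batch K j i := by
        show (if i % K = j % K then (i, j) :: batch K j i else batch K j i) = _
        rw [if_neg hc]
      rw [e] at hR
      obtain ⟨ih1, ih2⟩ := ih (by omega) S' T' hR
      refine ⟨ih1, ?_⟩
      have hni : ∀ X : Finset ℕ, ¬ cls K (j % K) X i := fun X hh => hc hh.1
      exact skip (by omega) (hni _) (hni _) ih2

end Colex

namespace Colex

theorem main {K : ℕ} : ∀ j S T, Reach (colex K j) S T →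
    ∀ c k, ¬ (od (cls K c S) k j ∧ od (cls K c T) k j) := by
  intro j
  induction j with
  | zero =>
    intro S T _ c k hh
    exact od_empty (Nat.zero_le k) hh.1
  | succ j ih =>
    intro S T hR c k
    obtain ⟨h1, h2⟩ := batch_inv ih j le_rfl S T hR
    by_cases hk : k ≤ j
    · by_cases hc : c = j % K
      · subst hc
        rcases h2 with ⟨-, hB⟩ | ⟨-, k0, hk1, hk2, -⟩ | ⟨-, k0, hk1, hk2, -⟩
        · exact hB k hk
        · omega
        · omega
      · have hS : ¬ cls K c S j := fun hh => hc hh.1.symm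
        have hT : ¬ cls K c T j := fun hh => hc hh.1.symm
        rw [od_right hk, od_right hk]
        have := h1 c hc k
        tauto
    · intro hh
      exact od_empty (by omega) hh.1

end Colex

theorem I_Colex : StColex := by
  intro K r _ S T hR c
  have h := RGraph.KT.Colex.main r S T hR c 0
  unfold RGraph.KT.Colex.od RGraph.KT.Colex.cls at h
  rw [Nat.Ico_zero_eq_range] at h
  convert h

end RGraph.KT
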