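import Pool.Agent.Work.MP_426d99_co.KT.St

/-!
# Families of disjoint near perfect matchings extend over a gadget
-/

namespace RGraph.KT.Fam

/-- Gadget vertices, strand not at the gadget. -/
lemma gad_none (u : Fin 10) : ∃ m : Fin 5, (u = hu m ∨ u = hv m) ∧
    ∀ m' : Fin 5, (u = hu m' ∨ u = hv m') → m' = m := by
  revert u
  decide

/-- Incidence with a light edge. -/
def LI (u : Fin 10) (a : Fin 8) : Prop := u = lu a ∨ u = lv a

instance (u : Fin 10) (a : Fin 8) : Decidable (LI u a) := by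
  unfold LI
  infer_instance

/-- Lights used at the strand `i`. -/
def Si (a : Fin 8) : Prop := a = 1 ∨ a = 4 ∨ a = 7

instance (a : Fin 8) : Decidable (Si a) := by
  unfold Si
  infer_instance

/-- Lights used at the strand `j`. -/
def Sj (a : Fin 8) : Prop := a = 0 ∨ a = 1 ∨ a = 6

instance (a : Fin 8) : Decidable (Sj a) := by
  unfold Sj
  infer_instance

/-- The finite check for the strand `i`: exactly one of connection, lights, heavy, strand. -/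
lemma gad_i (u : Fin 10) :
    (u = 0 ∧ u ≠ 4 ∧ (∀ a : Fin 8, Si a → ¬ LI u a) ∧ ¬ (u = hu 2 ∨ u = hv 2)) ∨
    (u = 4 ∧ u ≠ 0 ∧ (∀ a : Fin 8, Si a → ¬ LI u a) ∧ ¬ (u = hu 2 ∨ u = hv 2)) ∨
    ((u = hu 2 ∨ u = hv 2) ∧ u ≠ 0 ∧ u ≠ 4 ∧ (∀ a : Fin 8, Si a → ¬ LI u a)) ∨
    (∃ a : Fin 8, Si a ∧ LI u a ∧ u ≠ 0 ∧ u ≠ 4 ∧
      ¬ (u = hu 2 ∨ u = hv 2) ∧ ∀ a' : Fin 8, Si a' → LI u a' → a' = a) := by
  revert u
  decide

/-- The finite check for the strand `j`. -/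
lemma gad_j (u : Fin 10) :
    (u = 4 ∧ u ≠ 3 ∧ (∀ a : Fin 8, Sj a → ¬ LI u a) ∧ ¬ (u = hu 3 ∨ u = hv 3)) ∨
    (u = 3 ∧ u ≠ 4 ∧ (∀ a : Fin 8, Sj a → ¬ LI u a) ∧ ¬ (u = hu 3 ∨ u = hv 3)) ∨
    ((u = hu 3 ∨ u = hv 3) ∧ u ≠ 3 ∧ u ≠ 4 ∧ (∀ a : Fin 8, Sj a → ¬ LI u a)) ∨
    (∃ a : Fin 8, Sj a ∧ LI u a ∧ u ≠ 3 ∧ u ≠ 4 ∧
      ¬ (u = hu 3 ∨ u = hv 3) ∧ ∀ a' : Fin 8, Sj a' → LI u a' → a' = a) := by
  revert u
  decide

end RGraph.KT.Fam

open Finset Classical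

namespace RGraph.KT.Fam

variable {L E : Type} {r h : ℕ}

/-- Incidence of an old vertex. -/
def IncL (ends : E → Sym2 L) (p : Fin r → L) (i j : Fin r) (w : L) :
    (E ⊕ NE h) ⊕ Fin r → Prop
  | Sum.inl (Sum.inl e) => w ∈ ends e
  | Sum.inl (Sum.inr (Sum.inl a)) => if a = 0 then w = p i else w = p j
  | Sum.inl (Sum.inr (Sum.inr (Sum.inl _))) => False
  | Sum.inl (Sum.inr (Sum.inr (Sum.inr _))) => False
  | Sum.inr k => k ≠ i ∧ k ≠ j ∧ w = p k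

/-- Incidence of a gadget vertex. -/
def IncR (i j : Fin r) (u : Fin 10) : (E ⊕ NE h) ⊕ Fin r → Prop
  | Sum.inl (Sum.inl _) => False
  | Sum.inl (Sum.inr (Sum.inl a)) => if a = 0 then u = 0 else u = 4
  | Sum.inl (Sum.inr (Sum.inr (Sum.inl a))) => u = lu a ∨ u = lv a
  | Sum.inl (Sum.inr (Sum.inr (Sum.inr m))) => u = hu m.1 ∨ u = hv m.1
  | Sum.inr k => if k = i then u = 4 else k = j ∧ u = 3

lemma mem_cl_inl' (ends : E → Sym2 L) (p : Fin r → L) (v : L) (e : E) :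
    some v ∈ cl ends p (Sum.inl e) ↔ v ∈ ends e := by
  unfold cl
  simp [Sym2.mem_map]

lemma mem_cl_inr' (ends : E → Sym2 L) (p : Fin r → L) (v : L) (k : Fin r) :
    some v ∈ cl ends p (Sum.inr k) ↔ v = p k := by
  unfold cl
  simp

lemma incL_iff (ends : E → Sym2 L) (p : Fin r → L) (i j : Fin r) (w : L)
    (x : (E ⊕ NE h) ⊕ Fin r) :
    some (Sum.inl w) ∈ cl (ins h ends p i j) (insp p i j) x ↔ IncL ends p i j w x := by
  rcases x with ((e | a | a | m) | k)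
  · rw [mem_cl_inl']
    simp [ins, IncL, Sym2.mem_map]
  · rw [mem_cl_inl']
    by_cases ha : a = 0
    · simp [ins, IncL, ha]
    · simp [ins, IncL, ha]
  · rw [mem_cl_inl']
    simp [ins, IncL]
  · rw [mem_cl_inl']
    simp [ins, IncL]
  · rw [mem_cl_inr']
    by_cases hi : k = i
    · simp [insp, IncL, hi]
    · by_cases hj : k = j
      · subst hj
        simp [insp, IncL, hi]
      · simp [insp, IncL, hi, hj]

lemma incR_iff (ends : E → Sym2 L) (p : Fin r → L) (i j : Fin r) (u : Fin 10)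
    (x : (E ⊕ NE h) ⊕ Fin r) :
    some (Sum.inr u) ∈ cl (ins h ends p i j) (insp p i j) x ↔ IncR i j u x := by
  rcases x with ((e | a | a | m) | k)
  · rw [mem_cl_inl']
    simp [ins, IncR, Sym2.mem_map]
  · rw [mem_cl_inl']
    by_cases ha : a = 0
    · simp [ins, IncR, ha]
    · simp [ins, IncR, ha]
  · rw [mem_cl_inl']
    simp [ins, IncR]
  · rw [mem_cl_inl']
    simp [ins, IncR]
  · rw [mem_cl_inr']
    by_cases hi : k = i
    · simp [insp, IncR, hi]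
    · by_cases hj : k = j
      · subst hj
        simp [insp, IncR, hi]
      · simp [insp, IncR, hi, hj]

/-- The extended matching. -/
def ext (i j s : Fin r) (c : Fin h) (A : Set (E ⊕ Fin r)) : Set ((E ⊕ NE h) ⊕ Fin r) :=
  {x | match x with
    | Sum.inl (Sum.inl e) => Sum.inl e ∈ A
    | Sum.inl (Sum.inr (Sum.inl a)) => (s = i ∧ a = 0) ∨ (s = j ∧ a = 1)
    | Sum.inl (Sum.inr (Sum.inr (Sum.inl a))) =>
        (s = i ∧ (a = 1 ∨ a = 4 ∨ a = 7)) ∨ (s = j ∧ (a = 0 ∨ a = 1 ∨ a = 6))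
    | Sum.inl (Sum.inr (Sum.inr (Sum.inr m))) =>
        m.2 = c ∧ (s = i → m.1 = 2) ∧ (s = j → m.1 = 3)
    | Sum.inr k => k = s}

section
variable (i j s : Fin r) (c : Fin h) (A : Set (E ⊕ Fin r))

lemma ext0 (e : E) : (Sum.inl (Sum.inl e) : (E ⊕ NE h) ⊕ Fin r) ∈ ext i j s c A ↔ Sum.inl e ∈ A :=
  Iff.rfl

lemma ext1 (a : Fin 2) : (Sum.inl (Sum.inr (Sum.inl a)) : (E ⊕ NE h) ⊕ Fin r) ∈ ext i j s c A ↔
    (s = i ∧ a = 0) ∨ (s = j ∧ a = 1) := Iff.rfl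

lemma ext2 (a : Fin 8) :
    (Sum.inl (Sum.inr (Sum.inr (Sum.inl a))) : (E ⊕ NE h) ⊕ Fin r) ∈ ext i j s c A ↔
    (s = i ∧ (a = 1 ∨ a = 4 ∨ a = 7)) ∨ (s = j ∧ (a = 0 ∨ a = 1 ∨ a = 6)) := Iff.rfl

lemma ext3 (m : Fin 5 × Fin h) :
    (Sum.inl (Sum.inr (Sum.inr (Sum.inr m))) : (E ⊕ NE h) ⊕ Fin r) ∈ ext i j s c A ↔
    m.2 = c ∧ (s = i → m.1 = 2) ∧ (s = j → m.1 = 3) := Iff.rfl

lemma ext4 (k : Fin r) : (Sum.inr k : (E ⊕ NE h) ⊕ Fin r) ∈ ext i j s c A ↔ k = s := Iff.rfl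

end

/-- Old vertices are covered exactly once. -/
lemma cover_old (ends : E → Sym2 L) (p : Fin r → L) {i j : Fin r} (hij : i ≠ j) (s : Fin r)
    (c : Fin h) (A : Set (E ⊕ Fin r)) (hA : NPM ends p A) (hs : ∀ k, Sum.inr k ∈ A ↔ k = s)
    (w : L) : ∃! x, x ∈ ext i j s c A ∧ IncL ends p i j w x := by
  obtain ⟨y, ⟨hyA, hyw⟩, hyu⟩ := hA w
  have hu : ∀ z, z ∈ A → some w ∈ cl ends p z → z = y := fun z h1 h2 => hyu z ⟨h1, h2⟩
  have key : ∀ x, x ∈ ext i j s c A ∧ IncL ends p i j w x →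
      (∃ e, x = Sum.inl (Sum.inl e) ∧ Sum.inl e = y) ∨
      ((Sum.inr s : E ⊕ Fin r) = y ∧ ((s = i ∧ x = Sum.inl (Sum.inr (Sum.inl 0))) ∨
        (s = j ∧ x = Sum.inl (Sum.inr (Sum.inl 1))) ∨ (s ≠ i ∧ s ≠ j ∧ x = Sum.inr s))) := by
    intro x hx
    rcases x with ((e | a | a | m) | k)
    · left
      exact ⟨e, rfl, hu _ hx.1 ((mem_cl_inl' ends p w e).2 hx.2)⟩
    · right
      rcases (ext1 i j s c A a).1 hx.1 with ⟨h1, h2⟩ | ⟨h1, h2⟩
      · have h3 : w = p i := by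
          have := hx.2
          simpa [IncL, h2] using this
        refine ⟨hu _ ((hs s).2 rfl) ((mem_cl_inr' ends p w s).2 (h1 ▸ h3)), Or.inl ⟨h1, ?_⟩⟩
        rw [h2]
      · have h3 : w = p j := by
          have := hx.2
          simpa [IncL, h2] using this
        refine ⟨hu _ ((hs s).2 rfl) ((mem_cl_inr' ends p w s).2 (h1 ▸ h3)),
          Or.inr (Or.inl ⟨h1, ?_⟩)⟩
        rw [h2]
    · exact hx.2.elim
    · exact hx.2.elim
    · right
      have h1 : k = s := hx.1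
      obtain ⟨h2, h3, h4⟩ := hx.2
      refine ⟨hu _ ((hs s).2 rfl) ((mem_cl_inr' ends p w s).2 (h1 ▸ h4)),
        Or.inr (Or.inr ⟨h1 ▸ h2, h1 ▸ h3, ?_⟩)⟩
      rw [h1]
  rcases y with e | k
  · refine ⟨Sum.inl (Sum.inl e), ⟨hyA, (mem_cl_inl' ends p w e).1 hyw⟩, ?_⟩
    intro x hx
    rcases key x hx with ⟨e', h1, h2⟩ | ⟨h1, _⟩
    · rw [h1]
      rw [Sum.inl.injEq] at h2
      rw [h2]
    · cases h1
  · have hks : k = s := (hs k).1 hyA
    have hw : w = p s := hks ▸ (mem_cl_inr' ends p w k).1 hyw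
    by_cases hi : s = i
    · refine ⟨Sum.inl (Sum.inr (Sum.inl 0)), ⟨Or.inl ⟨hi, rfl⟩, ?_⟩, ?_⟩
      · simp [IncL, hw, hi]
      · intro x hx
        rcases key x hx with ⟨e', h1, h2⟩ | ⟨_, ⟨h1, h2⟩ | ⟨h1, h2⟩ | ⟨h1, h2, h3⟩⟩
        · cases h2
        · exact h2
        · exact absurd (hi.symm.trans h1) hij
        · exact absurd hi h1
    · by_cases hj : s = j
      · refine ⟨Sum.inl (Sum.inr (Sum.inl 1)), ⟨Or.inr ⟨hj, rfl⟩, ?_⟩, ?_⟩
        · simp [IncL, hw, hj]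
        · intro x hx
          rcases key x hx with ⟨e', h1, h2⟩ | ⟨_, ⟨h1, h2⟩ | ⟨h1, h2⟩ | ⟨h1, h2, h3⟩⟩
          · cases h2
          · exact absurd h1 hi
          · exact h2
          · exact absurd hj h2
      · refine ⟨Sum.inr s, ⟨rfl, hi, hj, hw⟩, ?_⟩
        intro x hx
        rcases key x hx with ⟨e', h1, h2⟩ | ⟨_, ⟨h1, h2⟩ | ⟨h1, h2⟩ | ⟨h1, h2, h3⟩⟩
        · cases h2
        · exact absurd h1 hi
        · exact absurd h1 hj
        · exact h3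

/-- Gadget vertices are covered exactly once: strand elsewhere. -/
lemma cover_none (i j s : Fin r) (hi : s ≠ i) (hj : s ≠ j)
    (c : Fin h) (A : Set (E ⊕ Fin r)) (u : Fin 10) :
    ∃! x, x ∈ ext i j s c A ∧ IncR i j u x := by
  obtain ⟨m, hm, hmu⟩ := gad_none u
  refine ⟨Sum.inl (Sum.inr (Sum.inr (Sum.inr (m, c)))), ⟨?_, hm⟩, ?_⟩
  · exact ⟨rfl, fun h => absurd h hi, fun h => absurd h hj⟩
  · rintro x ⟨hx1, hx2⟩
    rcases x with ((e | a | a | ⟨m', c'⟩) | k)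
    · exact hx2.elim
    · rcases (ext1 i j s c A a).1 hx1 with ⟨h1, _⟩ | ⟨h1, _⟩
      · exact absurd h1 hi
      · exact absurd h1 hj
    · rcases (ext2 i j s c A a).1 hx1 with ⟨h1, _⟩ | ⟨h1, _⟩
      · exact absurd h1 hi
      · exact absurd h1 hj
    · have h1 : c' = c := hx1.1
      have h2 : m' = m := hmu m' hx2
      rw [h1, h2]
    · have h1 : k = s := hx1
      exfalso
      have h2 : if k = i then u = 4 else k = j ∧ u = 3 := hx2
      rw [if_neg (h1 ▸ hi)] at h2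
      exact hj (h1 ▸ h2.1)

/-- Members of the extension at the strand `i` which are incident with `u`. -/
lemma mem_i (i j : Fin r) (hij : i ≠ j) (c : Fin h) (A : Set (E ⊕ Fin r)) (u : Fin 10)
    (x : (E ⊕ NE h) ⊕ Fin r) (hx : x ∈ ext i j i c A) (hxu : IncR i j u x) :
    (x = Sum.inl (Sum.inr (Sum.inl 0)) ∧ u = 0) ∨ (x = Sum.inr i ∧ u = 4) ∨
    (x = Sum.inl (Sum.inr (Sum.inr (Sum.inr (2, c)))) ∧ (u = hu 2 ∨ u = hv 2)) ∨
    (∃ a : Fin 8, x = Sum.inl (Sum.inr (Sum.inr (Sum.inl a))) ∧ (a = 1 ∨ a = 4 ∨ a = 7) ∧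
      (u = lu a ∨ u = lv a)) := by
  rcases x with ((e | a | a | ⟨m', c'⟩) | k)
  · exact hxu.elim
  · rcases (ext1 i j i c A a).1 hx with ⟨_, h1⟩ | ⟨h1, _⟩
    · left
      subst h1
      exact ⟨rfl, by simpa [IncR] using hxu⟩
    · exact absurd h1 hij
  · rcases (ext2 i j i c A a).1 hx with ⟨_, h1⟩ | ⟨h1, _⟩
    · right; right; right
      exact ⟨a, rfl, h1, hxu⟩
    · exact absurd h1 hij
  · obtain ⟨h1, h2, _⟩ := (ext3 i j i c A (m', c')).1 hx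
    have h3 : m' = 2 := h2 rfl
    have h4 : c' = c := h1
    subst h3
    subst h4
    right; right; left
    exact ⟨rfl, hxu⟩
  · have h1 : k = i := hx
    subst h1
    right; left
    exact ⟨rfl, by simpa [IncR] using hxu⟩

/-- Members of the extension at the strand `j` which are incident with `u`. -/
lemma mem_j (i j : Fin r) (hij : i ≠ j) (c : Fin h) (A : Set (E ⊕ Fin r)) (u : Fin 10)
    (x : (E ⊕ NE h) ⊕ Fin r) (hx : x ∈ ext i j j c A) (hxu : IncR i j u x) :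
    (x = Sum.inl (Sum.inr (Sum.inl 1)) ∧ u = 4) ∨ (x = Sum.inr j ∧ u = 3) ∨
    (x = Sum.inl (Sum.inr (Sum.inr (Sum.inr (3, c)))) ∧ (u = hu 3 ∨ u = hv 3)) ∨
    (∃ a : Fin 8, x = Sum.inl (Sum.inr (Sum.inr (Sum.inl a))) ∧ (a = 0 ∨ a = 1 ∨ a = 6) ∧
      (u = lu a ∨ u = lv a)) := by
  rcases x with ((e | a | a | ⟨m', c'⟩) | k)
  · exact hxu.elim
  · rcases (ext1 i j j c A a).1 hx with ⟨h1, _⟩ | ⟨_, h1⟩
    · exact absurd h1.symm hij
    · left
      subst h1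
      exact ⟨rfl, by simpa [IncR] using hxu⟩
  · rcases (ext2 i j j c A a).1 hx with ⟨h1, _⟩ | ⟨_, h1⟩
    · exact absurd h1.symm hij
    · right; right; right
      exact ⟨a, rfl, h1, hxu⟩
  · obtain ⟨h1, _, h2⟩ := (ext3 i j j c A (m', c')).1 hx
    have h3 : m' = 3 := h2 rfl
    have h4 : c' = c := h1
    subst h3
    subst h4
    right; right; left
    exact ⟨rfl, hxu⟩
  · have h1 : k = j := hx
    subst h1
    right; left
    have h2 : if k = i then u = 4 else k = k ∧ u = 3 := hxu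
    rw [if_neg (Ne.symm hij)] at h2
    exact ⟨rfl, h2.2⟩

/-- Gadget vertices are covered exactly once: strand `i`. -/
lemma cover_i (i j : Fin r) (hij : i ≠ j) (c : Fin h) (A : Set (E ⊕ Fin r)) (u : Fin 10) :
    ∃! x, x ∈ ext i j i c A ∧ IncR i j u x := by
  rcases gad_i u with ⟨h1, h2, h3, h4⟩ | ⟨h1, h2, h3, h4⟩ | ⟨h1, h2, h3, h4⟩ |
    ⟨a, ha, h1, h2, h3, h4, h5⟩
  · refine ⟨Sum.inl (Sum.inr (Sum.inl 0)), ⟨Or.inl ⟨rfl, rfl⟩, ?_⟩, ?_⟩
    · simp [IncR, h1]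
    · rintro x ⟨hx1, hx2⟩
      rcases mem_i i j hij c A u x hx1 hx2 with ⟨h, _⟩ | ⟨_, h⟩ | ⟨_, h⟩ | ⟨a, _, ha, h⟩
      · exact h
      · exact absurd h h2
      · exact absurd h h4
      · exact absurd h (h3 a ha)
  · refine ⟨Sum.inr i, ⟨rfl, ?_⟩, ?_⟩
    · simp [IncR, h1]
    · rintro x ⟨hx1, hx2⟩
      rcases mem_i i j hij c A u x hx1 hx2 with ⟨_, h⟩ | ⟨h, _⟩ | ⟨_, h⟩ | ⟨a, _, ha, h⟩
      · exact absurd h h2
      · exact h
      · exact absurd h h4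
      · exact absurd h (h3 a ha)
  · refine ⟨Sum.inl (Sum.inr (Sum.inr (Sum.inr (2, c)))),
      ⟨⟨rfl, fun _ => rfl, fun h => absurd h hij⟩, h1⟩, ?_⟩
    rintro x ⟨hx1, hx2⟩
    rcases mem_i i j hij c A u x hx1 hx2 with ⟨_, h⟩ | ⟨_, h⟩ | ⟨h, _⟩ | ⟨a, _, ha, h⟩
    · exact absurd h h2
    · exact absurd h h3
    · exact h
    · exact absurd h (h4 a ha)
  · refine ⟨Sum.inl (Sum.inr (Sum.inr (Sum.inl a))), ⟨Or.inl ⟨rfl, ha⟩, h1⟩, ?_⟩
    rintro x ⟨hx1, hx2⟩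
    rcases mem_i i j hij c A u x hx1 hx2 with ⟨_, h⟩ | ⟨_, h⟩ | ⟨_, h⟩ | ⟨a', h, ha', h'⟩
    · exact absurd h h2
    · exact absurd h h3
    · exact absurd h h4
    · rw [h, h5 a' ha' h']

/-- Gadget vertices are covered exactly once: strand `j`. -/
lemma cover_j (i j : Fin r) (hij : i ≠ j) (c : Fin h) (A : Set (E ⊕ Fin r)) (u : Fin 10) :
    ∃! x, x ∈ ext i j j c A ∧ IncR i j u x := by
  rcases gad_j u with ⟨h1, h2, h3, h4⟩ | ⟨h1, h2, h3, h4⟩ | ⟨h1, h2, h3, h4⟩ |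
    ⟨a, ha, h1, h2, h3, h4, h5⟩
  · refine ⟨Sum.inl (Sum.inr (Sum.inl 1)), ⟨Or.inr ⟨rfl, rfl⟩, ?_⟩, ?_⟩
    · simp [IncR, h1]
    · rintro x ⟨hx1, hx2⟩
      rcases mem_j i j hij c A u x hx1 hx2 with ⟨h, _⟩ | ⟨_, h⟩ | ⟨_, h⟩ | ⟨a, _, ha, h⟩
      · exact h
      · exact absurd h h2
      · exact absurd h h4
      · exact absurd h (h3 a ha)
  · refine ⟨Sum.inr j, ⟨rfl, ?_⟩, ?_⟩
    · show if j = i then u = 4 else j = j ∧ u = 3
      rw [if_neg (Ne.symm hij)]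
      exact ⟨rfl, h1⟩
    · rintro x ⟨hx1, hx2⟩
      rcases mem_j i j hij c A u x hx1 hx2 with ⟨_, h⟩ | ⟨h, _⟩ | ⟨_, h⟩ | ⟨a, _, ha, h⟩
      · exact absurd h h2
      · exact h
      · exact absurd h h4
      · exact absurd h (h3 a ha)
  · refine ⟨Sum.inl (Sum.inr (Sum.inr (Sum.inr (3, c)))),
      ⟨⟨rfl, fun h => absurd h.symm hij, fun _ => rfl⟩, h1⟩, ?_⟩
    rintro x ⟨hx1, hx2⟩
    rcases mem_j i j hij c A u x hx1 hx2 with ⟨_, h⟩ | ⟨_, h⟩ | ⟨h, _⟩ | ⟨a, _, ha, h⟩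
    · exact absurd h h3
    · exact absurd h h2
    · exact h
    · exact absurd h (h4 a ha)
  · refine ⟨Sum.inl (Sum.inr (Sum.inr (Sum.inl a))), ⟨Or.inr ⟨rfl, ha⟩, h1⟩, ?_⟩
    rintro x ⟨hx1, hx2⟩
    rcases mem_j i j hij c A u x hx1 hx2 with ⟨_, h⟩ | ⟨_, h⟩ | ⟨_, h⟩ | ⟨a', h, ha', h'⟩
    · exact absurd h h3
    · exact absurd h h2
    · exact absurd h h4
    · rw [h, h5 a' ha' h']

/-- The extension is a near perfect matching. -/
lemma npm_ext (ends : E → Sym2 L) (p : Fin r → L) {i j : Fin r} (hij : i ≠ j) (s : Fin r)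
    (c : Fin h) (A : Set (E ⊕ Fin r)) (hA : NPM ends p A) (hs : ∀ k, Sum.inr k ∈ A ↔ k = s) :
    NPM (ins h ends p i j) (insp p i j) (ext i j s c A) := by
  intro v
  rcases v with w | u
  · have h1 := cover_old ends p hij s c A hA hs w
    simpa only [incL_iff] using h1
  · have h1 : ∃! x, x ∈ ext i j s c A ∧ IncR i j u x := by
      by_cases hi : s = i
      · subst hi
        exact cover_i s j hij c A u
      · by_cases hj : s = j
        · subst hj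
          exact cover_j i s hij c A u
        · exact cover_none i j s hi hj c A u
    simpa only [incR_iff] using h1

/-- Extensions are disjoint. -/
lemma ext_disj {i j : Fin r} {s t : Fin r} {c d : Fin h} {A B : Set (E ⊕ Fin r)}
    (hst : s ≠ t) (hcd : c ≠ d) (hAB : Disjoint A B)
    (hno : ¬ ((s = i ∨ s = j) ∧ (t = i ∨ t = j))) :
    Disjoint (ext i j s c A) (ext i j t d B) := by
  rw [Set.disjoint_left]
  intro x hx hy
  rcases x with ((e | a | a | m) | k)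
  · exact Set.disjoint_left.1 hAB hx hy
  · apply hno
    rcases (ext1 i j s c A a).1 hx with ⟨h1, _⟩ | ⟨h1, _⟩ <;>
    rcases (ext1 i j t d B a).1 hy with ⟨h2, _⟩ | ⟨h2, _⟩ <;> simp [h1, h2]
  · apply hno
    rcases (ext2 i j s c A a).1 hx with ⟨h1, _⟩ | ⟨h1, _⟩ <;>
    rcases (ext2 i j t d B a).1 hy with ⟨h2, _⟩ | ⟨h2, _⟩ <;> simp [h1, h2]
  · exact hcd (((ext3 i j s c A m).1 hx).1.symm.trans ((ext3 i j t d B m).1 hy).1)
  · have h1 : k = s := hx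
    have h2 : k = t := hy
    exact hst (h1.symm.trans h2)

end RGraph.KT.Fam

namespace RGraph.KT

theorem I_Fam : StFam := by
  intro r h L E ends p i j hij K hK hno F hF
  have hc : ∃ c : Fin r → Option (Fin h), (∀ s ∈ K, (c s).isSome) ∧
      ∀ s ∈ K, ∀ t ∈ K, c s = c t → s = t := by
    have h1 : Fintype.card K ≤ Fintype.card (Fin h) := by
      rw [Fintype.card_coe, Fintype.card_fin]
      exact hK
    obtain ⟨f⟩ := Function.Embedding.nonempty_of_card_le h1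
    refine ⟨fun s => if hs : s ∈ K then some (f ⟨s, hs⟩) else none, ?_, ?_⟩
    · intro s hs
      simp [hs]
    · intro s hs t ht hst
      simp only [hs, ht, dif_pos, Option.some.injEq] at hst
      have := f.injective hst
      exact congrArg Subtype.val this
  obtain ⟨c, hc1, hc2⟩ := hc
  refine ⟨fun s => if hs : s ∈ K then Fam.ext i j s ((c s).get (hc1 s hs)) (F s) else ∅,
    ?_, ?_⟩
  · intro s hs
    simp only [hs, dif_pos]
    refine ⟨Fam.npm_ext ends p hij s _ (F s) (hF.1 s hs).1 (hF.1 s hs).2, fun k => ?_⟩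
    exact Fam.ext4 i j s _ (F s) k
  · intro s hs t ht hst
    simp only [hs, ht, dif_pos]
    refine Fam.ext_disj hst ?_ (hF.2 s hs t ht hst) ?_
    · intro h1
      apply hst
      apply hc2 s hs t ht
      rw [← Option.some_get (hc1 s hs), ← Option.some_get (hc1 t ht), h1]
    · rintro ⟨h1 | h1, h2 | h2⟩
      · exact hst (h1.trans h2.symm)
      · exact hno ⟨h1 ▸ hs, h2 ▸ ht⟩
      · exact hno ⟨h2 ▸ ht, h1 ▸ hs⟩
      · exact hst (h1.trans h2.symm)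

end RGraph.KT
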