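import Pool.Agent.Work.MP_426d99_co.KT.St

open Finset Classical

namespace RGraph.KT

namespace InsP

variable {L E : Type} {r h : ℕ}

/-- embedding of the old edges -/
def phi (i j : Fin r) : E ⊕ Fin r → (E ⊕ NE h) ⊕ Fin r
  | Sum.inl e => Sum.inl (Sum.inl e)
  | Sum.inr k => if k = i then Sum.inl (Sum.inr (Sum.inl 0))
      else if k = j then Sum.inl (Sum.inr (Sum.inl 1)) else Sum.inr k

theorem mem_pull (i j : Fin r) (F : Set ((E ⊕ NE h) ⊕ Fin r)) (x : E ⊕ Fin r) :
    x ∈ pull i j F ↔ phi i j x ∈ F := by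
  rcases x with e | k
  · rfl
  · simp only [pull, phi, Set.mem_ofPred_eq]
    split_ifs <;> rfl

theorem phi_inj {i j : Fin r} (_hij : i ≠ j) :
    Function.Injective (phi (E := E) (h := h) i j) := by
  intro x y hxy
  rcases x with e | k <;> rcases y with e' | k'
  · simp only [phi, Sum.inl.injEq] at hxy
    rw [hxy]
  · simp only [phi] at hxy
    split_ifs at hxy <;> simp_all
  · simp only [phi] at hxy
    split_ifs at hxy <;> simp_all
  · simp only [phi] at hxy
    split_ifs at hxy <;> simp_all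

theorem inc_old (ends : E → Sym2 L) (p : Fin r → L) {i j : Fin r} (hij : i ≠ j) (v : L)
    (x' : (E ⊕ NE h) ⊕ Fin r) :
    some (Sum.inl v) ∈ cl (ins h ends p i j) (insp p i j) x' ↔
      ∃ x, phi i j x = x' ∧ some v ∈ cl ends p x := by
  constructor
  · intro hx
    rcases x' with ((e | (a | (a | ⟨m, c⟩))) | k)
    · refine ⟨Sum.inl e, rfl, ?_⟩
      simpa [cl, ins, Sym2.mem_map] using hx
    · by_cases ha : a = 0
      · subst ha
        refine ⟨Sum.inr i, by simp [phi], ?_⟩
        simpa [cl, ins, Sym2.mem_map] using hx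
      · have ha1 : a = 1 := by omega
        subst ha1
        refine ⟨Sum.inr j, by simp [phi, hij.symm], ?_⟩
        simpa [cl, ins, Sym2.mem_map] using hx
    · simp [cl, ins] at hx
    · simp [cl, ins] at hx
    · simp only [cl, insp, Sym2.mem_iff, reduceCtorEq, or_false, Option.some.injEq] at hx
      split_ifs at hx with h1 h2
      refine ⟨Sum.inr k, by simp [phi, h1, h2], ?_⟩
      simpa [cl] using hx
  · rintro ⟨x, rfl, hx⟩
    rcases x with e | k
    · simpa [phi, cl, ins, Sym2.mem_map] using hx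
    · simp only [cl, Sym2.mem_iff, reduceCtorEq, or_false, Option.some.injEq] at hx
      subst hx
      simp only [phi]
      split_ifs with h1 h2
      · subst h1; simp [cl, ins]
      · subst h2; simp [cl, ins]
      · simp [cl, insp, h1, h2]

/-! ### Booleans -/

def ex1 (a b c : Bool) : Bool := (a && !b && !c) || (!a && b && !c) || (!a && !b && c)

noncomputable def bl {X : Type} (F A : Set X) : Bool := decide (∃ x ∈ A, x ∈ F)

theorem bl_iff {X : Type} (F A : Set X) : bl F A = true ↔ ∃ x ∈ A, x ∈ F := by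
  simp [bl]

theorem bl_single {X : Type} (F : Set X) (x : X) : bl F {x} = true ↔ x ∈ F := by
  simp [bl]

theorem ex1_of {X : Type} {F A B C : Set X} (hAB : Disjoint A B) (hAC : Disjoint A C)
    (hBC : Disjoint B C) {inc : X → Prop} (hinc : ∀ x, inc x ↔ x ∈ A ∨ x ∈ B ∨ x ∈ C)
    (hu : ∃! x, x ∈ F ∧ inc x) : ex1 (bl F A) (bl F B) (bl F C) = true := by
  obtain ⟨x, ⟨hx, hi⟩, hun⟩ := hu
  have key : ∀ y, y ∈ F → (y ∈ A ∨ y ∈ B ∨ y ∈ C) → y = x :=
    fun y hy h => hun y ⟨hy, (hinc y).2 h⟩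
  rw [Set.disjoint_left] at hAB hAC hBC
  rcases (hinc x).1 hi with h | h | h
  · have hA : bl F A = true := (bl_iff _ _).2 ⟨x, h, hx⟩
    have hB : bl F B = false := by
      rw [← Bool.not_eq_true, bl_iff]
      rintro ⟨y, hy, hyF⟩
      have := key y hyF (Or.inr (Or.inl hy))
      subst this
      exact hAB h hy
    have hC : bl F C = false := by
      rw [← Bool.not_eq_true, bl_iff]
      rintro ⟨y, hy, hyF⟩
      have := key y hyF (Or.inr (Or.inr hy))
      subst this
      exact hAC h hy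
    simp [ex1, hA, hB, hC]
  · have hB : bl F B = true := (bl_iff _ _).2 ⟨x, h, hx⟩
    have hA : bl F A = false := by
      rw [← Bool.not_eq_true, bl_iff]
      rintro ⟨y, hy, hyF⟩
      have := key y hyF (Or.inl hy)
      subst this
      exact hAB hy h
    have hC : bl F C = false := by
      rw [← Bool.not_eq_true, bl_iff]
      rintro ⟨y, hy, hyF⟩
      have := key y hyF (Or.inr (Or.inr hy))
      subst this
      exact hBC h hy
    simp [ex1, hA, hB, hC]
  · have hC : bl F C = true := (bl_iff _ _).2 ⟨x, h, hx⟩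
    have hA : bl F A = false := by
      rw [← Bool.not_eq_true, bl_iff]
      rintro ⟨y, hy, hyF⟩
      have := key y hyF (Or.inl hy)
      subst this
      exact hAC hy h
    have hB : bl F B = false := by
      rw [← Bool.not_eq_true, bl_iff]
      rintro ⟨y, hy, hyF⟩
      have := key y hyF (Or.inr (Or.inl hy))
      subst this
      exact hBC hy h
    simp [ex1, hA, hB, hC]

/-- light edge -/
def LL (E : Type) (h r : ℕ) (a : Fin 8) : Set ((E ⊕ NE h) ⊕ Fin r) :=
  {Sum.inl (Sum.inr (Sum.inr (Sum.inl a)))}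
/-- heavy class -/
def YY (E : Type) (h r : ℕ) (m : Fin 5) : Set ((E ⊕ NE h) ⊕ Fin r) :=
  {x | ∃ c, x = Sum.inl (Sum.inr (Sum.inr (Sum.inr (m, c))))}
/-- old strands -/
def OO (E : Type) (h r : ℕ) (a : Fin 2) : Set ((E ⊕ NE h) ⊕ Fin r) :=
  {Sum.inl (Sum.inr (Sum.inl a))}
/-- new strands -/
def SS (E : Type) (h : ℕ) {r : ℕ} (k : Fin r) : Set ((E ⊕ NE h) ⊕ Fin r) := {Sum.inr k}

section inc

variable (ends : E → Sym2 L) (p : Fin r → L) (i j : Fin r)

theorem inc_e (v : Fin 10) (e : E) :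
    ¬ some (Sum.inr v) ∈ cl (ins h ends p i j) (insp p i j) (Sum.inl (Sum.inl e)) := by
  simp [cl, ins, Sym2.mem_map]

theorem inc_a (v : Fin 10) (a : Fin 2) :
    some (Sum.inr v) ∈ cl (ins h ends p i j) (insp p i j) (Sum.inl (Sum.inr (Sum.inl a))) ↔
      v = if a = 0 then 0 else 4 := by
  by_cases ha : a = 0
  · simp [cl, ins, ha]
  · simp [cl, ins, ha]

theorem inc_l (v : Fin 10) (a : Fin 8) :
    some (Sum.inr v) ∈ cl (ins h ends p i j) (insp p i j)
      (Sum.inl (Sum.inr (Sum.inr (Sum.inl a)))) ↔ v = lu a ∨ v = lv a := by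
  simp [cl, ins]

theorem inc_h (v : Fin 10) (m : Fin 5 × Fin h) :
    some (Sum.inr v) ∈ cl (ins h ends p i j) (insp p i j)
      (Sum.inl (Sum.inr (Sum.inr (Sum.inr m)))) ↔ v = hu m.1 ∨ v = hv m.1 := by
  simp [cl, ins]

theorem inc_k (v : Fin 10) (k : Fin r) :
    some (Sum.inr v) ∈ cl (ins h ends p i j) (insp p i j) (Sum.inr k) ↔
      (k = i ∧ v = 4) ∨ (k ≠ i ∧ k = j ∧ v = 3) := by
  simp only [cl, insp, Sym2.mem_iff, reduceCtorEq, or_false, Option.some.injEq]
  split_ifs with h1 h2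
  · simp [h1]
  · simp only [Sum.inr.injEq]
    constructor
    · intro h
      exact Or.inr ⟨h1, h2, h⟩
    · rintro (⟨h, _⟩ | ⟨_, _, h⟩)
      · exact absurd h h1
      · exact h
  · simp [h1, h2]

end inc

section vert

variable {ends : E → Sym2 L} {p : Fin r → L} {i j : Fin r} {F : Set ((E ⊕ NE h) ⊕ Fin r)}

theorem v0 (H : NPM (ins h ends p i j) (insp p i j) F) :
    ex1 (bl F (OO E h r 0)) (bl F (YY E h r 0)) (bl F (LL E h r 0)) = true := by
  apply ex1_of (by
    rw [Set.disjoint_left]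
    rintro ((e | (a | (a | ⟨m, c⟩))) | k) <;> simp [LL, YY, OO, SS] <;> (try omega)) (by
    rw [Set.disjoint_left]
    rintro ((e | (a | (a | ⟨m, c⟩))) | k) <;> simp [LL, YY, OO, SS] <;> (try omega)) (by
    rw [Set.disjoint_left]
    rintro ((e | (a | (a | ⟨m, c⟩))) | k) <;> simp [LL, YY, OO, SS] <;> (try omega)) (inc := fun x =>
    some (Sum.inr 0) ∈ cl (ins h ends p i j) (insp p i j) x) _ (H (Sum.inr 0))
  rintro ((e | (a | (a | ⟨m, c⟩))) | k)
  · simp [inc_e, LL, YY, OO, SS]
  · rw [inc_a]; fin_cases a <;> simp [LL, YY, OO, SS]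
  · rw [inc_l]; fin_cases a <;> simp [LL, YY, OO, SS, lu, lv]
  · rw [inc_h]; fin_cases m <;> simp [LL, YY, OO, SS, hu, hv]
  · rw [inc_k]; simp [LL, YY, OO, SS]

theorem v1 (H : NPM (ins h ends p i j) (insp p i j) F) :
    ex1 (bl F (YY E h r 0)) (bl F (LL E h r 1)) (bl F (LL E h r 2)) = true := by
  apply ex1_of (by
    rw [Set.disjoint_left]
    rintro ((e | (a | (a | ⟨m, c⟩))) | k) <;> simp [LL, YY, OO, SS] <;> (try omega)) (by
    rw [Set.disjoint_left]
    rintro ((e | (a | (a | ⟨m, c⟩))) | k) <;> simp [LL, YY, OO, SS] <;> (try omega)) (by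
    rw [Set.disjoint_left]
    rintro ((e | (a | (a | ⟨m, c⟩))) | k) <;> simp [LL, YY, OO, SS] <;> (try omega)) (inc := fun x =>
    some (Sum.inr 1) ∈ cl (ins h ends p i j) (insp p i j) x) _ (H (Sum.inr 1))
  rintro ((e | (a | (a | ⟨m, c⟩))) | k)
  · simp [inc_e, LL, YY, OO, SS]
  · rw [inc_a]; fin_cases a <;> simp [LL, YY, OO, SS]
  · rw [inc_l]; fin_cases a <;> simp [LL, YY, OO, SS, lu, lv]
  · rw [inc_h]; fin_cases m <;> simp [LL, YY, OO, SS, hu, hv]
  · rw [inc_k]; simp [LL, YY, OO, SS]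

theorem v2 (H : NPM (ins h ends p i j) (insp p i j) F) :
    ex1 (bl F (YY E h r 1)) (bl F (LL E h r 1)) (bl F (LL E h r 3)) = true := by
  apply ex1_of (by
    rw [Set.disjoint_left]
    rintro ((e | (a | (a | ⟨m, c⟩))) | k) <;> simp [LL, YY, OO, SS] <;> (try omega)) (by
    rw [Set.disjoint_left]
    rintro ((e | (a | (a | ⟨m, c⟩))) | k) <;> simp [LL, YY, OO, SS] <;> (try omega)) (by
    rw [Set.disjoint_left]
    rintro ((e | (a | (a | ⟨m, c⟩))) | k) <;> simp [LL, YY, OO, SS] <;> (try omega)) (inc := fun x =>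
    some (Sum.inr 2) ∈ cl (ins h ends p i j) (insp p i j) x) _ (H (Sum.inr 2))
  rintro ((e | (a | (a | ⟨m, c⟩))) | k)
  · simp [inc_e, LL, YY, OO, SS]
  · rw [inc_a]; fin_cases a <;> simp [LL, YY, OO, SS]
  · rw [inc_l]; fin_cases a <;> simp [LL, YY, OO, SS, lu, lv]
  · rw [inc_h]; fin_cases m <;> simp [LL, YY, OO, SS, hu, hv]
  · rw [inc_k]; simp [LL, YY, OO, SS]

theorem v3 (hij : i ≠ j) (H : NPM (ins h ends p i j) (insp p i j) F) :
    ex1 (bl F (SS E h j)) (bl F (YY E h r 1)) (bl F (LL E h r 4)) = true := by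
  apply ex1_of (by
    rw [Set.disjoint_left]
    rintro ((e | (a | (a | ⟨m, c⟩))) | k) <;> simp [LL, YY, OO, SS] <;> (try omega)) (by
    rw [Set.disjoint_left]
    rintro ((e | (a | (a | ⟨m, c⟩))) | k) <;> simp [LL, YY, OO, SS] <;> (try omega)) (by
    rw [Set.disjoint_left]
    rintro ((e | (a | (a | ⟨m, c⟩))) | k) <;> simp [LL, YY, OO, SS] <;> (try omega)) (inc := fun x =>
    some (Sum.inr 3) ∈ cl (ins h ends p i j) (insp p i j) x) _ (H (Sum.inr 3))
  rintro ((e | (a | (a | ⟨m, c⟩))) | k)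
  · simp [inc_e, LL, YY, OO, SS]
  · rw [inc_a]; fin_cases a <;> simp [LL, YY, OO, SS]
  · rw [inc_l]; fin_cases a <;> simp [LL, YY, OO, SS, lu, lv]
  · rw [inc_h]; fin_cases m <;> simp [LL, YY, OO, SS, hu, hv]
  · rw [inc_k]
    simp only [LL, YY, OO, SS, Set.mem_singleton_iff, Sum.inr.injEq, Set.mem_ofPred_eq,
      reduceCtorEq, exists_false, or_false]
    constructor
    · rintro (⟨_, h⟩ | ⟨_, h, _⟩)
      · exact absurd h (by decide)
      · exact h
    · intro h
      exact Or.inr ⟨fun h' => hij (h'.symm.trans h), h, trivial⟩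

theorem v4 (H : NPM (ins h ends p i j) (insp p i j) F) :
    ex1 (bl F (SS E h i)) (bl F (OO E h r 1)) (bl F (YY E h r 4)) = true := by
  apply ex1_of (by
    rw [Set.disjoint_left]
    rintro ((e | (a | (a | ⟨m, c⟩))) | k) <;> simp [LL, YY, OO, SS] <;> (try omega)) (by
    rw [Set.disjoint_left]
    rintro ((e | (a | (a | ⟨m, c⟩))) | k) <;> simp [LL, YY, OO, SS] <;> (try omega)) (by
    rw [Set.disjoint_left]
    rintro ((e | (a | (a | ⟨m, c⟩))) | k) <;> simp [LL, YY, OO, SS] <;> (try omega)) (inc := fun x =>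
    some (Sum.inr 4) ∈ cl (ins h ends p i j) (insp p i j) x) _ (H (Sum.inr 4))
  rintro ((e | (a | (a | ⟨m, c⟩))) | k)
  · simp [inc_e, LL, YY, OO, SS]
  · rw [inc_a]; fin_cases a <;> simp [LL, YY, OO, SS]
  · rw [inc_l]; fin_cases a <;> simp [LL, YY, OO, SS, lu, lv]
  · rw [inc_h]; fin_cases m <;> simp [LL, YY, OO, SS, hu, hv]
  · rw [inc_k]; simp [LL, YY, OO, SS]

theorem v5 (H : NPM (ins h ends p i j) (insp p i j) F) :
    ex1 (bl F (YY E h r 2)) (bl F (LL E h r 0)) (bl F (LL E h r 5)) = true := by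
  apply ex1_of (by
    rw [Set.disjoint_left]
    rintro ((e | (a | (a | ⟨m, c⟩))) | k) <;> simp [LL, YY, OO, SS] <;> (try omega)) (by
    rw [Set.disjoint_left]
    rintro ((e | (a | (a | ⟨m, c⟩))) | k) <;> simp [LL, YY, OO, SS] <;> (try omega)) (by
    rw [Set.disjoint_left]
    rintro ((e | (a | (a | ⟨m, c⟩))) | k) <;> simp [LL, YY, OO, SS] <;> (try omega)) (inc := fun x =>
    some (Sum.inr 5) ∈ cl (ins h ends p i j) (insp p i j) x) _ (H (Sum.inr 5))
  rintro ((e | (a | (a | ⟨m, c⟩))) | k)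
  · simp [inc_e, LL, YY, OO, SS]
  · rw [inc_a]; fin_cases a <;> simp [LL, YY, OO, SS]
  · rw [inc_l]; fin_cases a <;> simp [LL, YY, OO, SS, lu, lv]
  · rw [inc_h]; fin_cases m <;> simp [LL, YY, OO, SS, hu, hv]
  · rw [inc_k]; simp [LL, YY, OO, SS]

theorem v6 (H : NPM (ins h ends p i j) (insp p i j) F) :
    ex1 (bl F (YY E h r 3)) (bl F (LL E h r 2)) (bl F (LL E h r 7)) = true := by
  apply ex1_of (by
    rw [Set.disjoint_left]
    rintro ((e | (a | (a | ⟨m, c⟩))) | k) <;> simp [LL, YY, OO, SS] <;> (try omega)) (by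
    rw [Set.disjoint_left]
    rintro ((e | (a | (a | ⟨m, c⟩))) | k) <;> simp [LL, YY, OO, SS] <;> (try omega)) (by
    rw [Set.disjoint_left]
    rintro ((e | (a | (a | ⟨m, c⟩))) | k) <;> simp [LL, YY, OO, SS] <;> (try omega)) (inc := fun x =>
    some (Sum.inr 6) ∈ cl (ins h ends p i j) (insp p i j) x) _ (H (Sum.inr 6))
  rintro ((e | (a | (a | ⟨m, c⟩))) | k)
  · simp [inc_e, LL, YY, OO, SS]
  · rw [inc_a]; fin_cases a <;> simp [LL, YY, OO, SS]
  · rw [inc_l]; fin_cases a <;> simp [LL, YY, OO, SS, lu, lv]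
  · rw [inc_h]; fin_cases m <;> simp [LL, YY, OO, SS, hu, hv]
  · rw [inc_k]; simp [LL, YY, OO, SS]

theorem v7 (H : NPM (ins h ends p i j) (insp p i j) F) :
    ex1 (bl F (YY E h r 2)) (bl F (LL E h r 3)) (bl F (LL E h r 6)) = true := by
  apply ex1_of (by
    rw [Set.disjoint_left]
    rintro ((e | (a | (a | ⟨m, c⟩))) | k) <;> simp [LL, YY, OO, SS] <;> (try omega)) (by
    rw [Set.disjoint_left]
    rintro ((e | (a | (a | ⟨m, c⟩))) | k) <;> simp [LL, YY, OO, SS] <;> (try omega)) (by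
    rw [Set.disjoint_left]
    rintro ((e | (a | (a | ⟨m, c⟩))) | k) <;> simp [LL, YY, OO, SS] <;> (try omega)) (inc := fun x =>
    some (Sum.inr 7) ∈ cl (ins h ends p i j) (insp p i j) x) _ (H (Sum.inr 7))
  rintro ((e | (a | (a | ⟨m, c⟩))) | k)
  · simp [inc_e, LL, YY, OO, SS]
  · rw [inc_a]; fin_cases a <;> simp [LL, YY, OO, SS]
  · rw [inc_l]; fin_cases a <;> simp [LL, YY, OO, SS, lu, lv]
  · rw [inc_h]; fin_cases m <;> simp [LL, YY, OO, SS, hu, hv]
  · rw [inc_k]; simp [LL, YY, OO, SS]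

theorem v8 (H : NPM (ins h ends p i j) (insp p i j) F) :
    ex1 (bl F (YY E h r 3)) (bl F (LL E h r 4)) (bl F (LL E h r 5)) = true := by
  apply ex1_of (by
    rw [Set.disjoint_left]
    rintro ((e | (a | (a | ⟨m, c⟩))) | k) <;> simp [LL, YY, OO, SS] <;> (try omega)) (by
    rw [Set.disjoint_left]
    rintro ((e | (a | (a | ⟨m, c⟩))) | k) <;> simp [LL, YY, OO, SS] <;> (try omega)) (by
    rw [Set.disjoint_left]
    rintro ((e | (a | (a | ⟨m, c⟩))) | k) <;> simp [LL, YY, OO, SS] <;> (try omega)) (inc := fun x =>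
    some (Sum.inr 8) ∈ cl (ins h ends p i j) (insp p i j) x) _ (H (Sum.inr 8))
  rintro ((e | (a | (a | ⟨m, c⟩))) | k)
  · simp [inc_e, LL, YY, OO, SS]
  · rw [inc_a]; fin_cases a <;> simp [LL, YY, OO, SS]
  · rw [inc_l]; fin_cases a <;> simp [LL, YY, OO, SS, lu, lv]
  · rw [inc_h]; fin_cases m <;> simp [LL, YY, OO, SS, hu, hv]
  · rw [inc_k]; simp [LL, YY, OO, SS]

theorem v9 (H : NPM (ins h ends p i j) (insp p i j) F) :
    ex1 (bl F (YY E h r 4)) (bl F (LL E h r 6)) (bl F (LL E h r 7)) = true := by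
  apply ex1_of (by
    rw [Set.disjoint_left]
    rintro ((e | (a | (a | ⟨m, c⟩))) | k) <;> simp [LL, YY, OO, SS] <;> (try omega)) (by
    rw [Set.disjoint_left]
    rintro ((e | (a | (a | ⟨m, c⟩))) | k) <;> simp [LL, YY, OO, SS] <;> (try omega)) (by
    rw [Set.disjoint_left]
    rintro ((e | (a | (a | ⟨m, c⟩))) | k) <;> simp [LL, YY, OO, SS] <;> (try omega)) (inc := fun x =>
    some (Sum.inr 9) ∈ cl (ins h ends p i j) (insp p i j) x) _ (H (Sum.inr 9))
  rintro ((e | (a | (a | ⟨m, c⟩))) | k)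
  · simp [inc_e, LL, YY, OO, SS]
  · rw [inc_a]; fin_cases a <;> simp [LL, YY, OO, SS]
  · rw [inc_l]; fin_cases a <;> simp [LL, YY, OO, SS, lu, lv]
  · rw [inc_h]; fin_cases m <;> simp [LL, YY, OO, SS, hu, hv]
  · rw [inc_k]; simp [LL, YY, OO, SS]

end vert

theorem ex1_first {a b c : Bool} (h : ex1 a b c = true) : a = (!b && !c) := by
  revert h; revert a b c; decide

/-- The 12 solutions: lights `05 12 16 27 38 58 79 69`, then `a1 b1 a2 b2`. -/
def sols : List (List Bool) :=
  [[false, false, true, true, false, true, false, false, true, false, false, true],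
   [false, true, false, false, false, false, false, false, true, false, false, true],
   [true, false, true, true, true, false, false, false, false, false, false, false],
   [false, false, false, false, false, false, false, false, false, false, false, false],
   [true, true, false, false, false, false, true, false, false, true, false, true],
   [false, false, false, true, false, true, false, true, false, true, false, true],
   [true, true, false, false, false, false, true, false, false, false, true, true],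
   [false, false, false, true, false, true, false, true, false, false, true, true],
   [false, true, false, false, true, false, false, true, true, true, false, false],
   [false, false, true, false, false, true, true, false, true, true, false, false],
   [false, true, false, false, true, false, false, true, true, false, true, false],
   [false, false, true, false, false, true, true, false, true, false, true, false]]

theorem brute : ∀ l0 l1 l2 l3 l4 l5 l6 l7 b1 : Bool,
    (ex1 (!l1 && !l2) l1 l2 && ex1 (!l1 && !l3) l1 l3 && ex1 (!l3 && !l6) l0 l5 &&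
      ex1 (!l3 && !l6) l3 l6 && ex1 (!l2 && !l7) l2 l7 && ex1 (!l2 && !l7) l4 l5 &&
      ex1 (!l6 && !l7) l6 l7 && ex1 (!(!l1 && !l2) && !l0) (!l1 && !l2) l0 &&
      ex1 (!(!l1 && !l3) && !l4) (!l1 && !l3) l4 &&
      ex1 (!b1 && !(!l6 && !l7)) b1 (!l6 && !l7)) = true →
    [l0, l1, l2, l3, l4, l5, l6, l7, (!(!l1 && !l2) && !l0), b1, (!b1 && !(!l6 && !l7)),
      (!(!l1 && !l3) && !l4)] ∈ sols := by
  decide +kernel

def trB (a b a' b' : Bool) : Bool :=
  (!a && !b && !a' && !b') || (!a && !b && a' && b') || (a && !b && a' && !b') ||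
    (a && !b && !a' && b') || (!a && b && !a' && b') || (a && b && !a' && !b')

def act (s : List Bool) : Bool := s.getD 8 false || s.getD 9 false || s.getD 10 false ||
  s.getD 11 false

theorem sols_tr : ∀ s ∈ sols, trB (s.getD 8 false) (s.getD 9 false) (s.getD 10 false)
    (s.getD 11 false) = true := by
  decide +kernel

theorem sols_act : ∀ s ∈ sols, ∀ t ∈ sols, act s = true → act t = true →
    ∃ k ∈ List.range 12, s.getD k false = true ∧ t.getD k false = true := by
  decide +kernel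

/-- The state of an edge set in the gadget. -/
noncomputable def vec (h : ℕ) (i j : Fin r) (F : Set ((E ⊕ NE h) ⊕ Fin r)) : List Bool :=
  [bl F (LL E h r 0), bl F (LL E h r 1), bl F (LL E h r 2), bl F (LL E h r 3),
    bl F (LL E h r 4), bl F (LL E h r 5), bl F (LL E h r 6), bl F (LL E h r 7),
    bl F (OO E h r 0), bl F (OO E h r 1), bl F (SS E h i), bl F (SS E h j)]

theorem vec_mem {ends : E → Sym2 L} {p : Fin r → L} {i j : Fin r} (hij : i ≠ j)
    {F : Set ((E ⊕ NE h) ⊕ Fin r)} (H : NPM (ins h ends p i j) (insp p i j) F) :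
    vec h i j F ∈ sols := by
  have h0 := v0 H
  have h1 := v1 H
  have h2 := v2 H
  have h3 := v3 hij H
  have h4 := v4 H
  have h5 := v5 H
  have h6 := v6 H
  have h7 := v7 H
  have h8 := v8 H
  have h9 := v9 H
  have y0 := ex1_first h1
  have y1 := ex1_first h2
  have y2 := ex1_first h7
  have y3 := ex1_first h6
  have y4 := ex1_first h9
  rw [y0] at h0 h1
  rw [y1] at h2 h3
  rw [y2] at h5 h7
  rw [y3] at h6 h8
  rw [y4] at h4 h9
  have o0 := ex1_first h0
  have s3 := ex1_first h3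
  have s4 := ex1_first h4
  unfold vec
  rw [o0] at h0 ⊢
  rw [s3] at h3 ⊢
  rw [s4] at h4 ⊢
  have := brute (bl F (LL E h r 0)) (bl F (LL E h r 1)) (bl F (LL E h r 2)) (bl F (LL E h r 3))
    (bl F (LL E h r 4)) (bl F (LL E h r 5)) (bl F (LL E h r 6)) (bl F (LL E h r 7))
    (bl F (OO E h r 1))
  apply this
  simp only [Bool.and_eq_true]
  exact ⟨⟨⟨⟨⟨⟨⟨⟨⟨h1, h2⟩, h5⟩, h7⟩, h6⟩, h8⟩, h9⟩, h0⟩, h3⟩, h4⟩

theorem tr_of {a b a' b' : Bool} (h : trB a b a' b' = true) :
    Tr (a = true) (b = true) (a' = true) (b' = true) := by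
  unfold Tr
  cases a <;> cases b <;> cases a' <;> cases b' <;> simp [trB] at h ⊢

end InsP

open InsP in
theorem I_InsP : StInsP := by
  intro r h L E ends p i j hij F H
  constructor
  · intro v
    obtain ⟨x', ⟨hx'F, hx'v⟩, hun⟩ := H (Sum.inl v)
    obtain ⟨x, hx, hxv⟩ := (inc_old ends p hij v x').1 hx'v
    refine ⟨x, ⟨(mem_pull i j F x).2 (hx ▸ hx'F), hxv⟩, ?_⟩
    rintro y ⟨hyF, hyv⟩
    apply phi_inj (h := h) hij
    rw [hx]
    exact hun _ ⟨(mem_pull i j F y).1 hyF, (inc_old ends p hij v _).2 ⟨y, rfl, hyv⟩⟩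
  · have h1 := tr_of (sols_tr _ (vec_mem hij H))
    have e1 : (bl F (OO E h r 0) = true) ↔ Sum.inr i ∈ pull i j F := by
      rw [mem_pull, OO, bl_single]; simp [phi]
    have e2 : (bl F (OO E h r 1) = true) ↔ Sum.inr j ∈ pull i j F := by
      rw [mem_pull, OO, bl_single]; simp [phi, hij.symm]
    have e3 : (bl F (SS E h i) = true) ↔ Sum.inr i ∈ F := by rw [SS, bl_single]
    have e4 : (bl F (SS E h j) = true) ↔ Sum.inr j ∈ F := by rw [SS, bl_single]
    have h2 : Tr (bl F (OO E h r 0) = true) (bl F (OO E h r 1) = true)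
      (bl F (SS E h i) = true) (bl F (SS E h j) = true) := h1
    rw [propext e1, propext e2, propext e3, propext e4] at h2
    exact h2

open InsP in
theorem I_InsD : StInsD := by
  intro r h L E ends p i j hij F G HF HG hd
  have hd' : ∀ x, x ∈ F → x ∈ G → False := fun x h1 h2 => Set.disjoint_left.1 hd h1 h2
  constructor
  · rw [Set.disjoint_left]
    intro x hx hx'
    rw [mem_pull] at hx hx'
    exact hd' _ hx hx'
  · rintro ⟨hF, hG⟩
    have aux : ∀ F : Set ((E ⊕ NE h) ⊕ Fin r), Act i j F → act (vec h i j F) = true := by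
      intro F hF
      have : act (vec h i j F) = (bl F (OO E h r 0) || bl F (OO E h r 1) || bl F (SS E h i) ||
        bl F (SS E h j)) := rfl
      rw [this]
      simp only [Bool.or_eq_true]
      rcases hF with hF | hF | hF | hF
      · left; left; left
        rw [OO, bl_single]
        rw [mem_pull] at hF
        simpa [phi] using hF
      · left; left; right
        rw [OO, bl_single]
        rw [mem_pull] at hF
        simpa [phi, hij.symm] using hF
      · left; right
        rw [SS, bl_single]; exact hF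
      · right
        rw [SS, bl_single]; exact hF
    obtain ⟨k, hk, h1, h2⟩ := sols_act _ (vec_mem hij HF) _ (vec_mem hij HG) (aux F hF) (aux G hG)
    rw [List.mem_range] at hk
    have key : ∀ X : (E ⊕ NE h) ⊕ Fin r, bl F {X} = true → bl G {X} = true → False := by
      intro X h1 h2
      rw [bl_single] at h1 h2
      exact hd' X h1 h2
    interval_cases k <;> exact key _ h1 h2

end RGraph.KT
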