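import Pool.Agent.Work.MP_426d99_co.KT.St

/-!
# Item Len
-/

open Finset Classical

namespace RGraph.KT

namespace Len

theorem batch_length (K j : ℕ) (hK : 1 ≤ K) (i : ℕ) :
    (batch K j i).length = (i + K - 1 - j % K) / K := by
  have hc : j % K < K := Nat.mod_lt _ hK
  induction i with
  | zero =>
    have h1 : (0 + K - 1 - j % K) / K = 0 := Nat.div_eq_of_lt (by omega)
    rw [h1]
    rfl
  | succ i ih =>
    have h1 : i + 1 + K - 1 - j % K = (i + K - 1 - j % K) + 1 := by omega
    rw [h1, Nat.succ_div, ← ih]
    have h2 : K ∣ i + K - 1 - j % K + 1 ↔ i % K = j % K := by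
      have h3 : i + K - 1 - j % K + 1 = i + K - j % K := by omega
      rw [h3]
      have h4 : i + K - j % K + j % K = i + K := by omega
      constructor
      · rintro ⟨q, hq⟩
        have h5 : i + K = j % K + K * q := by omega
        have h6 : (i + K) % K = (j % K + K * q) % K := by rw [h5]
        rw [Nat.add_mod_right, Nat.add_mul_mod_self_left, Nat.mod_mod] at h6
        exact h6
      · intro h5
        have h6 : i = K * (i / K) + i % K := (Nat.div_add_mod i K).symm
        refine ⟨i / K + 1, ?_⟩
        rw [Nat.mul_add, Nat.mul_one]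
        omega
    simp only [batch]
    by_cases h7 : i % K = j % K
    · rw [if_pos h7, if_pos (h2.2 h7)]
      rfl
    · rw [if_neg h7, if_neg (fun h => h7 (h2.1 h))]
      rfl

theorem batch_self (K j : ℕ) (hK : 1 ≤ K) : (batch K j j).length = j / K := by
  rw [batch_length K j hK]
  have hc : j % K < K := Nat.mod_lt _ hK
  have h1 : j = K * (j / K) + j % K := (Nat.div_add_mod j K).symm
  have h2 : j + K - 1 - j % K = K * (j / K) + (K - 1) := by omega
  rw [h2, Nat.mul_add_div hK]
  have h3 : (K - 1) / K = 0 := Nat.div_eq_of_lt (by omega)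
  rw [h3, Nat.add_zero]

theorem mem_batch (K j : ℕ) (g : ℕ × ℕ) : ∀ i, g ∈ batch K j i →
    g.1 < i ∧ g.2 = j ∧ g.1 % K = j % K := by
  intro i
  induction i with
  | zero => intro h; simp [batch] at h
  | succ i ih =>
    intro h
    simp only [batch] at h
    by_cases h7 : i % K = j % K
    · rw [if_pos h7] at h
      rcases List.mem_cons.1 h with h | h
      · subst h
        exact ⟨Nat.lt_succ_self _, rfl, h7⟩
      · obtain ⟨a, b, c⟩ := ih h
        exact ⟨by omega, b, c⟩
    · rw [if_neg h7] at h
      obtain ⟨a, b, c⟩ := ih h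
      exact ⟨by omega, b, c⟩

end Len

open Len in
theorem I_Len : StLen := by
  refine ⟨?_, ?_, ?_, ?_, ?_⟩
  · intro K r hK
    induction r with
    | zero => rfl
    | succ r ih =>
      rw [Finset.sum_range_succ, ← ih, ← batch_self K r hK]
      simp only [colex, List.length_append]
      omega
  · intro r
    simp only [Nat.div_one]
    exact Finset.sum_range_id r
  · intro r
    induction r with
    | zero => rfl
    | succ r ih =>
      rw [Finset.sum_range_succ, ih]
      rcases Nat.eq_zero_or_pos r with h | h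
      · subst h; rfl
      · obtain ⟨s, rfl⟩ : ∃ s, r = s + 1 := ⟨r - 1, by omega⟩
        simp only [Nat.add_sub_cancel]
        rcases Nat.even_or_odd' s with ⟨t, rfl | rfl⟩
        · have h1 : (2 * t) ^ 2 = 4 * t ^ 2 := by ring
          have h2 : (2 * t + 1) ^ 2 = 4 * (t ^ 2 + t) + 1 := by ring
          rw [h1, h2]
          omega
        · have h1 : (2 * t + 1) ^ 2 = 4 * (t ^ 2 + t) + 1 := by ring
          have h2 : (2 * t + 1 + 1) ^ 2 = 4 * (t ^ 2 + 2 * t + 1) := by ring
          rw [h1, h2]
          omega
  · intro K r hK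
    have h1 : K * ∑ j ∈ Finset.range r, j / K ≤ ∑ j ∈ Finset.range r, j := by
      rw [Finset.mul_sum]
      exact Finset.sum_le_sum fun j _ => Nat.mul_div_le j K
    have h2 := Finset.sum_range_id_mul_two r
    have h3 : r * (r - 1) ≤ r * r := Nat.mul_le_mul_left _ (Nat.sub_le _ _)
    calc 2 * K * ∑ j ∈ Finset.range r, j / K = (K * ∑ j ∈ Finset.range r, j / K) * 2 := by ring
      _ ≤ (∑ j ∈ Finset.range r, j) * 2 := Nat.mul_le_mul_right _ h1
      _ = r * (r - 1) := h2
      _ ≤ r * r := h3
  · intro K r hK g hg
    induction r with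
    | zero => simp [colex] at hg
    | succ r ih =>
      simp only [colex, List.mem_append] at hg
      rcases hg with hg | hg
      · obtain ⟨a, b, c⟩ := mem_batch K r g r hg
        rw [b]
        exact ⟨a, Nat.lt_succ_self _, c⟩
      · obtain ⟨a, b, c⟩ := ih hg
        exact ⟨a, by omega, c⟩

end RGraph.KT
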