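import Pool.Agent.Work.MP_426d99_co.KT.St

/-!
# An `r`-graph with `π = k` of order `2 + 10 Σ_{j < r} ⌊j / k⌋`
-/

open Finset Classical

namespace RGraph.KT

namespace Order

theorem root_mem {L E : Type} {r : ℕ} (ends : E → Sym2 L) (p : Fin r → L) (e : E ⊕ Fin r) :
    none ∈ cl ends p e ↔ ∃ m : Fin r, e = Sum.inr m := by
  rcases e with e | m
  · constructor
    · intro h
      obtain ⟨a, _, ha⟩ := Sym2.mem_map.1 h
      exact absurd ha (by simp)
    · rintro ⟨m, hm⟩
      exact absurd hm (by simp)
  · constructor
    · intro _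
      exact ⟨m, rfl⟩
    · intro _
      exact Sym2.mem_iff.2 (Or.inr rfl)

end Order

open _root_.RGraph.KT.Order in
theorem I_Order (h1 : StColex) (h2 : StLen) (h3 : StPole) : StOrder := by
  intro r k hk hkr
  obtain ⟨hlen, -, -, -, hmem⟩ := h2
  have hr : r = (r - 2) + 2 := by omega
  have hr1 : 1 ≤ r - 2 := by omega
  obtain ⟨L, E, hL, hE, ends, p, hR, hcard, hreach, hfam, hpar⟩ :=
    h3 r (r - 2) hr hr1 (colex k r) (fun g hg => by
      have := hmem k r hk g hg
      exact ⟨by omega, by omega, by omega⟩)
  refine ⟨Option L, E ⊕ Fin r, inferInstance, inferInstance, cl ends p, hR, ?_, ?_, ?_⟩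
  · rw [piEq_iff]
    constructor
    · -- `k` disjoint perfect matchings
      set S : Finset (Fin r) := univ.filter (fun s => s.1 < k) with hS
      have hScard : S.card ≤ r - 2 := by
        have hk2 : S.card ≤ (Finset.range k).card := by
          apply Finset.card_le_card_of_injOn (fun s : Fin r => s.1)
          · intro s hs
            have := (Finset.mem_filter.1 (Finset.mem_coe.1 hs)).2
            exact Finset.mem_coe.2 (Finset.mem_range.2 this)
          · intro s _ t _ hst
            exact Fin.ext hst
        rw [Finset.card_range] at hk2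
        omega
      obtain ⟨F, hF1, hF2⟩ := hfam S hScard (by
        intro g hg s hs t ht hgst
        have hg' := hmem k r hk g hg
        have ht' := (Finset.mem_filter.1 ht).2
        have e1 : g.1 % k = g.1 := Nat.mod_eq_of_lt (by omega)
        have e2 : g.2 % k = g.2 := Nat.mod_eq_of_lt (by omega)
        omega)
      have hin : ∀ i : Fin k, (⟨i.1, by omega⟩ : Fin r) ∈ S := fun i =>
        Finset.mem_filter.2 ⟨Finset.mem_univ _, i.2⟩
      refine ⟨fun i => F ⟨i.1, by omega⟩, ?_, ?_⟩
      · intro i v
        obtain ⟨hnpm, hst⟩ := hF1 _ (hin i)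
        rcases v with _ | v
        · refine ⟨Sum.inr ⟨i.1, by omega⟩, ⟨(hst _).2 rfl, (root_mem ends p _).2 ⟨_, rfl⟩⟩, ?_⟩
          rintro e ⟨he1, he2⟩
          obtain ⟨m, rfl⟩ := (root_mem ends p e).1 he2
          rw [(hst m).1 he1]
        · exact hnpm v
      · intro i j hij
        refine hF2 _ (hin i) _ (hin j) ?_
        intro he
        apply hij
        have := congrArg Fin.val he
        exact Fin.ext this
    · -- not `k + 1`
      rintro ⟨F, hF1, hF2⟩
      have hroot : ∀ i, ∃ m : Fin r, Sum.inr m ∈ F i ∧ ∀ m', Sum.inr m' ∈ F i → m' = m := by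
        intro i
        obtain ⟨e, ⟨he1, he2⟩, hu⟩ := hF1 i none
        obtain ⟨m, rfl⟩ := (root_mem ends p e).1 he2
        refine ⟨m, he1, fun m' hm' => ?_⟩
        have := hu (Sum.inr m') ⟨hm', (root_mem ends p _).2 ⟨_, rfl⟩⟩
        exact Sum.inr.inj this
      choose m hm1 hm2 using hroot
      obtain ⟨i, j, hij, hmod⟩ : ∃ i j : Fin (k + 1), i ≠ j ∧ (m i).1 % k = (m j).1 % k := by
        have hlt : Fintype.card (Fin k) < Fintype.card (Fin (k + 1)) := by simp
        obtain ⟨i, j, hne, he⟩ := Fintype.exists_ne_map_eq_of_card_lt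
          (fun i : Fin (k + 1) => (⟨(m i).1 % k, Nat.mod_lt _ hk⟩ : Fin k)) hlt
        exact ⟨i, j, hne, congrArg Fin.val he⟩
      have htr : ∀ i, tr (F i) = {(m i).1} := by
        intro i
        ext n
        unfold tr
        rw [Finset.mem_filter, Finset.mem_range, Finset.mem_singleton]
        constructor
        · rintro ⟨_, hn, hn2⟩
          have := hm2 i _ hn2
          rw [← this]
        · intro hn
          subst hn
          exact ⟨(m i).2, (m i).2, hm1 i⟩
      have hodd : ∀ i c, (m i).1 % k = c →
          Odd ((Finset.range r).filter (fun n => n % k = c ∧ n ∈ tr (F i))).card := by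
        intro i c hc
        have : (Finset.range r).filter (fun n => n % k = c ∧ n ∈ tr (F i)) = {(m i).1} := by
          ext n
          rw [Finset.mem_filter, Finset.mem_range, htr i, Finset.mem_singleton]
          constructor
          · rintro ⟨_, _, h⟩
            exact h
          · intro h
            subst h
            exact ⟨(m i).2, hc, rfl⟩
        rw [this, Finset.card_singleton]
        exact odd_one
      exact h1 k r hk _ _ (hreach (F i) (F j) (fun v => hF1 i (some v))
        (fun v => hF1 j (some v)) (hF2 i j hij)) ((m j).1 % k) ⟨hodd i _ hmod, hodd j _ rfl⟩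
  · rw [Finite.card_option, hcard, hlen k r hk]
    omega
  · intro hr4
    refine hpar ?_ (by omega)
    intro h0
    have h4 := hlen k r hk
    rw [h0] at h4
    have h5 : k / k ≤ ∑ j ∈ Finset.range r, j / k :=
      Finset.single_le_sum (f := fun j => j / k) (fun _ _ => Nat.zero_le _)
        (Finset.mem_range.2 (by omega))
    rw [Nat.div_self hk] at h5
    simp only [List.length_nil] at h4
    omega

end RGraph.KT
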