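import Pool.Agent.Work.MP_426d99_co.KT.St

/-!
# The pole of a list of gadgets
-/

open Finset Classical

namespace RGraph.KT

namespace Pole

theorem mem_tr {E : Type} {r : ℕ} (F : Set (E ⊕ Fin r)) (k : Fin r) :
    k.1 ∈ tr F ↔ Sum.inr k ∈ F := by
  unfold tr
  rw [Finset.mem_filter, Finset.mem_range]
  constructor
  · rintro ⟨_, _, h⟩
    exact h
  · intro h
    exact ⟨k.2, k.2, h⟩

theorem lt_of_mem_tr {E : Type} {r k : ℕ} {F : Set (E ⊕ Fin r)} (h : k ∈ tr F) : k < r := by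
  unfold tr at h
  rw [Finset.mem_filter, Finset.mem_range] at h
  exact h.1

theorem disjoint_tr {E : Type} {r : ℕ} {F G : Set (E ⊕ Fin r)} (h : Disjoint F G) :
    Disjoint (tr F) (tr G) := by
  rw [Finset.disjoint_left]
  intro k h1 h2
  have hk := lt_of_mem_tr h1
  have h3 := (mem_tr F ⟨k, hk⟩).1 h1
  have h4 := (mem_tr G ⟨k, hk⟩).1 h2
  exact Set.disjoint_left.1 h h3 h4

theorem mem_tr_pull {E : Type} {r h : ℕ} {i j : Fin r} (F : Set ((E ⊕ NE h) ⊕ Fin r)) {k : ℕ}
    (hi : k ≠ i.1) (hj : k ≠ j.1) : k ∈ tr F ↔ k ∈ tr (pull i j F) := by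
  by_cases hk : k < r
  · have e1 := mem_tr F ⟨k, hk⟩
    have e2 := mem_tr (pull i j F) ⟨k, hk⟩
    have hi' : (⟨k, hk⟩ : Fin r) ≠ i := fun hh => hi (congrArg Fin.val hh)
    have hj' : (⟨k, hk⟩ : Fin r) ≠ j := fun hh => hj (congrArg Fin.val hh)
    have e3 : Sum.inr (⟨k, hk⟩ : Fin r) ∈ pull i j F ↔ Sum.inr (⟨k, hk⟩ : Fin r) ∈ F := by
      unfold pull
      simp only [Set.mem_ofPred_eq, if_neg hi', if_neg hj']
    exact e1.trans (e3.symm.trans e2.symm)
  · constructor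
    · intro hh
      exact absurd (lt_of_mem_tr hh) hk
    · intro hh
      exact absurd (lt_of_mem_tr hh) hk

/-- The closure of the trivial pole. -/
theorem base_graph (r : ℕ) :
    IsRGraph r (cl (Empty.elim : Empty → Sym2 Unit) (fun _ : Fin r => ())) := by
  have hcl : ∀ x : Empty ⊕ Fin r, cl (Empty.elim : Empty → Sym2 Unit) (fun _ : Fin r => ()) x =
      s(some (), none) := by
    rintro (e | k)
    · exact e.elim
    · rfl
  have hb : ∀ X : Set (Option Unit), ¬ (some () ∈ X ↔ none ∈ X) →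
      (boundary (cl (Empty.elim : Empty → Sym2 Unit) (fun _ : Fin r => ())) X).ncard = r := by
    intro X hX
    have h1 : boundary (cl (Empty.elim : Empty → Sym2 Unit) (fun _ : Fin r => ())) X =
        Set.univ := by
      ext x
      rw [mem_boundary (hcl x)]
      simp only [hX, not_false_eq_true, Set.mem_univ]
    rw [h1, Set.ncard_univ, Nat.card_sum]
    simp
  refine ⟨?_, ?_, ?_⟩
  · intro x
    rw [hcl x]
    simp
  · intro v
    refine hb _ ?_
    rcases v with _ | v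
    · simp
    · simp
  · intro X hX
    refine (hb X ?_).ge
    intro hiff
    by_cases h1 : some () ∈ X
    · have : X = Set.univ := by
        ext x
        rcases x with _ | x
        · simp [hiff.1 h1]
        · simp [h1]
      rw [this, Set.ncard_univ] at hX
      simp at hX
      exact absurd hX (by decide)
    · have h2 : none ∉ X := fun hh => h1 (hiff.2 hh)
      have : X = ∅ := by
        ext x
        rcases x with _ | x
        · simp [h2]
        · simp [h1]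
      rw [this, Set.ncard_empty] at hX
      exact absurd hX (by decide)

theorem base_fam (r : ℕ) (K : Finset (Fin r)) :
    Fam (Empty.elim : Empty → Sym2 Unit) (fun _ : Fin r => ()) K
      (fun s => {(Sum.inr s : Empty ⊕ Fin r)}) := by
  refine ⟨?_, ?_⟩
  · intro s _
    refine ⟨?_, ?_⟩
    · intro v
      refine ⟨Sum.inr s, ⟨Set.mem_singleton _, ?_⟩, ?_⟩
      · show some v ∈ s(some (), none)
        simp
      · intro x hx
        exact hx.1
    · intro k
      rw [Set.mem_singleton_iff]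
      constructor
      · intro hh
        exact Sum.inr.inj hh
      · rintro rfl
        rfl
  · intro s _ t _ hst
    rw [Set.disjoint_singleton]
    intro hh
    exact hst (Sum.inr.inj hh)

end Pole

theorem I_Pole (h1 : StInsR) (h2 : StInsP) (h3 : StInsD) (h4 : StFam) : StPole := by
  intro r h hr hh l
  induction l with
  | nil =>
    intro _
    refine ⟨Unit, Empty, inferInstance, inferInstance, Empty.elim, fun _ => (),
      Pole.base_graph r, ?_, ?_, ?_, ?_⟩
    · simp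
    · intro F G _ _ hFG
      exact Pole.disjoint_tr hFG
    · intro K _ _
      exact ⟨_, Pole.base_fam r K⟩
    · intro hne
      exact absurd rfl hne
  | cons g l ih =>
    intro hl
    obtain ⟨hg1, hg2, hg3⟩ := hl g (List.mem_cons_self)
    obtain ⟨L, E, hL, hE, ends, p, hR, hcard, hreach, hfam, _⟩ :=
      ih (fun g' hg' => hl g' (List.mem_cons_of_mem _ hg'))
    have hij : (⟨g.1, hg1⟩ : Fin r) ≠ ⟨g.2, hg2⟩ := fun hh' => hg3 (congrArg Fin.val hh')
    refine ⟨L ⊕ Fin 10, E ⊕ NE h, inferInstance, inferInstance,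
      ins h ends p ⟨g.1, hg1⟩ ⟨g.2, hg2⟩, insp p ⟨g.1, hg1⟩ ⟨g.2, hg2⟩, ?_, ?_, ?_, ?_, ?_⟩
    · exact h1 r h hr hh L E ends p _ _ hij hR
    · rw [Nat.card_sum, hcard, List.length_cons]
      simp
      ring
    · intro F G hF hG hFG
      have a1 := h2 r h L E ends p _ _ hij F hF
      have a2 := h2 r h L E ends p _ _ hij G hG
      have a3 := h3 r h L E ends p _ _ hij F G hF hG hFG
      refine ⟨Pole.disjoint_tr hFG, tr (pull ⟨g.1, hg1⟩ ⟨g.2, hg2⟩ F),
        tr (pull ⟨g.1, hg1⟩ ⟨g.2, hg2⟩ G), hreach _ _ a1.1 a2.1 a3.1, ?_, ?_, ?_, ?_⟩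
      · have e1 := propext (Pole.mem_tr (pull ⟨g.1, hg1⟩ ⟨g.2, hg2⟩ F) ⟨g.1, hg1⟩)
        have e2 := propext (Pole.mem_tr (pull ⟨g.1, hg1⟩ ⟨g.2, hg2⟩ F) ⟨g.2, hg2⟩)
        have e3 := propext (Pole.mem_tr F ⟨g.1, hg1⟩)
        have e4 := propext (Pole.mem_tr F ⟨g.2, hg2⟩)
        simp only at e1 e2 e3 e4
        rw [e1, e2, e3, e4]
        exact a1.2
      · have e1 := propext (Pole.mem_tr (pull ⟨g.1, hg1⟩ ⟨g.2, hg2⟩ G) ⟨g.1, hg1⟩)
        have e2 := propext (Pole.mem_tr (pull ⟨g.1, hg1⟩ ⟨g.2, hg2⟩ G) ⟨g.2, hg2⟩)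
        have e3 := propext (Pole.mem_tr G ⟨g.1, hg1⟩)
        have e4 := propext (Pole.mem_tr G ⟨g.2, hg2⟩)
        simp only at e1 e2 e3 e4
        rw [e1, e2, e3, e4]
        exact a2.2
      · intro k hk1 hk2
        exact ⟨Pole.mem_tr_pull F hk1 hk2, Pole.mem_tr_pull G hk1 hk2⟩
      · rintro ⟨b1, b2⟩
        refine a3.2 ⟨?_, ?_⟩
        · rcases b1 with b | b | b | b
          · exact Or.inl ((Pole.mem_tr _ ⟨g.1, hg1⟩).1 b)
          · exact Or.inr (Or.inl ((Pole.mem_tr _ ⟨g.2, hg2⟩).1 b))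
          · exact Or.inr (Or.inr (Or.inl ((Pole.mem_tr _ ⟨g.1, hg1⟩).1 b)))
          · exact Or.inr (Or.inr (Or.inr ((Pole.mem_tr _ ⟨g.2, hg2⟩).1 b)))
        · rcases b2 with b | b | b | b
          · exact Or.inl ((Pole.mem_tr _ ⟨g.1, hg1⟩).1 b)
          · exact Or.inr (Or.inl ((Pole.mem_tr _ ⟨g.2, hg2⟩).1 b))
          · exact Or.inr (Or.inr (Or.inl ((Pole.mem_tr _ ⟨g.1, hg1⟩).1 b)))
          · exact Or.inr (Or.inr (Or.inr ((Pole.mem_tr _ ⟨g.2, hg2⟩).1 b)))
    · intro K hK hKl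
      obtain ⟨F, hF⟩ := hfam K hK (fun g' hg' => hKl g' (List.mem_cons_of_mem _ hg'))
      exact h4 r h L E ends p _ _ hij K hK
        (fun hh' => hKl g (List.mem_cons_self) _ hh'.1 _ hh'.2 ⟨rfl, rfl⟩) F hF
    · intro _ hh2
      refine ⟨Sum.inl (Sum.inr (Sum.inr (Sum.inr (0, ⟨0, by omega⟩)))),
        Sum.inl (Sum.inr (Sum.inr (Sum.inr (0, ⟨1, by omega⟩)))), ?_, rfl⟩
      intro heq
      simp at heq

end RGraph.KT
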