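import Pool.Agent.Work.MP_426d99_co.KT.P_InsR
import Pool.Agent.Work.MP_426d99_co.KT.P_InsP
import Pool.Agent.Work.MP_426d99_co.KT.P_Fam
import Pool.Agent.Work.MP_426d99_co.KT.P_Colex
import Pool.Agent.Work.MP_426d99_co.KT.P_Len
import Pool.Agent.Work.MP_426d99_co.KT.P_Pole
import Pool.Agent.Work.MP_426d99_co.KT.P_Order

namespace RGraph.KT

theorem order_all : StOrder :=
  I_Order I_Colex I_Len (I_Pole I_InsR I_InsP I_InsD I_Fam)

end RGraph.KT
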