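import Pool.Agent.Work.MP_426d99_co.KT.St2

/-!
# (BOUND) if the value 2 is skipped at order `n`, then `n` is large
-/

open Finset Classical

namespace RGraph.KT.Bound

/-- The complement of a nontrivial tight set is a nontrivial tight set. -/
theorem tightS_compl {V : Type} [Fintype V] {G : SimpleGraph V} {r : ℕ} {X : Finset V}
    (hV : Even (Fintype.card V)) (h : TightS G r X) : TightS G r Xᶜ := by
  obtain ⟨h1, h2, h3, h4⟩ := h
  have hc : Xᶜ.card = Fintype.card V - X.card := Finset.card_compl X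
  refine ⟨?_, ?_, ?_, ?_⟩
  · rw [hc]
    obtain ⟨a, ha⟩ := h1
    obtain ⟨b, hb⟩ := hV
    refine ⟨b - a - 1, ?_⟩
    omega
  · rw [compl_compl, ee_symm, h2]
  · rw [hc]; omega
  · rw [hc]; omega

/-- Below a nontrivial tight set there is a minimal one. -/
theorem exists_minTight {V : Type} [Fintype V] {G : SimpleGraph V} {r : ℕ} {X : Finset V}
    (h : TightS G r X) : ∃ Y, Y ⊆ X ∧ MinTight G r Y := by
  induction X using Finset.strongInduction with
  | H X ih =>
    by_cases hX : ∃ Y, Y ⊂ X ∧ TightS G r Y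
    · obtain ⟨Y, hYX, hY⟩ := hX
      obtain ⟨Z, hZ, hZm⟩ := ih Y hYX hY
      exact ⟨Z, hZ.trans hYX.1, hZm⟩
    · exact ⟨X, Finset.Subset.refl X, h, fun Y hY hT => hX ⟨Y, hY, hT⟩⟩

end RGraph.KT.Bound

namespace RGraph.KT

/-- (BOUND) from the other statements. -/
theorem I_Bound (h1 : StSimple) (h2 : StBridge) (h3 : StContr) (h4 : StC34) (h5 : StTight)
    (h6 : StCells) (h7 : StNum) : StBound := by
  intro r n hr hJ hM V E _ _ ends hG hn hno
  obtain ⟨d, rfl⟩ : ∃ d, r = d + 1 := ⟨r - 1, by omega⟩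
  have hd : 4 ≤ d := by omega
  rw [Nat.add_sub_cancel]
  have hinj : Function.Injective ends :=
    h1 (d + 1) n (by omega) hJ hM V E ends hG (by rw [Nat.card_eq_fintype_card]; exact hn) hno
  obtain ⟨hReg, hOdd, hEven, hbd, hTwo⟩ := h2 V E ends (d + 1) (by omega) hG hinj
  have hnt : ¬ TwoPM (gr ends) := fun h => hno (hTwo h)
  by_cases hT : ∃ Y, TightS (gr ends) (d + 1) Y
  · obtain ⟨X0, hX0⟩ := hT
    have key : ∀ X : Finset V, MinTight (gr ends) (d + 1) X → 2 * d ^ 2 ≤ X.card + 4 := by
      intro X hX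
      have hc : C34free (gr ends) X :=
        h4 (d + 1) n hr hJ hM V E ends hG hn hno X (Or.inl hX)
      have hb : (boundary ends (X : Set V)).ncard = d + 1 := by
        rw [← hbd X]; exact hX.1.2.1
      have ho : OutPair (gr ends) X :=
        h3 (d + 1) n (by omega) hM V E ends hG hinj hn X hX.1.1 hX.1.2.2.1 hb
      exact h5 V (gr ends) d X hd hReg hOdd hnt hX hc ho
    obtain ⟨X, hXX, hXm⟩ := Bound.exists_minTight hX0
    obtain ⟨X', hXX', hXm'⟩ := Bound.exists_minTight (Bound.tightS_compl hEven hX0)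
    have hk := key X hXm
    have hk' := key X' hXm'
    have hle : X.card ≤ X0.card := Finset.card_le_card hXX
    have hle' : X'.card ≤ X0ᶜ.card := Finset.card_le_card hXX'
    have hsum : X0.card + X0ᶜ.card = Fintype.card V := Finset.card_add_card_compl X0
    exact h7.2.2.2.1 d n hd (by omega)
  · have hc : C34free (gr ends) univ :=
      h4 (d + 1) n hr hJ hM V E ends hG hn hno univ (Or.inr ⟨rfl, hT⟩)
    have hne : Nonempty V := by
      by_contra hV
      rw [not_nonempty_iff] at hV
      exact hnt ⟨fun v => v, fun v => v, fun v => (hV.false v).elim, fun v => (hV.false v).elim,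
        fun v => (hV.false v).elim⟩
    rw [← hn]
    exact h6 V (gr ends) d hd hReg hOdd hne hEven hnt hc

end RGraph.KT
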