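import Pool.Agent.Work.MP_426d99_co.KT.St2

/-!
# From the multigraph to the simple graph
-/

open Finset Classical

namespace RGraph.KT

namespace Bridge

variable {V E : Type}

theorem ee_boundary [Fintype V] {ends : E → Sym2 V} (hinj : Function.Injective ends)
    (X : Finset V) : ee (gr ends) X Xᶜ = (boundary ends (X : Set V)).ncard := by
  unfold ee
  rw [← Set.ncard_coe_finset]
  have hmem : ∀ q : V × V, q ∈ ((((X ×ˢ Xᶜ).filter
      (fun q => (gr ends).Adj q.1 q.2) : Finset (V × V)) : Set (V × V))) ↔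
      q.1 ∈ X ∧ q.2 ∉ X ∧ (gr ends).Adj q.1 q.2 := by
    intro q
    rw [Finset.mem_coe, Finset.mem_filter, Finset.mem_product, Finset.mem_compl, and_assoc]
  refine Set.ncard_congr (fun q hq => Classical.choose ((hmem q).1 hq).2.2.2) ?_ ?_ ?_
  · intro q hq
    have h1 := (hmem q).1 hq
    exact ⟨q.1, Finset.mem_coe.2 h1.1, q.2, fun h => h1.2.1 (Finset.mem_coe.1 h),
      Classical.choose_spec h1.2.2.2⟩
  · intro q q' hq hq' he
    have h1 := (hmem q).1 hq
    have h2 := (hmem q').1 hq'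
    have e1 := Classical.choose_spec h1.2.2.2
    have e2 := Classical.choose_spec h2.2.2.2
    have e3 : s(q.1, q.2) = s(q'.1, q'.2) := by
      rw [← e1, ← e2]
      exact congrArg ends he
    rcases Sym2.eq_iff.1 e3 with ⟨h3, h4⟩ | ⟨h3, h4⟩
    · exact Prod.ext h3 h4
    · exact absurd (h3 ▸ h1.1) h2.2.1
  · intro e he
    obtain ⟨x, hx, y, hy, h⟩ := he
    have hxy : x ≠ y := by
      rintro rfl
      exact hy hx
    have hq : ((x, y) : V × V) ∈ ((((X ×ˢ Xᶜ).filter
        (fun q => (gr ends).Adj q.1 q.2) : Finset (V × V)) : Set (V × V))) :=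
      (hmem (x, y)).2 ⟨Finset.mem_coe.1 hx, fun h' => hy (Finset.mem_coe.2 h'), hxy, e, h⟩
    refine ⟨(x, y), hq, ?_⟩
    apply hinj
    rw [h]
    exact Classical.choose_spec ((hmem (x, y)).1 hq).2.2.2

theorem isPM [Fintype V] {ends : E → Sym2 V} (hinj : Function.Injective ends) {σ : V → V}
    (h : PMon (gr ends) univ σ) : IsPM ends {e | ∃ v, ends e = s(v, σ v)} := by
  intro v
  obtain ⟨-, hadj, hinv⟩ := h v (Finset.mem_univ v)
  obtain ⟨-, e, he⟩ := hadj
  refine ⟨e, ⟨⟨v, he⟩, ?_⟩, ?_⟩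
  · show v ∈ ends e
    rw [he]
    exact Sym2.mem_mk_left _ _
  · rintro e' ⟨⟨u, hu⟩, hv⟩
    apply hinj
    rw [he]
    change v ∈ ends e' at hv
    rw [hu] at hv ⊢
    rcases Sym2.mem_iff.1 hv with rfl | rfl
    · rfl
    · rw [(h u (Finset.mem_univ u)).2.2]
      exact Sym2.eq_swap

end Bridge

open Bridge in
theorem I_Bridge : StBridge := by
  intro V E _ _ ends r hr h hinj
  refine ⟨?_, ?_, ?_, ee_boundary hinj, ?_⟩
  · intro v
    rw [← ee_compl_add (gr ends) {v} {v}, ee_boundary hinj]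
    have h0 : ee (gr ends) {v} {v} = 0 := by
      rw [ee_eq_zero_iff]
      intro a ha b hb hab
      rw [Finset.mem_singleton] at ha hb
      exact hab.1 (ha.trans hb.symm)
    rw [h0, Finset.coe_singleton, h.regular v, Nat.zero_add]
  · intro Z hZ
    rw [ee_boundary hinj]
    exact h.odd _ (by rwa [Set.ncard_coe_finset])
  · rw [← Nat.card_eq_fintype_card]
    exact even_card hr h
  · rintro ⟨σ, τ, hσ, hτ, hne⟩
    refine ⟨![{e | ∃ v, ends e = s(v, σ v)}, {e | ∃ v, ends e = s(v, τ v)}], ?_, ?_⟩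
    · intro i
      fin_cases i
      · exact isPM hinj hσ
      · exact isPM hinj hτ
    · have hd : Disjoint {e | ∃ v, ends e = s(v, σ v)} {e | ∃ v, ends e = s(v, τ v)} := by
        rw [Set.disjoint_left]
        rintro e ⟨u, hu⟩ ⟨v, hv⟩
        rw [hu] at hv
        rcases Sym2.eq_iff.1 hv with ⟨h1, h2⟩ | ⟨h1, h2⟩
        · subst h1
          exact hne u h2
        · apply hne u
          rw [h2, h1, (hτ v (Finset.mem_univ v)).2.2]
      intro i j hij
      fin_cases i <;> fin_cases j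
      · exact absurd rfl hij
      · exact hd
      · exact hd.symm
      · exact absurd rfl hij

end RGraph.KT
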