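import Pool.Agent.Work.MP_426d99_co.KT.St2

/-!
# (C34): no triangles and 4-cycles in a minimal tight set (helper98)
-/

open Finset Classical

namespace RGraph.KT

namespace C34

/-- The switched graph has three disjoint perfect matchings. -/
theorem fact (h1 : StSimple) (h5 : StReg) {r n : ℕ} (hr : 5 ≤ r) (hJ : Jump r n)
    (hM : MinLow r n) {V E : Type} [Fintype V] [Finite E] {ends : E → Sym2 V}
    (hG : IsRGraph r ends) (hn : Fintype.card V = n) (hinj : Function.Injective ends)
    {X : Finset V}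
    (hX : MinTight (gr ends) r X ∨ (X = univ ∧ ¬ ∃ Y, TightS (gr ends) r Y))
    {e₁ e₂ e₃ : E} {a b c d : V} (ha : a ∈ X) (hb : b ∈ X) (hc : c ∈ X) (hd : d ∈ X)
    (he1 : ends e₁ = s(a, b)) (he2 : ends e₂ = s(c, d)) (he3 : ends e₃ = s(a, c))
    (hac : a ≠ c) (had : a ≠ d) (hbc : b ≠ c) (hbd : b ≠ d) :
    HasPMs (sw ends e₁ e₂ a b c d) 3 := by
  have hn' : Nat.card V = n := by rw [Nat.card_eq_fintype_card]; exact hn
  have hsw : IsRGraph r (sw ends e₁ e₂ a b c d) :=
    sw_isRGraph (by omega) hG he1 he2 hac hbc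
      (h5 V E ends r (by omega) hG hinj X hX a ha b hb c hc d hd hac hbd)
  have hcd : c ≠ d := ne_of_ends hG he2
  have hne12 : e₁ ≠ e₂ := by
    rintro rfl
    rw [he1] at he2
    rcases Sym2.eq_iff.1 he2 with ⟨h, -⟩ | ⟨h, -⟩
    · exact hac h
    · exact had h
  have hne31 : e₃ ≠ e₁ := by
    rintro rfl
    rw [he1] at he3
    rcases Sym2.eq_iff.1 he3 with ⟨-, h⟩ | ⟨h, -⟩
    · exact hbc h
    · exact hac h
  have hne32 : e₃ ≠ e₂ := by
    rintro rfl
    rw [he2] at he3
    rcases Sym2.eq_iff.1 he3 with ⟨h, -⟩ | ⟨-, h⟩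
    · exact hac h.symm
    · exact had h.symm
  have h2 : HasPMs (sw ends e₁ e₂ a b c d) 2 := by
    by_contra hcon
    have hi := h1 r n (by omega) hJ hM V E _ hsw hn' hcon
    refine hne31 (hi ?_)
    rw [sw_one hne12, sw_other hne31 hne32]
    exact he3
  exact hJ V E _ hsw hn' h2

/-- A vertex of `X` with only two possible neighbours in `X` has many neighbours outside. -/
theorem out_ge {V : Type} [Fintype V] {G : SimpleGraph V} {r : ℕ} (hR : Reg G r) {X : Finset V}
    {a b c : V} (h : ∀ y ∈ X, G.Adj a y → y = b ∨ y = c) : r ≤ ee G {a} Xᶜ + 2 := by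
  have h1 := ee_compl_add G {a} X
  rw [hR a] at h1
  have h2 : ee G {a} X ≤ 2 := by
    rw [ee_single]
    refine (card_le_card (t := {b, c}) ?_).trans card_le_two
    intro y hy
    rw [mem_filter] at hy
    rw [mem_insert, mem_singleton]
    exact h y hy.1 hy.2
  omega

end C34

open C34

theorem I_C34 (h1 : StSimple) (h2 : StC4) (h3 : StC3) (h4 : StBridge) (h5 : StReg) : StC34 := by
  intro r n hr hJ hM V E _ _ ends hG hn hno X hX
  have hn' : Nat.card V = n := by rw [Nat.card_eq_fintype_card]; exact hn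
  have hinj : Function.Injective ends := h1 r n (by omega) hJ hM V E ends hG hn' hno
  obtain ⟨hR, -, -, -, -⟩ := h4 V E ends r (by omega) hG hinj
  have tri : ∀ a ∈ X, ∀ b ∈ X, ∀ c ∈ X, ∀ y ∈ X, (gr ends).Adj a b → (gr ends).Adj b c →
      (gr ends).Adj c a → (gr ends).Adj c y → y ≠ a → y ≠ b → False := by
    rintro a ha b hb c hc y hy ⟨nab, e1, he1⟩ ⟨nbc, e5, he5⟩ ⟨nca, e3, he3⟩ ⟨ncy, e2, he2⟩ nya nyb
    rw [Sym2.eq_swap] at he3 he5
    have hF := fact h1 h5 hr hJ hM hG hn hinj hX ha hb hc hy he1 he2 he3 nca.symm nya.symm nbc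
      nyb.symm
    exact hno (h3 V E ends e1 e2 e3 e5 a b c y hG.loopless he1 he2 nab nca.symm nya.symm nbc
      nyb.symm ncy he3 he5 hF)
  constructor
  · intro a ha b hb c hc hab hbc hca
    have ka : ∀ y ∈ X, (gr ends).Adj a y → y = b ∨ y = c := by
      intro y hy hay
      by_contra hcon
      rw [not_or] at hcon
      exact tri b hb c hc a ha y hy hbc hca hab hay hcon.1 hcon.2
    have kb : ∀ y ∈ X, (gr ends).Adj b y → y = c ∨ y = a := by
      intro y hy hay
      by_contra hcon
      rw [not_or] at hcon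
      exact tri c hc a ha b hb y hy hca hab hbc hay hcon.1 hcon.2
    have kc : ∀ y ∈ X, (gr ends).Adj c y → y = a ∨ y = b := by
      intro y hy hay
      by_contra hcon
      rw [not_or] at hcon
      exact tri a ha b hb c hc y hy hab hbc hca hay hcon.1 hcon.2
    have oa := out_ge hR ka
    have ob := out_ge hR kb
    have oc := out_ge hR kc
    rcases hX with hX | ⟨hX, -⟩
    · have hT := hX.1.2.1
      have d1 : Disjoint ({b} : Finset V) {c} := by simpa using hbc.ne
      have d2 : Disjoint ({a} : Finset V) ({b} ∪ {c}) := by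
        rw [disjoint_union_right]
        exact ⟨by simpa using hab.ne, by simpa using hca.ne.symm⟩
      have hsub : ({a} ∪ ({b} ∪ {c}) : Finset V) ⊆ X := by
        intro z hz
        simp only [mem_union, mem_singleton] at hz
        rcases hz with rfl | rfl | rfl
        · exact ha
        · exact hb
        · exact hc
      have hm := ee_mono (gr ends) hsub (Subset.refl Xᶜ)
      rw [ee_union_left _ _ d2, ee_union_left _ _ d1, hT] at hm
      omega
    · subst hX
      rw [compl_univ, ee_empty_right] at oa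
      omega
  · rintro a ha b hb c hc d hd nac nbd ⟨nab, e1, he1⟩ ⟨nbc, e4, he4⟩ ⟨ncd, e2, he2⟩ ⟨nda, e3, he3⟩
    rw [Sym2.eq_swap] at he2 he3
    have hF := fact h1 h5 hr hJ hM hG hn hinj hX ha hb hd hc he1 he2 he3 nda.symm nac nbd nbc
    exact hno (h2 V E ends e1 e2 e3 e4 a b d c he1 he2 nab nda.symm nac nbd nbc ncd.symm he3 he4
      hF)

end RGraph.KT
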