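import Pool.Agent.Work.MP_426d99_co.KT.St2

/-!
# Block KT2, item C4: the 4-cycle
-/

set_option autoImplicit false

open Finset Classical

namespace RGraph.KT

namespace C4

/-- Exchange of one edge of a perfect matching. -/
theorem exch {V E : Type} {f g : E → Sym2 V} {P : Set E} {e e' : E} (hP : IsPM f P) (he : e ∈ P)
    (h1 : g e' = f e) (h2 : ∀ x ∈ P, x ≠ e → f x = g x) : IsPM g (P \ {e} ∪ {e'}) := by
  intro v
  obtain ⟨x, ⟨hx, hv⟩, hu⟩ := hP v
  by_cases hxe : x = e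
  · subst hxe
    refine ⟨e', ⟨Or.inr rfl, by rw [h1]; exact hv⟩, ?_⟩
    rintro y ⟨hy | hy, hvy⟩
    · exfalso
      have h3 := hu y ⟨hy.1, by rw [h2 y hy.1 hy.2]; exact hvy⟩
      exact hy.2 h3
    · exact hy
  · refine ⟨x, ⟨Or.inl ⟨hx, hxe⟩, by rw [← h2 x hx hxe]; exact hv⟩, ?_⟩
    rintro y ⟨hy | hy, hvy⟩
    · exact hu y ⟨hy.1, by rw [h2 y hy.1 hy.2]; exact hvy⟩
    · exfalso
      have hy' : y = e' := hy
      subst hy'
      rw [h1] at hvy
      exact hxe (hu e ⟨he, hvy⟩).symm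

theorem two {V E : Type} {ends : E → Sym2 V} {P Q : Set E} (hP : IsPM ends P) (hQ : IsPM ends Q)
    (h : Disjoint P Q) : HasPMs ends 2 := by
  refine ⟨![P, Q], ?_, ?_⟩
  · intro i
    fin_cases i
    · exact hP
    · exact hQ
  · intro i j hij
    fin_cases i <;> fin_cases j
    · exact absurd rfl hij
    · exact h
    · exact h.symm
    · exact absurd rfl hij

end C4

open C4 in
theorem I_C4 (h : StJumpL) : StC4 := by
  intro V E _ _ ends e₁ e₂ e₃ e₄ a b c d h1 h2 hab hac had hbc hbd hcd h3 h4 hsw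
  by_contra hno
  obtain ⟨P₁, P₂, P₃, hP1, hP2, hP3, d12, d13, d23, n1, n2, m1, m2, hPM⟩ :=
    h V E ends e₁ e₂ a b c d h1 h2 hab hac had hbc hbd hcd hsw hno
  have hne : e₁ ≠ e₂ := by
    rintro rfl
    exact (Set.disjoint_left.1 d23 m1) m2
  have s1 : sw ends e₁ e₂ a b c d e₁ = s(a, c) := sw_one hne
  have s2 : sw ends e₁ e₂ a b c d e₂ = s(b, d) := sw_two
  have q2 : IsPM ends (P₂ \ {e₁} ∪ {e₃}) := by
    refine exch hP2 m1 (by rw [h3, s1]) ?_
    intro x hx hx1
    refine sw_other hx1 ?_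
    rintro rfl
    exact (Set.disjoint_left.1 d23 hx) m2
  have q3 : IsPM ends (P₃ \ {e₂} ∪ {e₄}) := by
    refine exch hP3 m2 (by rw [h4, s2]) ?_
    intro x hx hx1
    refine sw_other ?_ hx1
    rintro rfl
    exact (Set.disjoint_left.1 d23 m1) hx
  have e3 : e₃ ∈ P₁ := by
    by_contra hn
    refine hno (two hPM q2 ?_)
    rw [Set.disjoint_left]
    rintro x hx (hx2 | hx2)
    · exact (Set.disjoint_left.1 d12 hx) hx2.1
    · have : x = e₃ := hx2
      exact hn (this ▸ hx)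
  have e4 : e₄ ∈ P₁ := by
    by_contra hn
    refine hno (two hPM q3 ?_)
    rw [Set.disjoint_left]
    rintro x hx (hx2 | hx2)
    · exact (Set.disjoint_left.1 d13 hx) hx2.1
    · have : x = e₄ := hx2
      exact hn (this ▸ hx)
  have h34 : e₃ ≠ e₄ := by
    rintro rfl
    rw [h3] at h4
    have : a ∈ s(b, d) := by rw [← h4]; exact Sym2.mem_mk_left a c
    rcases Sym2.mem_iff.1 this with h5 | h5
    · exact hab h5
    · exact had h5
  refine hno (two q2 q3 ?_)
  rw [Set.disjoint_left]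
  rintro x (hx | hx) (hx2 | hx2)
  · exact (Set.disjoint_left.1 d23 hx.1) hx2.1
  · have : x = e₄ := hx2
    subst this
    exact (Set.disjoint_left.1 d12 e4) hx.1
  · have : x = e₃ := hx
    subst this
    exact (Set.disjoint_left.1 d13 e3) hx2.1
  · have a1 : x = e₃ := hx
    have a2 : x = e₄ := hx2
    exact h34 (a1.symm.trans a2)

end RGraph.KT
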