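import Pool.Agent.Work.MP_426d99_co.KT.St2

/-!
# The case without nontrivial tight sets
-/

open Finset Classical

namespace RGraph.KT

namespace Cells

variable {V : Type} [Fintype V]

/-- A nonempty set such that every vertex has few neighbours outside is large. -/
theorem cell (h3 : StMoore) (h4 : StNum) {G : SimpleGraph V} {d k : ℕ} (hk : k ≤ d)
    (hR : Reg G (d + 1)) (hC : C34free G univ) {Z : Finset V} (hZ : Z.Nonempty)
    (f : V → Finset V) (hf : ∀ x, (f x).card ≤ k)
    (hn : ∀ x ∈ Z, ∀ y, y ∉ Z → G.Adj x y → y ∈ f x) : (d + 1 - k) ^ 2 + 1 ≤ Z.card := by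
  obtain ⟨-, -, p3, -⟩ := h4
  have hM := h3 V G Z (hC.mono (subset_univ Z))
  have hpos : 1 ≤ Z.card := hZ.card_pos
  refine p3 (d + 1 - k) Z.card (ee G Z Z) (by omega) hpos ?_ hM
  have h1 := hR.inner Z
  have h2 : ee G Z Zᶜ ≤ k * Z.card := by
    rw [ee_sum_left]
    calc ∑ x ∈ Z, ee G {x} Zᶜ ≤ ∑ _x ∈ Z, k := by
          apply sum_le_sum
          intro x hx
          rw [ee_single]
          refine le_trans (card_le_card ?_) (hf x)
          intro y hy
          rw [mem_filter, mem_compl] at hy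
          exact hn x hx y hy.1 hy.2
      _ = k * Z.card := by rw [sum_const, smul_eq_mul, mul_comm]
  have h5 : (d + 1 - k) * Z.card + k * Z.card = (d + 1) * Z.card := by
    rw [← add_mul]
    congr 1
    omega
  omega

/-- Every perfect matching gives an odd cut consisting of its edges, or `V` is large. -/
theorem claimP (h1 : StDef2) (h3 : StMoore) (h4 : StNum) {G : SimpleGraph V} {d : ℕ}
    (hd : 4 ≤ d) (hR : Reg G (d + 1)) (hE : Even (Fintype.card V)) (hT : ¬ TwoPM G)
    (hC : C34free G univ) {N : V → V} (hN : PMon G univ N) :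
    10 * (d ^ 2 / 4) + 2 ≤ Fintype.card V ∨
      ∃ C : Finset V, Odd C.card ∧ ∀ u ∈ C, ∀ v, v ∉ C → G.Adj u v → N u = v := by
  have hRH : Reg (del G N) d := hR.del hN
  have hno : ¬ ∃ σ, PMon (del G N) univ σ := by
    rintro ⟨σ, hσ⟩
    apply hT
    refine ⟨σ, N, fun v hv => ⟨mem_univ _, (hσ v hv).2.1.1, (hσ v hv).2.2⟩, hN, fun v he => ?_⟩
    exact (hσ v (mem_univ v)).2.1.2.1 he.symm
  rcases h1 V (del G N) d hRH hE hno with ⟨C, hCo, hC0⟩ | ⟨A, B, C, hAB, hAC, hBC, oA, oB, oC, bA, bB, bC⟩
  · right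
    refine ⟨C, hCo, fun u hu v hv huv => ?_⟩
    by_contra hne
    rw [ee_eq_zero_iff] at hC0
    refine hC0 u hu v (mem_compl.2 hv) ⟨huv, hne, fun h' => hne ?_⟩
    rw [← h', (hN v (mem_univ v)).2.2]
  · left
    have hl : ∀ A : Finset V, Odd A.card → ee (del G N) A Aᶜ < d → d ^ 2 ≤ A.card + 1 := by
      intro A oA bA
      have hpar := hRH.parity_odd oA
      refine h4.1 d A.card (ee (del G N) A Aᶜ) (ee (del G N) A A) hd oA (by omega)
        (hRH.inner A) ?_
      exact h3 V (del G N) A ((hC.mono (subset_univ A)).graph_mono (fun u v h => h.1))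
    have e1 := hl A oA bA
    have e2 := hl B oB bB
    have e3 := hl C oC bC
    have e4 : A.card + B.card + C.card ≤ Fintype.card V := by
      rw [← card_union_of_disjoint hAB, ← card_union_of_disjoint
        (disjoint_union_left.2 ⟨hAC, hBC⟩)]
      exact card_le_univ _
    exact h4.2.2.2.2.1 d (Fintype.card V) hd (by omega)

end Cells

open RGraph.KT.Cells in
theorem I_Cells (h1 : StDef2) (h2 : StExt) (h3 : StMoore) (h4 : StNum) : StCells := by
  intro V _ G d hd hR hO hne hE hT hC
  have hP : ∀ N : V → V, PMon G univ N → 10 * (d ^ 2 / 4) + 2 ≤ Fintype.card V ∨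
      ∃ C : Finset V, Odd C.card ∧ ∀ u ∈ C, ∀ v, v ∉ C → G.Adj u v → N u = v :=
    fun N hN => claimP h1 h3 h4 hd hR hE hT hC hN
  -- the first matching
  obtain ⟨N, hN⟩ := h2 V G (d + 1) univ hR hO (by rw [card_univ]; exact hE)
    (by rw [compl_univ, ee_empty_right]; omega)
  rcases hP N hN with hgoal | ⟨C, oC, hCN⟩
  · exact hgoal
  -- a vertex `u` of `C` matched outside
  have hbd : ee G C Cᶜ ≠ 0 := by
    have := hO C oC
    omega
  rw [Ne, ee_eq_zero_iff] at hbd
  push Not at hbd
  obtain ⟨u, hu, v, hv, huv⟩ := hbd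
  rw [mem_compl] at hv
  have hNu : N u = v := hCN u hu v hv huv
  -- another neighbour `w`
  have hdeg : (univ.filter (fun y => G.Adj u y)).card = d + 1 := by
    rw [← ee_single]
    exact hR u
  have hw : ∃ w, G.Adj u w ∧ w ≠ v := by
    by_contra hno
    push Not at hno
    have : (univ.filter (fun y => G.Adj u y)) ⊆ {v} := by
      intro y hy
      rw [mem_filter] at hy
      rw [mem_singleton]
      exact hno y hy.2
    have := card_le_card this
    rw [hdeg, card_singleton] at this
    omega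
  obtain ⟨w, huw, hwv⟩ := hw
  have huwne : u ≠ w := huw.ne
  -- the second matching
  set W : Finset V := univ \ {u, w} with hW
  have hWc : Wᶜ = {u, w} := by
    rw [hW]
    ext x
    simp only [mem_compl, mem_sdiff, mem_univ, true_and, not_not]
  have hcardW : W.card + 2 = Fintype.card V := by
    have h5 := card_compl_add_card W
    rw [hWc, card_pair huwne] at h5
    omega
  have hWb : ee G W Wᶜ + 2 ≤ 2 * (d + 1) := by
    rw [hWc, ee_symm]
    have e1 : ee G ({u, w} : Finset V) W = ee G {u} W + ee G {w} W := by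
      have hdj : Disjoint ({u} : Finset V) {w} := by simpa using huwne
      have : ({u, w} : Finset V) = {u} ∪ {w} := rfl
      rw [this, ee_union_left G W hdj]
    have e2 : ee G {u} W + ee G {u} Wᶜ = d + 1 := by rw [ee_compl_add]; exact hR u
    have e3 : ee G {w} W + ee G {w} Wᶜ = d + 1 := by rw [ee_compl_add]; exact hR w
    have e4 : 1 ≤ ee G {u} Wᶜ :=
      ee_pos G (mem_singleton_self u) (by rw [hWc]; simp) huw
    have e5 : 1 ≤ ee G {w} Wᶜ :=
      ee_pos G (mem_singleton_self w) (by rw [hWc]; simp) huw.symm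
    omega
  obtain ⟨n', hn'⟩ := h2 V G (d + 1) W hR hO (by
    rw [Nat.even_iff] at hE ⊢
    omega) hWb
  set N' : V → V := fun x => if x = u then w else if x = w then u else n' x with hN'
  have hNu' : N' u = w := by simp [hN']
  have hNw' : N' w = u := by simp [hN', huwne.symm]
  have hNx' : ∀ x, x ∈ W → N' x = n' x := by
    intro x hx
    have hx' : x ∉ Wᶜ := by simpa using hx
    rw [hWc, mem_insert, mem_singleton] at hx'
    push Not at hx'
    simp [hN', hx'.1, hx'.2]
  have hPM' : PMon G univ N' := by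
    intro x _
    refine ⟨mem_univ _, ?_⟩
    by_cases hxu : x = u
    · subst hxu
      rw [hNu', hNw']
      exact ⟨huw, rfl⟩
    · by_cases hxw : x = w
      · subst hxw
        rw [hNw', hNu']
        exact ⟨huw.symm, rfl⟩
      · have hxW : x ∈ W := by
          rw [hW, mem_sdiff]
          exact ⟨mem_univ _, by simp [hxu, hxw]⟩
        obtain ⟨a1, a2, a3⟩ := hn' x hxW
        rw [hNx' x hxW, hNx' _ a1]
        exact ⟨a2, a3⟩
  have hinv : ∀ x, N (N x) = x := fun x => (hN x (mem_univ x)).2.2
  have hinv' : ∀ x, N' (N' x) = x := fun x => (hPM' x (mem_univ x)).2.2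
  -- the second cut contains `u` and `v`
  have hC' : 10 * (d ^ 2 / 4) + 2 ≤ Fintype.card V ∨ ∃ C' : Finset V, Odd C'.card ∧
      (∀ x ∈ C', ∀ y, y ∉ C' → G.Adj x y → N' x = y) ∧ u ∈ C' ∧ v ∈ C' := by
    rcases hP N' hPM' with hgoal | ⟨D, oD, hD⟩
    · exact Or.inl hgoal
    · right
      by_cases huD : u ∈ D
      · refine ⟨D, oD, hD, huD, ?_⟩
        by_contra hvD
        have := hD u huD v hvD huv
        rw [hNu'] at this
        exact hwv this
      · refine ⟨Dᶜ, ?_, ?_, mem_compl.2 huD, ?_⟩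
        · have h5 := card_compl_add_card D
          rw [Nat.odd_iff] at oD ⊢
          rw [Nat.even_iff] at hE
          omega
        · intro x hx y hy hxy
          rw [mem_compl] at hx
          rw [mem_compl, not_not] at hy
          have := hD y hy x hx hxy.symm
          rw [← this, hinv']
        · rw [mem_compl]
          intro hvD
          have := hD v hvD u huD huv.symm
          have h6 := hinv' v
          rw [this, hNu'] at h6
          exact hwv h6
  rcases hC' with hgoal | ⟨C', oC', hCN', huC', hvC'⟩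
  · exact hgoal
  -- symmetric forms
  have sC : ∀ x y, G.Adj x y → (x ∈ C ↔ y ∉ C) → N x = y := by
    intro x y hxy hs
    by_cases hx : x ∈ C
    · exact hCN x hx y (hs.1 hx) hxy
    · have hy : y ∈ C := by
        by_contra hy
        exact hx (hs.2 hy)
      have := hCN y hy x hx hxy.symm
      rw [← this, hinv]
  have sC' : ∀ x y, G.Adj x y → (x ∈ C' ↔ y ∉ C') → N' x = y := by
    intro x y hxy hs
    by_cases hx : x ∈ C'
    · exact hCN' x hx y (hs.1 hx) hxy
    · have hy : y ∈ C' := by
        by_contra hy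
        exact hx (hs.2 hy)
      have := hCN' y hy x hx hxy.symm
      rw [← this, hinv']
  -- sizes
  have big2 : ∀ Z : Finset V, Z.Nonempty →
      (∀ x ∈ Z, ∀ y, y ∉ Z → G.Adj x y → y = N x ∨ y = N' x) → (d - 1) ^ 2 + 1 ≤ Z.card := by
    intro Z hZ hn
    have := cell h3 h4 (k := 2) (by omega) hR hC hZ (fun x => {N x, N' x}) (fun x => card_le_two)
      (fun x hx y hy hxy => by
        rw [mem_insert, mem_singleton]
        exact hn x hx y hy hxy)
    have e : d + 1 - 2 = d - 1 := by omega
    rw [e] at this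
    exact this
  have big1 : ∀ Z : Finset V, Odd Z.card → ∀ M : V → V,
      (∀ x ∈ Z, ∀ y, y ∉ Z → G.Adj x y → M x = y) → d ^ 2 + 1 ≤ Z.card := by
    intro Z hZ M hn
    have hZn : Z.Nonempty := by
      rw [← card_pos]
      exact hZ.pos
    have := cell h3 h4 (k := 1) (by omega) hR hC hZn (fun x => {M x}) (fun x => le_of_eq (card_singleton _))
      (fun x hx y hy hxy => by
        rw [mem_singleton]
        exact (hn x hx y hy hxy).symm)
    have e : d + 1 - 1 = d := by omega
    rw [e] at this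
    exact this
  have oCc : Odd Cᶜ.card := by
    have h5 := card_compl_add_card C
    rw [Nat.odd_iff] at oC ⊢
    rw [Nat.even_iff] at hE
    omega
  have oCc' : Odd C'ᶜ.card := by
    have h5 := card_compl_add_card C'
    rw [Nat.odd_iff] at oC' ⊢
    rw [Nat.even_iff] at hE
    omega
  have z1 : (d - 1) ^ 2 + 1 ≤ (C ∩ C').card := by
    refine big2 _ ⟨u, mem_inter.2 ⟨hu, huC'⟩⟩ (fun x hx y hy hxy => ?_)
    rw [mem_inter] at hx hy
    by_cases hyC : y ∈ C
    · right
      exact (sC' x y hxy ⟨fun _ h => hy ⟨hyC, h⟩, fun _ => hx.2⟩).symm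
    · left
      exact (sC x y hxy ⟨fun _ => hyC, fun _ => hx.1⟩).symm
  have z2 : (d - 1) ^ 2 + 1 ≤ (C' \ C).card := by
    refine big2 _ ⟨v, mem_sdiff.2 ⟨hvC', hv⟩⟩ (fun x hx y hy hxy => ?_)
    rw [mem_sdiff] at hx hy
    by_cases hyC : y ∈ C
    · left
      exact (sC x y hxy ⟨fun h => absurd h hx.2, fun h => absurd hyC h⟩).symm
    · right
      exact (sC' x y hxy ⟨fun _ h => hy ⟨h, hyC⟩, fun _ => hx.1⟩).symm
  have z3 : (C \ C').Nonempty → (d - 1) ^ 2 + 1 ≤ (C \ C').card := by
    intro hne3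
    refine big2 _ hne3 (fun x hx y hy hxy => ?_)
    rw [mem_sdiff] at hx hy
    by_cases hyC : y ∈ C'
    · right
      exact (sC' x y hxy ⟨fun h => absurd h hx.2, fun h => absurd hyC h⟩).symm
    · left
      exact (sC x y hxy ⟨fun _ h => hy ⟨h, hyC⟩, fun _ => hx.1⟩).symm
  have z4 : ((C ∪ C')ᶜ).Nonempty → (d - 1) ^ 2 + 1 ≤ ((C ∪ C')ᶜ).card := by
    intro hne4
    refine big2 _ hne4 (fun x hx y hy hxy => ?_)
    rw [mem_compl, mem_union, not_or] at hx
    rw [mem_compl, mem_union, not_not] at hy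
    by_cases hyC : y ∈ C
    · left
      exact (sC x y hxy ⟨fun h => absurd h hx.1, fun h => absurd hyC h⟩).symm
    · right
      have hyC' : y ∈ C' := hy.resolve_left hyC
      exact (sC' x y hxy ⟨fun h => absurd h hx.2, fun h => absurd hyC' h⟩).symm
  have bC := big1 C oC N hCN
  have bCc : d ^ 2 + 1 ≤ Cᶜ.card := big1 Cᶜ oCc N (fun x hx y hy hxy => by
    rw [mem_compl] at hx
    rw [mem_compl, not_not] at hy
    exact sC x y hxy ⟨fun h => absurd h hx, fun h => absurd hy h⟩)
  have bCc' : d ^ 2 + 1 ≤ C'ᶜ.card := big1 C'ᶜ oCc' N' (fun x hx y hy hxy => by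
    rw [mem_compl] at hx
    rw [mem_compl, not_not] at hy
    exact sC' x y hxy ⟨fun h => absurd h hx, fun h => absurd hy h⟩)
  obtain ⟨-, -, -, -, -, p6, p7⟩ := h4
  have hsum1 : (C ∩ C').card + (C \ C').card = C.card := card_inter_add_card_sdiff C C'
  have hsum2 : (C' \ C).card + ((C ∪ C')ᶜ).card = Cᶜ.card := by
    rw [← card_union_of_disjoint]
    · congr 1
      ext x
      simp only [mem_union, mem_sdiff, mem_compl]
      tauto
    · rw [disjoint_left]
      intro x hx hx'
      rw [mem_sdiff] at hx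
      rw [mem_compl, mem_union, not_or] at hx'
      exact hx'.2 hx.1
  have hsum3 : Cᶜ.card + C.card = Fintype.card V := card_compl_add_card C
  have hsum4 : C'ᶜ.card + C'.card = Fintype.card V := card_compl_add_card C'
  have hsum5 : (C ∩ C').card + (C' \ C).card = C'.card := by
    rw [inter_comm]
    exact card_inter_add_card_sdiff C' C
  rcases (C \ C').eq_empty_or_nonempty with he3 | hne3
  · have e3 : (C \ C').card = 0 := by rw [he3]; rfl
    exact p6 d _ hd (by omega)
  · rcases ((C ∪ C')ᶜ).eq_empty_or_nonempty with he4 | hne4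
    · have e4 : ((C ∪ C')ᶜ).card = 0 := by rw [he4]; rfl
      refine p6 d _ hd ?_
      omega
    · have := p7 d C.card Cᶜ.card hd (by have := z3 hne3; omega) (by have := z4 hne4; omega) oC oCc
      omega

end RGraph.KT
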