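import Pool.Agent.Work.MP_426d99_co.KT.St2

/-!
# Contraction of a tight set
-/

open Finset Classical

namespace RGraph.KT

namespace Contr

variable {V E : Type}

/-- The contraction map. -/
noncomputable def pr (X : Finset V) (v : V) : Option {v : V // v ∉ X} :=
  if h : v ∉ X then some ⟨v, h⟩ else none

theorem pr_out {X : Finset V} {v : V} (h : v ∉ X) : pr X v = some ⟨v, h⟩ := by
  unfold pr
  rw [dif_pos h]

theorem pr_in {X : Finset V} {v : V} (h : v ∈ X) : pr X v = none := by
  unfold pr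
  rw [dif_neg (fun h' => h' h)]

theorem pr_eq_none {X : Finset V} {v : V} : pr X v = none ↔ v ∈ X := by
  constructor
  · intro h
    by_contra h'
    rw [pr_out h'] at h
    exact Option.some_ne_none _ h
  · exact pr_in

theorem pr_eq_some {X : Finset V} {v : V} {u : {v : V // v ∉ X}} :
    pr X v = some u ↔ v = u.1 := by
  constructor
  · intro h
    by_cases h' : v ∈ X
    · rw [pr_in h'] at h
      exact absurd h.symm (Option.some_ne_none _)
    · rw [pr_out h'] at h
      have h2 := Option.some.inj h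
      rw [← h2]
  · intro h
    have h' : v ∉ X := by rw [h]; exact u.2
    rw [pr_out h']
    congr 1
    exact Subtype.ext h

/-- The edges of the contracted graph. -/
abbrev E2 (ends : E → Sym2 V) (X : Finset V) : Type := {e : E // ∃ v ∈ ends e, v ∉ X}

/-- The ends in the contracted graph. -/
noncomputable def ends2 (ends : E → Sym2 V) (X : Finset V) (e : E2 ends X) :
    Sym2 (Option {v : V // v ∉ X}) := (ends e.1).map (pr X)

theorem mem_bd (ends : E → Sym2 V) (X : Finset V) (S : Set (Option {v : V // v ∉ X}))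
    (e : E2 ends X) : e ∈ boundary (ends2 ends X) S ↔ e.1 ∈ boundary ends (pr X ⁻¹' S) := by
  constructor
  · rintro ⟨x, hx, y, hy, h⟩
    unfold ends2 at h
    generalize hz : ends e.1 = z at h
    induction z using Sym2.ind with
    | _ u v =>
      rw [Sym2.map_mk] at h
      rcases Sym2.eq_iff.1 h with ⟨h1, h2⟩ | ⟨h1, h2⟩
      · exact ⟨u, by simpa [h1] using hx, v, by simpa [h2] using hy, hz⟩
      · exact ⟨v, by simpa [h2] using hx, u, by simpa [h1] using hy, by rw [hz, Sym2.eq_swap]⟩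
  · rintro ⟨u, hu, v, hv, h⟩
    refine ⟨pr X u, hu, pr X v, hv, ?_⟩
    unfold ends2
    rw [h, Sym2.map_mk]

theorem image_bd (ends : E → Sym2 V) (X : Finset V) (S : Set (Option {v : V // v ∉ X})) :
    Subtype.val '' boundary (ends2 ends X) S = boundary ends (pr X ⁻¹' S) := by
  ext e
  constructor
  · rintro ⟨e', he', rfl⟩
    exact (mem_bd ends X S e').1 he'
  · intro he
    have he' := he
    obtain ⟨u, hu, v, hv, h⟩ := he'
    have h1 : ∃ v ∈ ends e, v ∉ X := by
      by_contra hcon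
      push Not at hcon
      have h2 := hcon u (by rw [h]; exact Sym2.mem_mk_left _ _)
      have h3 := hcon v (by rw [h]; exact Sym2.mem_mk_right _ _)
      apply hv
      show pr X v ∈ S
      rw [pr_in h3, ← pr_in h2]
      exact hu
    exact ⟨⟨e, h1⟩, (mem_bd ends X S ⟨e, h1⟩).2 he, rfl⟩

theorem ncard_bd (ends : E → Sym2 V) (X : Finset V) (S : Set (Option {v : V // v ∉ X})) :
    (boundary (ends2 ends X) S).ncard = (boundary ends (pr X ⁻¹' S)).ncard := by
  rw [← image_bd, Set.ncard_image_of_injective _ Subtype.val_injective]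

theorem ncard_pre [Fintype V] (X : Finset V) (S : Set (Option {v : V // v ∉ X}))
    (hS : none ∉ S) : (pr X ⁻¹' S).ncard = S.ncard := by
  have h1 : pr X '' (pr X ⁻¹' S) = S := by
    apply Set.image_preimage_eq_of_subset
    intro s hs
    rcases s with _ | u
    · exact absurd hs hS
    · exact ⟨u.1, pr_eq_some.2 rfl⟩
  have h2 : Set.InjOn (pr X) (pr X ⁻¹' S) := by
    intro a ha b hb hab
    have ha' : a ∉ X := fun h => hS (by rw [← pr_in h]; exact ha)
    rw [pr_out ha'] at hab
    exact (pr_eq_some.1 hab.symm).symm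
  have h3 := Set.ncard_image_of_injOn h2
  rw [h1] at h3
  exact h3.symm

theorem isR [Fintype V] [Finite E] (ends : E → Sym2 V) (X : Finset V) (r : ℕ)
    (hR : IsRGraph r ends) (hodd : Odd X.card)
    (hb : (boundary ends (X : Set V)).ncard = r) : IsRGraph r (ends2 ends X) := by
  refine ⟨?_, ?_, ?_⟩
  · intro e hd
    have hl := hR.loopless e.1
    obtain ⟨v0, hv0, hv0'⟩ := e.2
    unfold ends2 at hd
    generalize hz : ends e.1 = z at hd hl hv0
    induction z using Sym2.ind with
    | _ u v =>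
      rw [Sym2.map_mk, Sym2.mk_isDiag_iff] at hd
      rw [Sym2.mk_isDiag_iff] at hl
      have huv : u ∉ X ∨ v ∉ X := by
        rcases Sym2.mem_iff.1 hv0 with h | h
        · left; rw [← h]; exact hv0'
        · right; rw [← h]; exact hv0'
      rcases huv with h | h
      · rw [pr_out h] at hd
        exact hl (pr_eq_some.1 hd.symm).symm
      · rw [pr_out h] at hd
        exact hl (pr_eq_some.1 hd)
  · intro v
    rw [ncard_bd]
    rcases v with _ | u
    · have h1 : pr X ⁻¹' {none} = (X : Set V) := by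
        ext w
        simp only [Set.mem_preimage, Set.mem_singleton_iff, Finset.mem_coe]
        exact pr_eq_none
      rw [h1, hb]
    · have h1 : pr X ⁻¹' {some u} = {u.1} := by
        ext w
        simp only [Set.mem_preimage, Set.mem_singleton_iff]
        exact pr_eq_some
      rw [h1]
      exact hR.regular u.1
  · intro S hS
    rw [ncard_bd]
    apply hR.odd
    by_cases h : none ∈ S
    · have h1 : pr X ⁻¹' S = pr X ⁻¹' (S \ {none}) ∪ (X : Set V) := by
        ext w
        simp only [Set.mem_preimage, Set.mem_union, Set.mem_diff, Set.mem_singleton_iff,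
          Finset.mem_coe, pr_eq_none]
        constructor
        · intro hw
          by_cases hX : w ∈ X
          · exact Or.inr hX
          · exact Or.inl ⟨hw, hX⟩
        · rintro (hw | hw)
          · exact hw.1
          · rw [pr_in hw]; exact h
      have h2 : Disjoint (pr X ⁻¹' (S \ {none})) (X : Set V) := by
        rw [Set.disjoint_left]
        intro w hw hw'
        simp only [Set.mem_preimage, Set.mem_diff, Set.mem_singleton_iff, pr_eq_none] at hw
        exact hw.2 hw'
      rw [h1, Set.ncard_union_eq h2 (Set.toFinite _) (Set.toFinite _), Set.ncard_coe_finset,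
        ncard_pre X (S \ {none}) (fun h' => h'.2 rfl)]
      have h3 := Set.ncard_diff_singleton_add_one h (Set.toFinite S)
      rw [← h3] at hS
      obtain ⟨a, ha⟩ := hS
      obtain ⟨b, hb'⟩ := hodd
      exact ⟨a + b, by omega⟩
    · rw [ncard_pre X S h]
      exact hS

theorem out (ends : E → Sym2 V) (hl : ∀ e, ¬ (ends e).IsDiag) [Fintype V] (X : Finset V)
    (M : Set (E2 ends X)) (hM : IsPM (ends2 ends X) M) :
    ∃ (m : V → V) (w x : V), OutPM (gr ends) X m w x ∧
      ∀ v, v ∉ X → ∃ e : E2 ends X, e ∈ M ∧ ends e.1 = s(v, m v) := by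
  have mem_out : ∀ (e : E2 ends X) (v : V) (h : v ∉ X),
      (some ⟨v, h⟩ : Option {v : V // v ∉ X}) ∈ ends2 ends X e ↔ v ∈ ends e.1 := by
    intro e v h
    unfold ends2
    rw [Sym2.mem_map]
    constructor
    · rintro ⟨u, hu, hu'⟩
      rw [pr_eq_some] at hu'
      have hu2 : u = v := hu'
      rw [← hu2]
      exact hu
    · intro hv
      exact ⟨v, hv, pr_out h⟩
  have ex : ∀ v, v ∉ X → ∃ u : V, ∃ e : E2 ends X, e ∈ M ∧ ends e.1 = s(v, u) := by
    intro v hv
    obtain ⟨e, ⟨he, hve⟩, -⟩ := hM (some ⟨v, hv⟩)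
    rw [mem_out] at hve
    obtain ⟨u, hu⟩ := hve
    exact ⟨u, e, he, hu⟩
  choose m hm using ex
  obtain ⟨g, ⟨hg, hng⟩, huniq⟩ := hM none
  have hw : ∃ w ∈ ends g.1, w ∈ X := by
    unfold ends2 at hng
    rw [Sym2.mem_map] at hng
    obtain ⟨w, hw, hw'⟩ := hng
    exact ⟨w, hw, pr_eq_none.1 hw'⟩
  obtain ⟨w, hwg, hwX⟩ := hw
  obtain ⟨x, hxg, hxX⟩ := g.2
  have hne : x ≠ w := fun h => hxX (h ▸ hwX)
  have hgends : ends g.1 = s(w, x) := ((Sym2.mem_and_mem_iff hne.symm).1 ⟨hwg, hxg⟩)
  -- uniqueness outside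
  have uniq : ∀ (v : V) (hv : v ∉ X) (e e' : E2 ends X), e ∈ M → e' ∈ M → v ∈ ends e.1 →
      v ∈ ends e'.1 → e = e' := by
    intro v hv e e' he he' h h'
    obtain ⟨f, -, hf⟩ := hM (some ⟨v, hv⟩)
    rw [hf e ⟨he, (mem_out e v hv).2 h⟩, hf e' ⟨he', (mem_out e' v hv).2 h'⟩]
  let m' : V → V := fun v => if h : v ∉ X then m v h else v
  have hm' : ∀ v (h : v ∉ X), m' v = m v h := fun v h => dif_pos h
  have hmain : ∀ v, v ∉ X → ∃ e : E2 ends X, e ∈ M ∧ ends e.1 = s(v, m' v) := by
    intro v hv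
    rw [hm' v hv]
    exact hm v hv
  have hmx : m' x = w := by
    obtain ⟨e, he, hee⟩ := hmain x hxX
    have h1 : e = g := uniq x hxX e g he hg (by rw [hee]; exact Sym2.mem_mk_left _ _) hxg
    rw [h1, hgends] at hee
    rcases Sym2.eq_iff.1 hee with ⟨h2, h3⟩ | ⟨h2, h3⟩
    · exact absurd h2.symm hne
    · exact h2.symm
  refine ⟨m', w, x, ⟨hwX, hxX, ⟨hne, g.1, by rw [hgends, Sym2.eq_swap]⟩, hmx, ?_⟩, hmain⟩
  intro v hv hvx
  obtain ⟨e, he, hee⟩ := hmain v hv
  have hvm : v ≠ m' v := by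
    intro h
    apply hl e.1
    rw [hee, Sym2.mk_isDiag_iff]
    exact h
  have hout : m' v ∉ X := by
    intro h
    have h1 : e = g := by
      apply huniq e
      refine ⟨he, ?_⟩
      unfold ends2
      rw [hee, Sym2.map_mk, pr_in h]
      exact Sym2.mem_mk_right _ _
    rw [h1, hgends] at hee
    rcases Sym2.eq_iff.1 hee with ⟨h2, h3⟩ | ⟨h2, h3⟩
    · exact hv (h2 ▸ hwX)
    · exact hvx h3.symm
  refine ⟨hout, ⟨hvm, e.1, hee⟩, ?_⟩
  obtain ⟨e', he', hee'⟩ := hmain (m' v) hout
  have h1 : e' = e := uniq (m' v) hout e' e he' he (by rw [hee']; exact Sym2.mem_mk_left _ _)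
    (by rw [hee]; exact Sym2.mem_mk_right _ _)
  rw [h1, hee] at hee'
  rcases Sym2.eq_iff.1 hee' with ⟨h2, h3⟩ | ⟨h2, h3⟩
  · exact absurd h2 hvm
  · exact h2.symm

end Contr

open Contr in
theorem I_Contr : StContr := by
  intro r n hr hlow V E _ _ ends hR hinj hn X hodd h3 hb
  have hcard : Nat.card (Option {v : V // v ∉ X}) < n := by
    rw [Nat.card_eq_fintype_card, Fintype.card_option]
    have h1 : Fintype.card {v : V // v ∉ X} + X.card = Fintype.card V := by
      rw [Fintype.card_subtype_compl (fun v => v ∈ X)]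
      have h2 : Fintype.card {v : V // v ∈ X} = X.card := by simp
      rw [h2]
      have h3 := Finset.card_le_univ X
      omega
    omega
  obtain ⟨F, hF, hdis⟩ := hlow _ _ (ends2 ends X) (isR ends X r hR hodd hb) hcard
  obtain ⟨m₁, w₁, x₁, hO₁, hE₁⟩ := out ends hR.loopless X (F 0) (hF 0)
  obtain ⟨m₂, w₂, x₂, hO₂, hE₂⟩ := out ends hR.loopless X (F 1) (hF 1)
  refine ⟨m₁, m₂, w₁, x₁, w₂, x₂, hO₁, hO₂, ?_⟩
  intro v hv heq
  obtain ⟨e₁, he₁, h₁⟩ := hE₁ v hv
  obtain ⟨e₂, he₂, h₂⟩ := hE₂ v hv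
  have he : e₁ = e₂ := Subtype.ext (hinj (by rw [h₁, h₂, heq]))
  have hd := hdis 0 1 (by decide)
  exact Set.disjoint_left.1 hd he₁ (he ▸ he₂)

end RGraph.KT
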