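import Pool.Agent.Work.MP_426d99_co.KT.St2

/-!
Deficient components.
-/

open Finset Classical

namespace RGraph.KT

namespace Def

variable {V : Type} [Fintype V]

theorem core (G : SimpleGraph V) (D : ℕ) (hD : Reg G D) (W S : Finset V)
    (C : Finset (Finset V)) (hS : S ⊆ W) (h1 : ∀ A ∈ C, A ⊆ W ∧ Disjoint A S ∧ Odd A.card)
    (h2 : ∀ A ∈ C, ∀ B ∈ C, A ≠ B → Disjoint A B)
    (h3 : ∀ A ∈ C, ∀ u ∈ A, ∀ v ∈ W, v ∉ A → v ∉ S → ¬ G.Adj u v) :
    ∑ A ∈ C, ee G A Aᶜ ≤ D * S.card + ee G W Wᶜ := by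
  have hSW : Disjoint S Wᶜ := by
    rw [Finset.disjoint_left]
    intro v hv hv'
    exact (Finset.mem_compl.1 hv') (hS hv)
  have hA : ∀ A ∈ C, ee G A Aᶜ ≤ ee G A S + ee G A Wᶜ := by
    intro A hA
    rw [← ee_union_right G A hSW]
    unfold ee
    apply Finset.card_le_card
    rintro ⟨u, v⟩ hq
    simp only [Finset.mem_filter, Finset.mem_product, Finset.mem_union, Finset.mem_compl] at hq ⊢
    refine ⟨⟨hq.1.1, ?_⟩, hq.2⟩
    by_contra hc
    push Not at hc
    exact h3 A hA u hq.1.1 v hc.2 hq.1.2 hc.1 hq.2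
  have hU : ∀ B : Finset V, ∑ A ∈ C, ee G A B = ee G (C.biUnion id) B := by
    intro B
    rw [ee_biUnion_left G C id B (fun i hi j hj hij => h2 i hi j hj hij)]
    rfl
  have hs : ∑ A ∈ C, ee G A Aᶜ ≤ ee G (C.biUnion id) S + ee G (C.biUnion id) Wᶜ := by
    rw [← hU, ← hU, ← Finset.sum_add_distrib]
    exact Finset.sum_le_sum hA
  have hUW : C.biUnion id ⊆ W := by
    intro v hv
    obtain ⟨A, hA, hv⟩ := Finset.mem_biUnion.1 hv
    exact (h1 A hA).1 hv
  have hUS : Disjoint (C.biUnion id) S := by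
    rw [Finset.disjoint_biUnion_left]
    exact fun A hA => (h1 A hA).2.1
  have hUWc : Disjoint (C.biUnion id) Wᶜ := by
    rw [Finset.disjoint_left]
    intro v hv hv'
    exact (Finset.mem_compl.1 hv') (hUW hv)
  have e1 : ee G (C.biUnion id) S ≤ D * S.card := by
    rw [ee_symm, ← hD.sum S]
    exact ee_mono G (Finset.Subset.refl _) (Finset.subset_univ _)
  have e2 : ee G (C.biUnion id) Wᶜ ≤ ee G W Wᶜ := ee_mono G hUW (Finset.Subset.refl _)
  omega

end Def

theorem I_Def (h : StTut) : StDef := by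
  intro V _ G D W hD hW hb hn
  obtain ⟨S, C, hS, h1, h2, h3, h4⟩ := h V G W hW hn
  by_contra hc
  push Not at hc
  have hcore := Def.core G D hD W S C hS h1 h2 h3
  have h5 : C.card * D ≤ ∑ A ∈ C, ee G A Aᶜ := by
    rw [← smul_eq_mul]
    exact Finset.card_nsmul_le_sum _ _ _ (fun A hA => hc A (h1 A hA).1 (h1 A hA).2.2)
  have h6 : (S.card + 2) * D ≤ C.card * D := Nat.mul_le_mul_right D h4
  have h7 : (S.card + 2) * D = D * S.card + 2 * D := by ring
  omega

theorem I_Def2 (h : StTut) : StDef2 := by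
  intro V _ G D hD hV hn
  obtain ⟨S, C, hS, h1, h2, h3, h4⟩ := h V G univ (by rwa [Finset.card_univ]) hn
  have hcore := Def.core G D hD univ S C hS h1 h2 h3
  have h0 : ee G (univ : Finset V) (univ : Finset V)ᶜ = 0 := by
    rw [Finset.compl_univ, ee_empty_right]
  rw [h0, Nat.add_zero] at hcore
  by_contra hc
  push Not at hc
  obtain ⟨hc1, hc2⟩ := hc
  have hpos : ∀ A ∈ C, 1 ≤ ee G A Aᶜ := by
    intro A hA
    have := hc1 A (h1 A hA).2.2
    omega
  obtain ⟨C', hC'⟩ : ∃ C', C' = C.filter (fun A => ee G A Aᶜ < D) := ⟨_, rfl⟩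
  have hC'2 : C'.card ≤ 2 := by
    by_contra hlt
    push Not at hlt
    obtain ⟨A, B, E, hA, hB, hE, hAB, hAE, hBE⟩ := Finset.two_lt_card_iff.1 hlt
    rw [hC'] at hA hB hE
    rw [Finset.mem_filter] at hA hB hE
    have := hc2 A B E (h2 A hA.1 B hB.1 hAB) (h2 A hA.1 E hE.1 hAE) (h2 B hB.1 E hE.1 hBE)
      (h1 A hA.1).2.2 (h1 B hB.1).2.2 (h1 E hE.1).2.2 hA.2 hB.2
    omega
  have hsplit : ∑ A ∈ C, ee G A Aᶜ = ∑ A ∈ C', ee G A Aᶜ + ∑ A ∈ C \ C', ee G A Aᶜ := by
    rw [add_comm]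
    exact (Finset.sum_sdiff (by rw [hC']; exact Finset.filter_subset _ _)).symm
  have hs1 : C'.card * 1 ≤ ∑ A ∈ C', ee G A Aᶜ := by
    rw [← smul_eq_mul]
    refine Finset.card_nsmul_le_sum _ _ _ (fun A hA => hpos A ?_)
    rw [hC'] at hA
    exact (Finset.mem_filter.1 hA).1
  have hs2 : (C \ C').card * D ≤ ∑ A ∈ C \ C', ee G A Aᶜ := by
    rw [← smul_eq_mul]
    refine Finset.card_nsmul_le_sum _ _ _ (fun A hA => ?_)
    rw [hC', Finset.mem_sdiff, Finset.mem_filter] at hA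
    by_contra hlt
    exact hA.2 ⟨hA.1, by omega⟩
  have hcard : (C \ C').card + C'.card = C.card := by
    rw [Finset.card_sdiff_add_card_eq_card]
    rw [hC']; exact Finset.filter_subset _ _
  have hD0 : 1 ≤ D := by
    by_contra hD0
    have hD0' : D = 0 := by omega
    obtain ⟨A, hA⟩ : C.Nonempty := by
      rw [← Finset.card_pos]; omega
    have e1 := hpos A hA
    have e2 : ee G A Aᶜ ≤ ee G A univ := ee_mono G (Finset.Subset.refl _) (Finset.subset_univ _)
    rw [hD.sum, hD0'] at e2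
    omega
  obtain ⟨m, hm⟩ : ∃ m, m = (C \ C').card := ⟨_, rfl⟩
  rw [← hm] at hs2 hcard
  have hkey : m * D + C'.card ≤ D * S.card := by omega
  -- `S.card ≤ m + C'.card - 2 ≤ m`
  have hSm : S.card ≤ m := by omega
  have h8 : D * S.card ≤ m * D := by
    rw [mul_comm]; exact Nat.mul_le_mul_right D hSm
  have h9 : C'.card = 0 := by omega
  have h10 : S.card + 2 ≤ m := by omega
  have h11 : (S.card + 2) * D ≤ m * D := Nat.mul_le_mul_right D h10
  have h12 : (S.card + 2) * D = D * S.card + 2 * D := by ring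
  omega

theorem I_Ext (h : StDef) : StExt := by
  intro V _ G r W hr ho hW hb
  by_contra hn
  obtain ⟨C, -, hC, hlt⟩ := h V G r W hr hW hb hn
  have := ho C hC
  omega

end RGraph.KT
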