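import Pool.Agent.Work.MP_426d99_co.KT.St2

/-!
# Item Double: a free parallel edge
-/

open Finset Classical

namespace RGraph.KT

namespace Double

variable {V E : Type}

theorem two (ends : E → Sym2 V) (P Q : Set E) (hP : IsPM ends P) (hQ : IsPM ends Q)
    (h : Disjoint P Q) : HasPMs ends 2 := by
  refine ⟨![P, Q], ?_, ?_⟩
  · intro i
    fin_cases i
    · exact hP
    · exact hQ
  · intro i j hij
    fin_cases i <;> fin_cases j
    · exact absurd rfl hij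
    · exact h
    · exact h.symm
    · exact absurd rfl hij

/-- Replacing the edge `e₁` (new ends `ac`) by an edge `e` with ends `ac`. -/
theorem repl (ends : E → Sym2 V) (e₁ e₂ e : E) (a b c d : V) (P : Set E)
    (h₁₂ : e₁ ≠ e₂) (hP : IsPM (sw ends e₁ e₂ a b c d) P) (h1 : e₁ ∈ P) (h2 : e₂ ∉ P)
    (he : ends e = s(a, c)) : IsPM ends (insert e (P \ {e₁})) := by
  have hoth : ∀ e' ∈ P, e' ≠ e₁ → sw ends e₁ e₂ a b c d e' = ends e' := by
    intro e' he' hne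
    exact sw_other hne (fun h => h2 (h ▸ he'))
  have hone : sw ends e₁ e₂ a b c d e₁ = s(a, c) := sw_one h₁₂
  intro v
  by_cases hv : v ∈ s(a, c)
  · refine ⟨e, ⟨Set.mem_insert _ _, by rw [he]; exact hv⟩, ?_⟩
    rintro e' ⟨h3, h4⟩
    rcases h3 with h3 | h3
    · exact h3
    · exfalso
      have h5 : e' ≠ e₁ := fun h => h3.2 (by rw [h]; rfl)
      have h6 := (hP v).unique ⟨h3.1, by rw [hoth e' h3.1 h5]; exact h4⟩
        ⟨h1, by rw [hone]; exact hv⟩
      exact h5 h6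
  · obtain ⟨e', ⟨h3, h4⟩, h5⟩ := hP v
    have h6 : e' ≠ e₁ := by
      rintro rfl
      rw [hone] at h4
      exact hv h4
    refine ⟨e', ⟨Set.mem_insert_of_mem _ ⟨h3, h6⟩, by rw [← hoth e' h3 h6]; exact h4⟩, ?_⟩
    rintro e'' ⟨h7, h8⟩
    rcases h7 with h7 | h7
    · exfalso
      rw [h7, he] at h8
      exact hv h8
    · have h9 : e'' ≠ e₁ := fun h => h7.2 (by rw [h]; rfl)
      exact h5 e'' ⟨h7.1, by rw [hoth e'' h7.1 h9]; exact h8⟩

end Double

open Double in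
theorem I_Double (h : StJumpL) : StDouble := by
  intro V E _ _ ends e₁ e₂ e₃ e₄ a b c d he₁ he₂ hab hac had hbc hbd hcd he₃ he₄ hne h3
  by_contra hcon
  obtain ⟨P₁, P₂, P₃, hP₁, hP₂, hP₃, h12, h13, h23, h1, h2, h4, h5, hPM⟩ :=
    h V E ends e₁ e₂ a b c d he₁ he₂ hab hac had hbc hbd hcd h3 hcon
  have h₁₂ : e₁ ≠ e₂ := by
    rintro rfl
    exact h1 (by exact absurd h5 (fun h => Set.disjoint_left.1 h23 h4 h))
  obtain ⟨e, he, heP⟩ : ∃ e, ends e = s(a, c) ∧ e ∉ P₁ := by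
    by_cases h6 : e₃ ∈ P₁
    · refine ⟨e₄, he₄, ?_⟩
      intro h7
      exact hne ((hPM a).unique ⟨h6, by rw [he₃]; simp⟩ ⟨h7, by rw [he₄]; simp⟩)
    · exact ⟨e₃, he₃, h6⟩
  apply hcon
  apply two ends P₁ (insert e (P₂ \ {e₁})) hPM
  · exact repl ends e₁ e₂ e a b c d P₂ h₁₂ hP₂ h4 (fun h => Set.disjoint_left.1 h23 h h5) he
  · rw [Set.disjoint_left]
    intro x hx hx'
    rcases hx' with hx' | hx'
    · exact heP (hx' ▸ hx)
    · exact Set.disjoint_left.1 h12 hx hx'.1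

end RGraph.KT
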