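import Pool.Agent.Work.MP_426d99_co.KT.St2

/-!
# Item KT2 JumpL: the three perfect matchings of a switched graph
-/

open Finset Classical

namespace RGraph.KT

namespace JumpL

theorem neither {V E : Type} {ends : E → Sym2 V} {e₁ e₂ : E} {a b c d : V} {M : Set E}
    (hM : IsPM (sw ends e₁ e₂ a b c d) M) (h1 : e₁ ∉ M) (h2 : e₂ ∉ M) : IsPM ends M := by
  intro v
  have hsw : ∀ e ∈ M, sw ends e₁ e₂ a b c d e = ends e := by
    intro e he
    exact sw_other (fun h => h1 (h ▸ he)) (fun h => h2 (h ▸ he))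
  obtain ⟨e, ⟨he, hv⟩, hu⟩ := hM v
  refine ⟨e, ⟨he, by rwa [← hsw e he]⟩, ?_⟩
  rintro e' ⟨he', hv'⟩
  exact hu e' ⟨he', by rwa [hsw e' he']⟩

theorem both {V E : Type} {ends : E → Sym2 V} {e₁ e₂ : E} {a b c d : V} {M : Set E}
    (hne : e₁ ≠ e₂) (he₁ : ends e₁ = s(a, b)) (he₂ : ends e₂ = s(c, d))
    (hab : a ≠ b) (hac : a ≠ c) (had : a ≠ d) (hbc : b ≠ c) (hbd : b ≠ d) (hcd : c ≠ d)
    (hM : IsPM (sw ends e₁ e₂ a b c d) M) (h1 : e₁ ∈ M) (h2 : e₂ ∈ M) : IsPM ends M := by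
  have s1 : sw ends e₁ e₂ a b c d e₁ = s(a, c) := sw_one hne
  have s2 : sw ends e₁ e₂ a b c d e₂ = s(b, d) := sw_two
  -- other edges of `M` avoid the four vertices
  have key : ∀ e ∈ M, e ≠ e₁ → e ≠ e₂ → ∀ v, v ∈ ends e → v ≠ a ∧ v ≠ b ∧ v ≠ c ∧ v ≠ d := by
    intro e he n1 n2 v hv
    have hv' : v ∈ sw ends e₁ e₂ a b c d e := by rw [sw_other n1 n2]; exact hv
    refine ⟨?_, ?_, ?_, ?_⟩
    · rintro rfl
      exact n1 ((hM v).unique ⟨he, hv'⟩ ⟨h1, by rw [s1]; simp⟩)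
    · rintro rfl
      exact n2 ((hM v).unique ⟨he, hv'⟩ ⟨h2, by rw [s2]; simp⟩)
    · rintro rfl
      exact n1 ((hM v).unique ⟨he, hv'⟩ ⟨h1, by rw [s1]; simp⟩)
    · rintro rfl
      exact n2 ((hM v).unique ⟨he, hv'⟩ ⟨h2, by rw [s2]; simp⟩)
  intro v
  by_cases hv1 : v = a ∨ v = b
  · refine ⟨e₁, ⟨h1, by rw [he₁]; simpa using hv1⟩, ?_⟩
    rintro e ⟨he, hv⟩
    by_contra n1
    by_cases n2 : e = e₂
    · subst n2
      rw [he₂] at hv
      rcases hv1 with rfl | rfl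
      · rcases Sym2.mem_iff.1 hv with h | h
        · exact hac h
        · exact had h
      · rcases Sym2.mem_iff.1 hv with h | h
        · exact hbc h
        · exact hbd h
    · obtain ⟨k1, k2, -, -⟩ := key e he n1 n2 v hv
      rcases hv1 with h | h
      · exact k1 h
      · exact k2 h
  · by_cases hv2 : v = c ∨ v = d
    · refine ⟨e₂, ⟨h2, by rw [he₂]; simpa using hv2⟩, ?_⟩
      rintro e ⟨he, hv⟩
      by_contra n2
      by_cases n1 : e = e₁
      · subst n1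
        rw [he₁] at hv
        exact hv1 (Sym2.mem_iff.1 hv)
      · obtain ⟨-, -, k3, k4⟩ := key e he n1 n2 v hv
        rcases hv2 with h | h
        · exact k3 h
        · exact k4 h
    · obtain ⟨e, ⟨he, hv⟩, hu⟩ := hM v
      have n1 : e ≠ e₁ := by
        rintro rfl
        rw [s1] at hv
        rcases Sym2.mem_iff.1 hv with h | h
        · exact hv1 (Or.inl h)
        · exact hv2 (Or.inl h)
      have n2 : e ≠ e₂ := by
        rintro rfl
        rw [s2] at hv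
        rcases Sym2.mem_iff.1 hv with h | h
        · exact hv1 (Or.inr h)
        · exact hv2 (Or.inr h)
      refine ⟨e, ⟨he, by rwa [sw_other n1 n2] at hv⟩, ?_⟩
      rintro e' ⟨he', hv'⟩
      have m1 : e' ≠ e₁ := by
        rintro rfl
        rw [he₁] at hv'
        exact hv1 (Sym2.mem_iff.1 hv')
      have m2 : e' ≠ e₂ := by
        rintro rfl
        rw [he₂] at hv'
        exact hv2 (Sym2.mem_iff.1 hv')
      exact hu e' ⟨he', by rwa [sw_other m1 m2]⟩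

/-- Two disjoint perfect matchings. -/
theorem two {V E : Type} {ends : E → Sym2 V} {M N : Set E} (hM : IsPM ends M) (hN : IsPM ends N)
    (hd : Disjoint M N) : HasPMs ends 2 := by
  refine ⟨fun i => if i = 0 then M else N, ?_, ?_⟩
  · intro i
    fin_cases i
    · simpa using hM
    · simpa using hN
  · intro i j hij
    fin_cases i <;> fin_cases j
    · exact absurd rfl hij
    · simpa using hd
    · simpa using hd.symm
    · exact absurd rfl hij

/-- Three indices, at most one is good. -/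
theorem three (p : Fin 3 → Prop) (h : ∀ i j, i ≠ j → ¬ (p i ∧ p j)) :
    ∃ i j k : Fin 3, i ≠ j ∧ i ≠ k ∧ j ≠ k ∧ ¬ p i ∧ ¬ p j := by
  by_cases h0 : p 0
  · exact ⟨1, 2, 0, by decide, by decide, by decide, fun h1 => h 0 1 (by decide) ⟨h0, h1⟩,
      fun h1 => h 0 2 (by decide) ⟨h0, h1⟩⟩
  · by_cases h1 : p 1
    · exact ⟨0, 2, 1, by decide, by decide, by decide, h0,
        fun h2 => h 1 2 (by decide) ⟨h1, h2⟩⟩
    · exact ⟨0, 1, 2, by decide, by decide, by decide, h0, h1⟩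

end JumpL

/-- The three perfect matchings of a switched graph. -/
theorem I_JumpL : StJumpL := by
  intro V E _ _ ends e₁ e₂ a b c d he₁ he₂ hab hac had hbc hbd hcd h3 hn2
  have hne : e₁ ≠ e₂ := by
    rintro rfl
    rw [he₁] at he₂
    rcases Sym2.eq_iff.1 he₂ with ⟨h, -⟩ | ⟨h, -⟩
    · exact hac h
    · exact had h
  obtain ⟨F, hF, hd⟩ := h3
  have hgood : ∀ i j, i ≠ j → ¬ (IsPM ends (F i) ∧ IsPM ends (F j)) := by
    rintro i j hij ⟨h1, h2⟩
    exact hn2 (JumpL.two h1 h2 (hd i j hij))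
  obtain ⟨i, j, k, hij, hik, hjk, hi, hj⟩ := JumpL.three (fun i => IsPM ends (F i)) hgood
  have dis : ∀ e : E, ∀ i j, i ≠ j → e ∈ F i → e ∉ F j := fun e i j h h1 h2 =>
    Set.disjoint_left.1 (hd i j h) h1 h2
  have xor : ∀ i, ¬ IsPM ends (F i) → (e₁ ∈ F i ∧ e₂ ∉ F i) ∨ (e₁ ∉ F i ∧ e₂ ∈ F i) := by
    intro i hi
    by_cases h1 : e₁ ∈ F i <;> by_cases h2 : e₂ ∈ F i
    · exact absurd (JumpL.both hne he₁ he₂ hab hac had hbc hbd hcd (hF i) h1 h2) hi
    · exact Or.inl ⟨h1, h2⟩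
    · exact Or.inr ⟨h1, h2⟩
    · exact absurd (JumpL.neither (hF i) h1 h2) hi
  rcases xor i hi with ⟨h1, h2⟩ | ⟨h1, h2⟩ <;> rcases xor j hj with ⟨h3, h4⟩ | ⟨h3, h4⟩
  · exact absurd h3 (dis e₁ i j hij h1)
  · have k1 : e₁ ∉ F k := dis e₁ i k hik h1
    have k2 : e₂ ∉ F k := dis e₂ j k hjk h4
    exact ⟨F k, F i, F j, hF k, hF i, hF j, hd k i hik.symm, hd k j hjk.symm, hd i j hij, k1, k2,
      h1, h4, JumpL.neither (hF k) k1 k2⟩
  · have k1 : e₁ ∉ F k := dis e₁ j k hjk h3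
    have k2 : e₂ ∉ F k := dis e₂ i k hik h2
    exact ⟨F k, F j, F i, hF k, hF j, hF i, hd k j hjk.symm, hd k i hik.symm, hd j i hij.symm,
      k1, k2, h3, h2, JumpL.neither (hF k) k1 k2⟩
  · exact absurd h4 (dis e₂ i j hij h2)

end RGraph.KT
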