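import Pool.Agent.Work.MP_426d99_co.KT.St2

/-!
# `𝒯(r, 2)` is nonempty and contained in `ℋ_r` for `r ≥ 5`: the assembly
-/

open Finset Classical

namespace RGraph.KT

/-- (MAIN) from the order of the constructed graphs and the bound for a skipped value. -/
theorem I_Main (h1 : StOrder) (h2 : StLen) (h3 : StBound) : StMain := by
  intro r hr
  have hex : ∃ n, Low r 2 n := exists_low le_rfl (by omega)
  obtain ⟨n, hn, hmin⟩ : ∃ n, Low r 2 n ∧ ∀ m, Low r 2 m → n ≤ m :=
    ⟨Nat.find hex, Nat.find_spec hex, fun m hm => Nat.find_min' hex hm⟩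
  have hQ : ∃ (V E : Type) (_ : Finite V) (_ : Finite E) (ends : E → Sym2 V),
      IsRGraph r ends ∧ PiEq ends 2 ∧ Nat.card V ≤ n := by
    by_contra hno
    have hJ : Jump r n := by
      intro V E _ _ ends hr' hc h2'
      by_contra h3'
      exact hno ⟨V, E, inferInstance, inferInstance, ends, hr', piEq_iff.2 ⟨h2', h3'⟩, hc.le⟩
    have hM : MinLow r n := by
      intro V E _ _ ends hr' hlt
      by_contra h
      have := hmin _ ⟨V, E, inferInstance, inferInstance, ends, hr', h, rfl⟩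
      omega
    obtain ⟨V, E, fV, fE, ends, hr', hnot, hcard⟩ := hn
    have := Fintype.ofFinite V
    have hb := h3 r n hr hJ hM V E ends hr' (by rw [← Nat.card_eq_fintype_card]; exact hcard) hnot
    obtain ⟨V', E', fV', fE', ends', hr'', hpi, hc', -⟩ := h1 r 2 (by omega) (by omega)
    refine hno ⟨V', E', fV', fE', ends', hr'', hpi, ?_⟩
    rw [hc', h2.2.2.1 r]
    omega
  obtain ⟨V₀, E₀, fV₀, fE₀, ends₀, hr₀, hpi₀, hc₀⟩ := hQ
  refine ⟨?_, ?_⟩
  · let P : ℕ → Prop := fun m => ∃ (V E : Type) (_ : Finite V) (_ : Finite E)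
      (ends : E → Sym2 V), IsRGraph r ends ∧ PiEq ends 2 ∧ Nat.card V = m
    have hP : ∃ m, P m := ⟨_, V₀, E₀, fV₀, fE₀, ends₀, hr₀, hpi₀, rfl⟩
    obtain ⟨V₁, E₁, fV₁, fE₁, ends₁, hr₁, hpi₁, hc₁⟩ := Nat.find_spec hP
    refine ⟨V₁, E₁, fV₁, fE₁, ends₁, hr₁, hpi₁, ?_⟩
    intro V' E' _ _ ends' hr' hpi'
    rw [hc₁]
    exact Nat.find_min' hP ⟨V', E', inferInstance, inferInstance, ends', hr', hpi', rfl⟩
  · intro V E _ _ ends hT
    apply inH_of hT
    intro V' E' _ _ ends' hr' hn'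
    by_contra hlt
    by_cases hk' : HasPMs ends' 2
    · have := hT.2.2 V' E' ends' hr' (piEq_iff.2 ⟨hk', hn'⟩)
      omega
    · have ha := hmin (Nat.card V') ⟨V', E', inferInstance, inferInstance, ends', hr', hk', rfl⟩
      have hb := hT.2.2 V₀ E₀ ends₀ hr₀ hpi₀
      omega

end RGraph.KT
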