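import Pool.Agent.Work.MP_426d99_co.KT.St2

/-!
# Few edges in a graph without triangles and 4-cycles
-/

open Finset Classical

namespace RGraph.KT.Moore

variable {V : Type} [Fintype V]

/-- The number of common neighbours in `Z`. -/
noncomputable def cod (G : SimpleGraph V) (Z : Finset V) (v w : V) : ℕ :=
  (Z.filter (fun u => G.Adj u v ∧ G.Adj u w)).card

theorem sum_sq (G : SimpleGraph V) (Z : Finset V) :
    ∑ u ∈ Z, (ee G {u} Z) ^ 2 = ∑ v ∈ Z, ∑ w ∈ Z, cod G Z v w := by
  have h1 : ∀ u ∈ Z, (ee G {u} Z) ^ 2 =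
      ∑ v ∈ Z, ∑ w ∈ Z, if (G.Adj u v ∧ G.Adj u w) then 1 else 0 := by
    intro u _
    rw [ee_single, Finset.card_filter, sq, Finset.sum_mul_sum]
    apply Finset.sum_congr rfl
    intro v _
    apply Finset.sum_congr rfl
    intro w _
    by_cases h : G.Adj u v <;> by_cases h' : G.Adj u w <;> simp [h, h']
  rw [Finset.sum_congr rfl h1, Finset.sum_comm]
  apply Finset.sum_congr rfl
  intro v _
  rw [Finset.sum_comm]
  apply Finset.sum_congr rfl
  intro w _
  rw [cod, Finset.card_filter]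

omit [Fintype V] in
theorem cod_le (G : SimpleGraph V) (Z : Finset V) (h : C34free G Z) {v w : V} (hv : v ∈ Z)
    (hw : w ∈ Z) (hvw : v ≠ w) : cod G Z v w + (if G.Adj v w then 1 else 0) ≤ 1 := by
  by_cases ha : G.Adj v w
  · rw [if_pos ha]
    have h0 : cod G Z v w = 0 := by
      rw [cod, Finset.card_eq_zero, Finset.filter_eq_empty_iff]
      rintro u hu ⟨h1, h2⟩
      exact h.1 u hu v hv w hw h1 ha h2.symm
    omega
  · rw [if_neg ha, add_zero, cod, Finset.card_le_one]
    intro a ha' b hb'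
    simp only [Finset.mem_filter] at ha' hb'
    by_contra hab
    exact h.2 v hv a ha'.1 w hw b hb'.1 hvw hab ha'.2.1.symm ha'.2.2 hb'.2.2.symm hb'.2.1

end RGraph.KT.Moore

namespace RGraph.KT

theorem I_Moore : StMoore := by
  intro V _ G Z h
  have h1 : ∑ u ∈ Z, (ee G {u} Z) ^ 2 ≤ Z.card * (Z.card - 1) := by
    rw [Moore.sum_sq]
    have h2 : ∀ v ∈ Z, ∑ w ∈ Z, Moore.cod G Z v w + ee G {v} Z ≤
        ee G Z {v} + (Z.card - 1) := by
      intro v hv
      rw [← Finset.add_sum_erase Z _ hv]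
      have h3 : Moore.cod G Z v v = ee G Z {v} := by
        rw [ee_symm, ee_single, Moore.cod]
        congr 1
        ext u
        simp only [Finset.mem_filter, and_self]
        rw [G.adj_comm]
      have h4 : ee G {v} Z = ∑ w ∈ Z.erase v, if G.Adj v w then 1 else 0 := by
        rw [ee_single, Finset.card_filter, ← Finset.add_sum_erase Z _ hv]
        simp
      rw [h3, add_assoc, h4, ← Finset.sum_add_distrib]
      apply Nat.add_le_add_left
      rw [← Finset.card_erase_of_mem hv]
      calc ∑ w ∈ Z.erase v, (Moore.cod G Z v w + if G.Adj v w then 1 else 0)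
          ≤ ∑ w ∈ Z.erase v, 1 := by
            apply Finset.sum_le_sum
            intro w hw
            rw [Finset.mem_erase] at hw
            exact Moore.cod_le G Z h hv hw.2 (Ne.symm hw.1)
        _ = (Z.erase v).card := by simp
    have h5 := Finset.sum_le_sum h2
    rw [Finset.sum_add_distrib, Finset.sum_add_distrib, ← ee_sum_left, Finset.sum_const,
      smul_eq_mul] at h5
    have h6 : ∑ v ∈ Z, ee G Z {v} = ee G Z Z := by
      rw [ee_sum_left G Z Z]
      exact Finset.sum_congr rfl (fun v _ => ee_symm G Z {v})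
    rw [h6] at h5
    omega
  have h7 : (ee G Z Z) ^ 2 ≤ Z.card * ∑ u ∈ Z, (ee G {u} Z) ^ 2 := by
    rw [ee_sum_left G Z Z]
    exact sq_sum_le_card_mul_sum_sq
  calc (ee G Z Z) ^ 2 ≤ Z.card * ∑ u ∈ Z, (ee G {u} Z) ^ 2 := h7
    _ ≤ Z.card * (Z.card * (Z.card - 1)) := Nat.mul_le_mul_left _ h1
    _ = Z.card ^ 2 * (Z.card - 1) := by ring

end RGraph.KT
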