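import Pool.Agent.Work.MP_426d99_co.KT.St2

open Finset Classical

namespace RGraph.KT

namespace Num

lemma num1 (d z t m : ℕ) (hd : 4 ≤ d) (hz : Odd z) (ht : t + 2 ≤ d) (hm : m + t = d * z)
    (h : m ^ 2 ≤ z ^ 2 * (z - 1)) : d ^ 2 ≤ z + 1 := by
  obtain ⟨k, rfl⟩ := hz
  have e : 2 * k + 1 - 1 = 2 * k := by omega
  rw [e] at h
  rcases Nat.eq_zero_or_pos k with hk | hk
  · subst hk
    simp at h hm
    subst h
    omega
  · by_contra hcon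
    push Not at hcon
    have h1 : 2 * (d * k) + 2 ≤ m := by nlinarith
    have h2 : (2 * (d * k) + 2) ^ 2 ≤ m ^ 2 := Nat.pow_le_pow_left h1 2
    have h3 : (2 * k + 3) * k ^ 2 ≤ d ^ 2 * k ^ 2 := Nat.mul_le_mul_right _ (by omega)
    nlinarith [Nat.mul_le_mul hk hk, Nat.zero_le (d * k)]

lemma num2 (d y t m : ℕ) (hd : 4 ≤ d) (hy : Even y) (hy4 : 4 ≤ y) (ht : t + 2 ≤ 2 * d)
    (hm : m + t = d * y) (h : m ^ 2 ≤ y ^ 2 * (y - 1)) : d ^ 2 ≤ y + 3 := by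
  obtain ⟨k, rfl⟩ := hy
  obtain ⟨j, rfl⟩ : ∃ j, k = j + 2 := ⟨k - 2, by omega⟩
  have e : j + 2 + (j + 2) - 1 = 2 * j + 3 := by omega
  rw [e] at h
  by_contra hcon
  push Not at hcon
  have h1 : 2 * (d * (j + 1)) + 2 ≤ m := by nlinarith
  have h2 : (2 * (d * (j + 1)) + 2) ^ 2 ≤ m ^ 2 := Nat.pow_le_pow_left h1 2
  have h4 : 4 * (j + 1) ≤ d * (j + 1) := Nat.mul_le_mul_right _ hd
  have h5 : (2 * (4 * (j + 1)) + 2) ^ 2 ≤ (2 * (d * (j + 1)) + 2) ^ 2 :=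
    Nat.pow_le_pow_left (by omega) 2
  have h6 := (h5.trans h2).trans h
  rcases Nat.lt_or_ge j 4 with hj | hj
  · interval_cases j <;> omega
  · have h3 : (2 * j + 8) * (j + 1) ^ 2 ≤ d ^ 2 * (j + 1) ^ 2 :=
      Nat.mul_le_mul_right _ (by omega)
    have h7 := h2.trans h
    obtain ⟨i, rfl⟩ : ∃ i, j = i + 4 := ⟨j - 4, by omega⟩
    nlinarith

lemma num3 (d z m : ℕ) (_ : 1 ≤ d) (hz : 1 ≤ z) (hm : d * z ≤ m)
    (h : m ^ 2 ≤ z ^ 2 * (z - 1)) : d ^ 2 + 1 ≤ z := by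
  have h1 : (d * z) ^ 2 ≤ m ^ 2 := Nat.pow_le_pow_left hm 2
  have h2 : z ^ 2 * d ^ 2 ≤ z ^ 2 * (z - 1) := by
    calc z ^ 2 * d ^ 2 = (d * z) ^ 2 := by ring
      _ ≤ _ := h1.trans h
  have h3 := Nat.le_of_mul_le_mul_left h2 (by positivity)
  omega

lemma q_le (d : ℕ) : 4 * (d ^ 2 / 4) ≤ d ^ 2 := Nat.mul_div_le _ _

lemma q_ge (d : ℕ) (hd : 4 ≤ d) : 4 ≤ d ^ 2 / 4 := by
  rw [Nat.le_div_iff_mul_le (by norm_num)]
  nlinarith

end Num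

open Num in
theorem I_Num : StNum := by
  refine ⟨num1, num2, num3, ?_, ?_, ?_, ?_⟩
  · intro d n hd h
    have := q_le d
    have := q_ge d hd
    omega
  · intro d n hd h
    have := q_le d
    have := q_ge d hd
    omega
  · intro d n hd h
    have h1 := q_le d
    obtain ⟨e, rfl⟩ : ∃ e, d = e + 4 := ⟨d - 4, by omega⟩
    have e1 : e + 4 - 1 = e + 3 := by omega
    rw [e1] at h
    nlinarith
  · intro d a b hd ha hb hoa hob
    have h1 := q_le d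
    obtain ⟨e, rfl⟩ : ∃ e, d = e + 4 := ⟨d - 4, by omega⟩
    have e1 : e + 4 - 1 = e + 3 := by omega
    rw [e1] at ha hb
    have ha' : 2 * ((e + 3) ^ 2 + 1) + 1 ≤ a := by
      obtain ⟨x, hx⟩ := hoa
      omega
    have hb' : 2 * ((e + 3) ^ 2 + 1) + 1 ≤ b := by
      obtain ⟨x, hx⟩ := hob
      omega
    nlinarith

end RGraph.KT
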