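import Pool.Agent.Work.MP_426d99_co.KT.St2

/-!
# Two involutions (item Orb)
-/

set_option autoImplicit false

open Finset Classical

namespace RGraph.KT

namespace Orb

variable {V : Type}

lemma zz (f : Equiv.Perm V) (i j : ℤ) (v : V) : (f ^ i) ((f ^ j) v) = (f ^ (i + j)) v := by
  rw [zpow_add, Equiv.Perm.mul_apply]

lemma z1 (f : Equiv.Perm V) (j : ℤ) (v : V) : f ((f ^ j) v) = (f ^ (1 + j)) v := by
  rw [zpow_one_add, Equiv.Perm.mul_apply]

/-- `t (s t)^k = (s t)^(-k) t`. -/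
lemma comm (s t : Equiv.Perm V) (hs : ∀ v, s (s v) = v) (ht : ∀ v, t (t v) = v) (k : ℤ) (v : V) :
    t (((s * t) ^ k) v) = ((s * t) ^ (-k)) (t v) := by
  have ht1 : t⁻¹ = t := by
    ext w
    rw [Equiv.Perm.inv_eq_iff_eq, ht]
  have hs1 : s⁻¹ = s := by
    ext w
    rw [Equiv.Perm.inv_eq_iff_eq, hs]
  have h1 : t * (s * t) * t⁻¹ = (s * t)⁻¹ := by
    rw [mul_inv_rev, ht1, hs1]
    ext w
    simp only [Equiv.Perm.mul_apply, ht]
  have h2 : (s * t) ^ (-k) = t * (s * t) ^ k * t⁻¹ := by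
    rw [← conj_zpow, h1, inv_zpow, zpow_neg]
  rw [h2]
  simp only [Equiv.Perm.mul_apply, ht1, ht]

/-- The orbit of `c` and its image under `t` are disjoint. -/
lemma disj (s t : Equiv.Perm V) (hs : ∀ v, s (s v) = v) (ht : ∀ v, t (t v) = v)
    (hs' : ∀ v, s v ≠ v) (ht' : ∀ v, t v ≠ v) (c : V) (i j : ℤ) :
    t (((s * t) ^ i) c) ≠ ((s * t) ^ j) c := by
  intro h
  rw [comm s t hs ht] at h
  have h1 : t c = ((s * t) ^ (i + j)) c := by
    have h2 := congrArg ((s * t) ^ i) h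
    rw [zz, zz] at h2
    simpa using h2
  rcases Int.even_or_odd (i + j) with ⟨l, hl⟩ | ⟨l, hl⟩
  · apply ht' (((s * t) ^ l) c)
    rw [comm s t hs ht, h1, hl, zz]
    congr 2
    ring
  · apply hs' (((s * t) ^ (l + 1)) c)
    have e : ∀ w, s w = (s * t) (t w) := by
      intro w
      rw [Equiv.Perm.mul_apply, ht]
    rw [e, comm s t hs ht, h1, hl, zz, z1]
    congr 2
    ring

end Orb

theorem I_Orb : StOrb := by
  intro V _ σ τ hσ hτ a b c d hac hbd nab nac nad nbc nbd ncd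
  set s : Equiv.Perm V := Function.Involutive.toPerm σ (fun v => (hσ v).1) with hs
  set t : Equiv.Perm V := Function.Involutive.toPerm τ (fun v => (hτ v).1) with ht
  have es : ∀ v, s v = σ v := fun v => rfl
  have et : ∀ v, t v = τ v := fun v => rfl
  have ss : ∀ v, s (s v) = v := fun v => (hσ v).1
  have tt : ∀ v, t (t v) = v := fun v => (hτ v).1
  have sn : ∀ v, s v ≠ v := fun v => (hσ v).2
  have tn : ∀ v, t v ≠ v := fun v => (hτ v).2
  have hdisj := Orb.disj s t ss tt sn tn c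
  have hcomm := Orb.comm s t ss tt
  -- the second alternative
  have alt2 : ∀ z z' : V, t z = z' → z ≠ c → (∃ k : ℤ, ((s * t) ^ k) c = z) →
      ∃ U : Set V, (∀ v ∈ U, σ v ∈ U) ∧ c ∉ U ∧ z' ∉ U ∧ z ∈ U ∧
        ∀ v, v ∉ U → v ≠ c → v ≠ z' → τ v ∉ U ∧ τ v ≠ c ∧ τ v ≠ z' := by
    intro z z' hzz hzc hk
    have hnat : ∃ n : ℕ, ((s * t) ^ n) c = z := by
      obtain ⟨k, hk⟩ := hk
      have h1 : (s * t) ^ k ∈ Subgroup.zpowers (s * t) := ⟨k, rfl⟩
      rw [← mem_powers_iff_mem_zpowers] at h1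
      obtain ⟨n, hn⟩ := h1
      refine ⟨n, ?_⟩
      rw [← hk]
      exact congrArg (fun g : Equiv.Perm V => g c) hn
    set m := Nat.find hnat with hm
    have hmz : ((s * t) ^ m) c = z := Nat.find_spec hnat
    have hmin : ∀ n, n < m → ((s * t) ^ n) c ≠ z := fun n hn => Nat.find_min hnat hn
    have hm0 : 0 < m := by
      rcases Nat.eq_zero_or_pos m with h | h
      · exfalso
        rw [h] at hmz
        exact hzc (by simpa using hmz.symm)
      · exact h
    have hdN : ∀ i j : ℕ, t (((s * t) ^ i) c) ≠ ((s * t) ^ j) c := by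
      intro i j
      have := hdisj i j
      rwa [zpow_natCast, zpow_natCast] at this
    have hsucc : ∀ i : ℕ, ((s * t) ^ (i + 1)) c = s (t (((s * t) ^ i) c)) := by
      intro i
      rw [pow_succ', Equiv.Perm.mul_apply, Equiv.Perm.mul_apply]
    refine ⟨{v | ∃ i, i < m ∧ (v = ((s * t) ^ (i + 1)) c ∨ v = t (((s * t) ^ i) c))}, ?_, ?_, ?_,
      ?_, ?_⟩
    · rintro v ⟨i, hi, rfl | rfl⟩
      · refine ⟨i, hi, Or.inr ?_⟩
        rw [hsucc, ← es, ss]
      · refine ⟨i, hi, Or.inl ?_⟩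
        rw [hsucc, ← es]
    · rintro ⟨i, hi, h | h⟩
      · apply hmin (m - (i + 1)) (by omega)
        rw [← hmz]
        have e : m = (m - (i + 1)) + (i + 1) := by omega
        conv_rhs => rw [e, pow_add, Equiv.Perm.mul_apply, ← h]
      · exact hdN i 0 (by rw [← h]; simp)
    · rintro ⟨i, hi, h | h⟩
      · rw [← hzz, ← hmz] at h
        exact hdN m (i + 1) h
      · rw [← hzz] at h
        exact hmin i hi (t.injective h).symm
    · refine ⟨m - 1, by omega, Or.inl ?_⟩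
      have e : m - 1 + 1 = m := by omega
      rw [e, hmz]
    · intro v hv hvc hvz
      refine ⟨?_, ?_, ?_⟩
      · rintro ⟨i, hi, h | h⟩
        · rw [← et] at h
          have h1 : v = t (((s * t) ^ (i + 1)) c) := by rw [← h, tt]
          by_cases hi1 : i + 1 < m
          · exact hv ⟨i + 1, hi1, Or.inr h1⟩
          · have e : i + 1 = m := by omega
            rw [e, hmz, hzz] at h1
            exact hvz h1
        · rw [← et] at h
          have h1 : v = ((s * t) ^ i) c := t.injective h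
          rcases Nat.eq_zero_or_pos i with h0 | h0
          · rw [h0] at h1
            exact hvc (by simpa using h1)
          · refine hv ⟨i - 1, by omega, Or.inl ?_⟩
            have e : i - 1 + 1 = i := by omega
            rw [e, h1]
      · intro h
        refine hv ⟨0, hm0, Or.inr ?_⟩
        rw [← et] at h
        rw [pow_zero, Equiv.Perm.one_apply, ← h, tt]
      · intro h
        rw [← et, ← hzz] at h
        have h1 : v = z := t.injective h
        refine hv ⟨m - 1, by omega, Or.inl ?_⟩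
        have e : m - 1 + 1 = m := by omega
        rw [e, hmz, h1]
  by_cases hb : ∃ k : ℤ, ((s * t) ^ k) c = b
  · right
    obtain ⟨U, h1, h2, h3, h4, h5⟩ := alt2 b d hbd nbc hb
    exact ⟨U, b, d, Or.inl ⟨rfl, rfl⟩, h1, h2, h3, h4, h5⟩
  by_cases hd : ∃ k : ℤ, ((s * t) ^ k) c = d
  · right
    have hdb : t d = b := by rw [← hbd, ← et, tt]
    obtain ⟨U, h1, h2, h3, h4, h5⟩ := alt2 d b hdb (Ne.symm ncd) hd
    exact ⟨U, d, b, Or.inr ⟨rfl, rfl⟩, h1, h2, h3, h4, h5⟩
  left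
  have esv : ∀ w, s w = (s * t) (t w) := by
    intro w
    rw [Equiv.Perm.mul_apply, tt]
  refine ⟨{v | (¬ ∃ k : ℤ, ((s * t) ^ k) c = v) ∧ ¬ ∃ k : ℤ, ((s * t) ^ k) c = t v}, ?_, ?_, ?_,
    ?_, ?_, ?_⟩
  · rintro v ⟨h1, h2⟩
    refine ⟨?_, ?_⟩
    · rintro ⟨k, hk⟩
      rw [← es] at hk
      apply h2
      refine ⟨k - 1, ?_⟩
      have e : v = s (((s * t) ^ k) c) := by rw [hk, ss]
      rw [e, esv, hcomm, Orb.z1, hcomm, tt]
      congr 2
      ring
    · rintro ⟨k, hk⟩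
      apply h1
      rw [← es] at hk
      refine ⟨k + 1, ?_⟩
      rw [add_comm, zpow_one_add, Equiv.Perm.mul_apply, hk, Equiv.Perm.mul_apply, tt, ss]
  · rintro v ⟨h1, h2⟩
    refine ⟨h2, ?_⟩
    rintro ⟨k, hk⟩
    apply h1
    refine ⟨k, ?_⟩
    rw [hk, ← et, tt]
  · rintro ⟨h1, h2⟩
    apply h2
    refine ⟨-1, ?_⟩
    rw [zpow_neg_one, Equiv.Perm.inv_eq_iff_eq, Equiv.Perm.mul_apply, tt, es, hac]
  · rintro ⟨h1, h2⟩
    exact h1 ⟨0, by simp⟩
  · refine ⟨hb, ?_⟩
    rw [et, hbd]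
    exact hd
  · refine ⟨hd, ?_⟩
    rw [← hbd, ← et, tt]
    exact hb

end RGraph.KT
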