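import Pool.Agent.Work.MP_426d99_co.KT.St2

/-!
# Block KT2, item Simple: the low graphs are simple
-/

open Finset Classical

namespace RGraph.KT

namespace Simple

variable {V E : Type}

/-- The edges with the ends `a`, `c`. -/
def par (ends : E → Sym2 V) (a c : V) : Set E := {e | ends e = s(a, c)}

theorem par_sub_boundary {ends : E → Sym2 V} {a c : V} (hac : a ≠ c) :
    par ends a c ⊆ boundary ends {a} := by
  intro e he
  exact ⟨a, rfl, c, by simpa using hac.symm, he⟩

theorem full_case [Finite V] [Finite E] {r n : ℕ} (hM : MinLow r n)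
    {ends : E → Sym2 V} (h : IsRGraph r ends) (hn : Nat.card V = n) {a c : V} (hac : a ≠ c)
    (hμ : r ≤ (par ends a c).ncard) {e₃ e₄ : E} (h3 : ends e₃ = s(a, c))
    (h4 : ends e₄ = s(a, c)) (h34 : e₃ ≠ e₄) : HasPMs ends 2 := by
  have hA : par ends a c = boundary ends {a} :=
    Set.eq_of_subset_of_ncard_le (par_sub_boundary hac) (by rw [h.regular a]; exact hμ)
      (Set.toFinite _)
  have hC : par ends a c = boundary ends {c} := by
    refine Set.eq_of_subset_of_ncard_le ?_ (by rw [h.regular c]; exact hμ) (Set.toFinite _)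
    intro e he
    exact ⟨c, rfl, a, by simpa using hac, by rw [Sym2.eq_swap]; exact he⟩
  set S : Set V := {a, c} with hSdef
  have hS : boundary ends S = ∅ := by
    rw [Set.eq_empty_iff_forall_notMem]
    rintro e ⟨x, hx, y, hy, hxy⟩
    simp only [hSdef, Set.mem_insert_iff, Set.mem_singleton_iff, not_or] at hx hy
    rcases hx with rfl | rfl
    · have : e ∈ par ends x c := by
        rw [hA]
        exact ⟨x, rfl, y, by simpa using hy.1, hxy⟩
      have h5 : s(x, y) = s(x, c) := by rw [← hxy]; exact this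
      rcases Sym2.eq_iff.1 h5 with ⟨-, h6⟩ | ⟨h6, -⟩
      · exact hy.2 h6
      · exact hac h6
    · have : e ∈ par ends a x := by
        rw [hC]
        exact ⟨x, rfl, y, by simpa using hy.2, hxy⟩
      have h5 : s(x, y) = s(a, x) := by rw [← hxy]; exact this
      rcases Sym2.eq_iff.1 h5 with ⟨h6, -⟩ | ⟨-, h6⟩
      · exact hac h6.symm
      · exact hy.1 h6
  have hS' : boundary ends Sᶜ = ∅ := by rw [boundary_compl, hS]
  have hmem : ∀ {e : E}, ends e = s(a, c) → ∀ x ∈ ends e, x ∈ S := by
    intro e he x hx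
    rw [he, Sym2.mem_iff] at hx
    simpa [hSdef] using hx
  have hPM : ∀ {e : E} (he : ends e = s(a, c)),
      IsPM (sub ends S) {(⟨e, hmem he⟩ : {e : E // ∀ x ∈ ends e, x ∈ S})} := by
    intro e he v
    refine ⟨⟨e, hmem he⟩, ⟨rfl, ?_⟩, ?_⟩
    · rw [mem_sub]
      have hv : v.1 = a ∨ v.1 = c := v.2
      show v.1 ∈ ends e
      rw [he, Sym2.mem_iff]
      exact hv
    · rintro e' ⟨he', -⟩
      exact he'
  have h1 : HasPMs (sub ends S) 2 := by
    refine ⟨fun i => if i = 0 then {(⟨e₃, hmem h3⟩ : {e : E // ∀ x ∈ ends e, x ∈ S})} else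
      {(⟨e₄, hmem h4⟩ : {e : E // ∀ x ∈ ends e, x ∈ S})}, ?_, ?_⟩
    · intro i
      by_cases hi : i = 0
      · simp only [hi, if_true]; exact hPM h3
      · simp only [hi, if_false]; exact hPM h4
    · intro i j hij
      have hne : (⟨e₃, hmem h3⟩ : {e : E // ∀ x ∈ ends e, x ∈ S}) ≠ ⟨e₄, hmem h4⟩ := by
        intro h'
        exact h34 (congrArg Subtype.val h')
      by_cases hi : i = 0
      · have hj : j ≠ 0 := fun h' => hij (hi.trans h'.symm)
        simp only [hi, hj, if_true, if_false]
        rw [Set.disjoint_singleton]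
        exact hne
      · have hj : j = 0 := by
          have hi' : i.1 ≠ 0 := fun h' => hi (Fin.ext h')
          have hij' : i.1 ≠ j.1 := fun h' => hij (Fin.ext h')
          apply Fin.ext
          have := i.2
          have := j.2
          show j.1 = 0
          omega
        simp only [hi, hj, if_true, if_false]
        rw [Set.disjoint_singleton]
        exact hne.symm
  have h2 : HasPMs (sub ends Sᶜ) 2 := by
    refine hM _ _ (sub ends Sᶜ) (sub_isRGraph h hS') ?_
    have e1 : Nat.card (Sᶜ : Set V) = Sᶜ.ncard := Nat.card_coe_set_eq _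
    rw [e1, ← hn, ← Set.ncard_univ]
    refine Set.ncard_lt_ncard ?_ (Set.toFinite _)
    rw [Set.ssubset_univ_iff]
    intro h'
    have : a ∈ Sᶜ := h' ▸ Set.mem_univ a
    exact this (by simp [hSdef])
  exact hasPMs_union hS h1 h2

theorem par_le (hD : StDouble) {r n : ℕ} (hr : 1 ≤ r) (hJ : Jump r n) (hM : MinLow r n)
    (V E : Type) [Finite V] [Finite E] (hn : Nat.card V = n) (j : ℕ) :
    ∀ (ends : E → Sym2 V), IsRGraph r ends → ¬ HasPMs ends 2 → ∀ a c, a ≠ c →
      r ≤ (par ends a c).ncard + j → (par ends a c).ncard ≤ 1 := by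
  induction j with
  | zero =>
    intro ends h hlow a c hac hj
    by_contra hcon
    push Not at hcon
    obtain ⟨e₃, h3, e₄, h4, h34⟩ := (Set.one_lt_ncard (Set.toFinite _)).1 hcon
    exact hlow (full_case hM h hn hac (by simpa using hj) h3 h4 h34)
  | succ j ih =>
    intro ends h hlow a c hac hj
    by_contra hcon
    push Not at hcon
    obtain ⟨e₃, h3, e₄, h4, h34⟩ := (Set.one_lt_ncard (Set.toFinite _)).1 hcon
    rcases Nat.lt_or_ge (par ends a c).ncard r with hlt | hge
    swap
    · exact hlow (full_case hM h hn hac hge h3 h4 h34)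
    obtain ⟨e₁, e₂, b, d, h1, h2, hbc, hda, hgood⟩ := exists_good h hac hlt
    have hab : a ≠ b := ne_of_ends h h1
    have hcd : c ≠ d := ne_of_ends h h2
    have hbd : b ≠ d := by
      rintro rfl
      refine hgood {b} ⟨by simp, h.regular b, by simpa using hab, by simpa using hbc.symm⟩ ?_
      simp
    have hsw : IsRGraph r (sw ends e₁ e₂ a b c d) := sw_isRGraph hr h h1 h2 hac hbc hgood
    by_cases hlow' : HasPMs (sw ends e₁ e₂ a b c d) 2
    · have hthree := hJ V E _ hsw hn hlow'
      exact hlow (hD V E ends e₁ e₂ e₃ e₄ a b c d h1 h2 hab hac hda.symm hbc hbd hcd h3 h4 h34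
        hthree)
    · have hne : e₁ ≠ e₂ := by
        rintro rfl
        rw [h1] at h2
        rcases Sym2.eq_iff.1 h2 with ⟨h5, -⟩ | ⟨-, h5⟩
        · exact hac h5
        · exact hbc h5
      have hn1 : e₁ ∉ par ends a c := by
        intro h5
        have h6 : s(a, b) = s(a, c) := by rw [← h1]; exact h5
        rcases Sym2.eq_iff.1 h6 with ⟨-, h7⟩ | ⟨h7, -⟩
        · exact hbc h7
        · exact hac h7
      have hn2 : e₂ ∉ par ends a c := by
        intro h5
        have h6 : s(c, d) = s(a, c) := by rw [← h2]; exact h5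
        rcases Sym2.eq_iff.1 h6 with ⟨h7, -⟩ | ⟨-, h7⟩
        · exact hac h7.symm
        · exact hda h7
      have hsub : insert e₁ (par ends a c) ⊆ par (sw ends e₁ e₂ a b c d) a c := by
        intro e he
        rcases he with rfl | he
        · exact sw_one hne
        · have h5 : e ≠ e₁ := fun h' => hn1 (h' ▸ he)
          have h6 : e ≠ e₂ := fun h' => hn2 (h' ▸ he)
          show sw ends e₁ e₂ a b c d e = s(a, c)
          rw [sw_other h5 h6]
          exact he
      have hcard := Set.ncard_le_ncard hsub (Set.toFinite _)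
      rw [Set.ncard_insert_of_notMem hn1 (Set.toFinite _)] at hcard
      have := ih _ hsw hlow' a c hac (by omega)
      omega

end Simple

open Simple in
theorem I_Simple (h : StDouble) : StSimple := by
  intro r n hr hJ hM V E _ _ ends hG hn hlow e e' hee
  by_contra hne
  obtain ⟨u, v, huv⟩ := exists_ends ends e
  have huv' : u ≠ v := ne_of_ends hG huv
  have h1 := par_le h (by omega) hJ hM V E hn r ends hG hlow u v huv' (by omega)
  have h2 : 1 < (par ends u v).ncard := by
    refine (Set.one_lt_ncard (Set.toFinite _)).2 ⟨e, huv, e', ?_, hne⟩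
    show ends e' = s(u, v)
    rw [← hee]; exact huv
  omega

end RGraph.KT
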