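import Pool.Agent.Work.MP_426d99_co.KT.St2

/-!
# A minimal nontrivial tight set is large
-/

open Finset Classical

namespace RGraph.KT

namespace Tight

variable {V : Type} [Fintype V]

/-- Boundary of `X` without a vertex. -/
theorem ee_erase (K : SimpleGraph V) (D : ℕ) (hK : Reg K D) (X : Finset V) (w : V) (hw : w ∈ X) :
    ee K (X.erase w) (X.erase w)ᶜ + 2 * ee K {w} Xᶜ = D + ee K X Xᶜ := by
  have hd : Disjoint (X.erase w) ({w} : Finset V) := by
    rw [Finset.disjoint_singleton_right]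
    exact Finset.notMem_erase w X
  have hX : X.erase w ∪ {w} = X := by
    ext v
    simp only [Finset.mem_union, Finset.mem_erase, Finset.mem_singleton]
    by_cases h : v = w
    · subst h
      simp [hw]
    · simp [h]
  have hWc : (X.erase w)ᶜ = {w} ∪ Xᶜ := by
    ext v
    simp only [Finset.mem_union, Finset.mem_compl, Finset.mem_erase, Finset.mem_singleton]
    by_cases h : v = w
    · simp [h]
    · simp [h]
  have hd2 : Disjoint ({w} : Finset V) Xᶜ := by
    rw [Finset.disjoint_singleton_left, Finset.mem_compl]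
    exact fun h => h hw
  have h1 : ee K X Xᶜ = ee K (X.erase w) Xᶜ + ee K {w} Xᶜ := by
    have h := ee_union_left K Xᶜ hd
    rw [hX] at h
    exact h
  have h2 : ee K (X.erase w) (X.erase w)ᶜ = ee K (X.erase w) {w} + ee K (X.erase w) Xᶜ := by
    rw [hWc]
    exact ee_union_right K _ hd2
  have h3 : ee K {w} univ = D := hK w
  have h4 : ee K {w} X + ee K {w} Xᶜ = ee K {w} univ := ee_compl_add K {w} X
  have h5 : ee K {w} X = ee K {w} (X.erase w) + ee K {w} {w} := by
    have h := ee_union_right K {w} hd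
    rw [hX] at h
    exact h
  have h6 : ee K {w} {w} = 0 := by
    rw [ee_eq_zero_iff]
    intro u hu v hv
    rw [Finset.mem_singleton] at hu hv
    subst hu
    subst hv
    exact K.irrefl
  have h7 : ee K (X.erase w) {w} = ee K {w} (X.erase w) := ee_symm K _ _
  omega

/-- Gluing a matching of `X - w` and a matching outside. -/
noncomputable def glue (W : Finset V) (w x : V) (n m : V → V) : V → V :=
  fun v => if v ∈ W then n v else if v = w then x else m v

omit [Fintype V] in
theorem glue_in {W : Finset V} {w x : V} {n m : V → V} {v : V} (hv : v ∈ W) :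
    glue W w x n m v = n v := if_pos hv

omit [Fintype V] in
theorem glue_w {X : Finset V} {w x : V} {n m : V → V} :
    glue (X.erase w) w x n m w = x := by
  unfold glue
  rw [if_neg (Finset.notMem_erase w X), if_pos rfl]

omit [Fintype V] in
theorem glue_out {X : Finset V} {w x : V} {n m : V → V} {v : V} (hw : w ∈ X) (hv : v ∉ X) :
    glue (X.erase w) w x n m v = m v := by
  unfold glue
  rw [if_neg (fun h => hv (Finset.mem_of_mem_erase h)), if_neg]
  intro h
  exact hv (h ▸ hw)

theorem glue_pm {G K : SimpleGraph V} (hK : ∀ u v, K.Adj u v → G.Adj u v) {X : Finset V}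
    {m : V → V} {w x : V} (hm : OutPM G X m w x) {n : V → V} (hn : PMon K (X.erase w) n) :
    PMon G univ (glue (X.erase w) w x n m) := by
  obtain ⟨hw, hx, hadj, hmx, hout⟩ := hm
  intro v _
  refine ⟨Finset.mem_univ _, ?_⟩
  by_cases h1 : v ∈ X.erase w
  · obtain ⟨h2, h3, h4⟩ := hn v h1
    rw [glue_in h1, glue_in h2]
    exact ⟨hK _ _ h3, h4⟩
  · by_cases h2 : v = w
    · subst h2
      rw [glue_w, glue_out hw hx]
      exact ⟨hadj.symm, hmx⟩
    · have h3 : v ∉ X := fun h => h1 (Finset.mem_erase.2 ⟨h2, h⟩)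
      rw [glue_out hw h3]
      by_cases h4 : v = x
      · subst h4
        rw [hmx, glue_w]
        exact ⟨hadj, rfl⟩
      · obtain ⟨h5, h6, h7⟩ := hout v h3 h4
        rw [glue_out hw h5]
        exact ⟨h6, h7⟩

end Tight

open _root_.RGraph.KT.Tight in
theorem I_Tight (h1 : StDef) (h2 : StExt) (h3 : StMoore) (h4 : StNum) : StTight := by
  intro V _ G d X hd hreg hodd htwo hmin hfree hpair
  obtain ⟨⟨hXodd, hXe, hX3, hXV⟩, hminX⟩ := hmin
  obtain ⟨m₁, m₂, w₁, x₁, w₂, x₂, hm₁, hm₂, hne⟩ := hpair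
  have hw₁ : w₁ ∈ X := hm₁.1
  have hx₁ : x₁ ∉ X := hm₁.2.1
  have hw₂ : w₂ ∈ X := hm₂.1
  have hx₂ : x₂ ∉ X := hm₂.2.1
  -- Step 1
  have e1 := ee_erase G (d + 1) hreg X w₁ hw₁
  have hc1 : 1 ≤ ee G {w₁} Xᶜ :=
    ee_pos G (Finset.mem_singleton_self w₁) (Finset.mem_compl.2 hx₁) hm₁.2.2.1.symm
  have hev : ∀ w ∈ X, Even (X.erase w).card := by
    intro w hw
    have h5 := Finset.card_erase_add_one hw
    obtain ⟨a, ha⟩ := hXodd
    exact ⟨a, by omega⟩
  obtain ⟨n₁, hn₁⟩ := h2 V G (d + 1) (X.erase w₁) hreg hodd (hev w₁ hw₁) (by omega)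
  set N := glue (X.erase w₁) w₁ x₁ n₁ m₁ with hN
  have hNpm : PMon G univ N := glue_pm (fun _ _ h => h) hm₁ hn₁
  have hNin : ∀ v ∈ X, v ≠ w₁ → N v ∈ X := by
    intro v hv hvw
    have h5 : v ∈ X.erase w₁ := Finset.mem_erase.2 ⟨hvw, hv⟩
    rw [hN, glue_in h5]
    exact Finset.mem_of_mem_erase (hn₁ v h5).1
  have hNw : N w₁ = x₁ := glue_w
  have hNout : ∀ v, v ∉ X → N v = m₁ v := fun v hv => glue_out hw₁ hv
  have hNinv : ∀ v, N (N v) = v := fun v => (hNpm v (Finset.mem_univ v)).2.2
  have hHreg : Reg (del G N) d := hreg.del hNpm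
  have hHX : ee (del G N) X Xᶜ = d := by
    have h5 := ee_del hNpm X Xᶜ
    have h6 : X.filter (fun u => N u ∈ Xᶜ) = {w₁} := by
      ext v
      rw [Finset.mem_filter, Finset.mem_compl, Finset.mem_singleton]
      constructor
      · rintro ⟨hv, hv2⟩
        by_contra hvw
        exact hv2 (hNin v hv hvw)
      · intro hv
        subst hv
        refine ⟨hw₁, ?_⟩
        rw [hNw]
        exact hx₁
    rw [h6, Finset.card_singleton, hXe] at h5
    omega
  -- Step 2
  have hNw2 : N w₂ ≠ x₂ := by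
    intro h
    by_cases hw : w₂ = w₁
    · rw [hw, hNw] at h
      have h5 : m₁ x₁ = w₁ := hm₁.2.2.2.1
      have h6 : m₂ x₂ = w₂ := hm₂.2.2.2.1
      apply hne x₁ hx₁
      rw [h5, h, h6, hw]
    · exact hx₂ (h ▸ hNin w₂ hw₂ hw)
  have hno : ¬ ∃ σ, PMon (del G N) (X.erase w₂) σ := by
    rintro ⟨n₂, hn₂⟩
    apply htwo
    refine ⟨N, glue (X.erase w₂) w₂ x₂ n₂ m₂, hNpm,
      glue_pm (K := del G N) (fun _ _ h => h.1) hm₂ hn₂, ?_⟩
    intro v
    by_cases hv : v ∈ X.erase w₂
    · rw [glue_in hv]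
      exact (hn₂ v hv).2.1.2.1
    · by_cases hvw : v = w₂
      · subst hvw
        rw [glue_w]
        exact hNw2
      · have hvX : v ∉ X := fun h => hv (Finset.mem_erase.2 ⟨hvw, h⟩)
        rw [glue_out hw₂ hvX, hNout v hvX]
        exact hne v hvX
  have e2 := ee_erase (del G N) d hHreg X w₂ hw₂
  have hadj2 : (del G N).Adj w₂ x₂ := by
    refine ⟨hm₂.2.2.1.symm, hNw2, ?_⟩
    intro h
    apply hNw2
    rw [← h]
    exact hNinv x₂
  have hc2 : 1 ≤ ee (del G N) {w₂} Xᶜ :=
    ee_pos _ (Finset.mem_singleton_self w₂) (Finset.mem_compl.2 hx₂) hadj2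
  obtain ⟨C, hCsub, hCodd, hCe⟩ := h1 V (del G N) d (X.erase w₂) hHreg (hev w₂ hw₂)
    (by omega) hno
  have hCX : C ⊆ X := hCsub.trans (Finset.erase_subset _ _)
  have hw₂C : w₂ ∉ C := fun h => Finset.notMem_erase w₂ X (hCsub h)
  have hpar := hHreg.parity_odd hCodd
  have ht : ee (del G N) C Cᶜ + 2 ≤ d := by omega
  set Y := X \ C with hY
  have hcard : C.card + Y.card = X.card := by
    rw [hY, Finset.card_sdiff_of_subset hCX]
    have := Finset.card_le_card hCX
    omega
  have hYne : 1 ≤ Y.card :=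
    Finset.card_pos.2 ⟨w₂, Finset.mem_sdiff.2 ⟨hw₂, hw₂C⟩⟩
  have hYev : Even Y.card := by
    obtain ⟨a, ha⟩ := hXodd
    obtain ⟨b, hb⟩ := hCodd
    exact ⟨a - b, by omega⟩
  -- Moore for C
  have hfreeC : C34free (del G N) C := (hfree.mono hCX).graph_mono (fun _ _ h => h.1)
  have hC2 : d ^ 2 ≤ C.card + 1 :=
    h4.1 d C.card (ee (del G N) C Cᶜ) (ee (del G N) C C) hd hCodd ht (hHreg.inner C)
      (h3 V (del G N) C hfreeC)
  by_cases hY4 : 4 ≤ Y.card
  · have hYX : Y ⊆ X := Finset.sdiff_subset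
    have hfreeY : C34free (del G N) Y := (hfree.mono hYX).graph_mono (fun _ _ h => h.1)
    have hCc : Cᶜ = Y ∪ Xᶜ := by
      ext v
      simp only [hY, Finset.mem_compl, Finset.mem_union, Finset.mem_sdiff]
      by_cases hvC : v ∈ C
      · simp [hvC, hCX hvC]
      · by_cases hvX : v ∈ X <;> simp [hvC, hvX]
    have hYc : Yᶜ = C ∪ Xᶜ := by
      ext v
      simp only [hY, Finset.mem_compl, Finset.mem_union, Finset.mem_sdiff]
      by_cases hvC : v ∈ C
      · simp [hvC]
      · by_cases hvX : v ∈ X <;> simp [hvC, hvX]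
    have hdYX : Disjoint Y Xᶜ := by
      rw [Finset.disjoint_left]
      intro v hv hv2
      exact (Finset.mem_compl.1 hv2) (hYX hv)
    have hdCX : Disjoint C Xᶜ := by
      rw [Finset.disjoint_left]
      intro v hv hv2
      exact (Finset.mem_compl.1 hv2) (hCX hv)
    have hdCY : Disjoint C Y := by
      rw [Finset.disjoint_left]
      intro v hv hv2
      exact (Finset.mem_sdiff.1 hv2).2 hv
    have hXu : C ∪ Y = X := by
      rw [hY]
      exact Finset.union_sdiff_of_subset hCX
    have f1 : ee (del G N) C Cᶜ = ee (del G N) C Y + ee (del G N) C Xᶜ := by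
      rw [hCc]
      exact ee_union_right _ _ hdYX
    have f2 : ee (del G N) X Xᶜ = ee (del G N) C Xᶜ + ee (del G N) Y Xᶜ := by
      have h := ee_union_left (del G N) Xᶜ hdCY
      rw [hXu] at h
      exact h
    have f3 : ee (del G N) Y Yᶜ = ee (del G N) Y C + ee (del G N) Y Xᶜ := by
      rw [hYc]
      exact ee_union_right _ _ hdCX
    have f4 : ee (del G N) Y C = ee (del G N) C Y := ee_symm _ _ _
    have hY2 : d ^ 2 ≤ Y.card + 3 :=
      h4.2.1 d Y.card (ee (del G N) Y Yᶜ) (ee (del G N) Y Y) hd hYev hY4 (by omega)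
        (hHreg.inner Y) (h3 V (del G N) Y hfreeY)
    omega
  · exfalso
    have hY2 : Y.card = 2 := by
      obtain ⟨b, hb⟩ := hYev
      omega
    have hdel := ee_del hNpm C Cᶜ
    have hCodd2 := hodd C hCodd
    have hd2 : 16 ≤ d ^ 2 := by nlinarith
    -- the vertices of `C` matched outside
    have hS : ∀ u ∈ C.filter (fun u => N u ∈ Cᶜ), u = w₁ ∨ (N u ∈ Y ∧ N u ≠ w₁) := by
      intro u hu
      obtain ⟨hu1, hu2⟩ := Finset.mem_filter.1 hu
      rw [Finset.mem_compl] at hu2
      by_cases huw : u = w₁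
      · exact Or.inl huw
      · refine Or.inr ⟨Finset.mem_sdiff.2 ⟨hNin u (hCX hu1) huw, hu2⟩, ?_⟩
        intro h
        have h5 : u = x₁ := by rw [← hNinv u, h, hNw]
        exact hx₁ (h5 ▸ hCX hu1)
    by_cases hw1C : w₁ ∈ C
    · have hSsub : C.filter (fun u => N u ∈ Cᶜ) ⊆ {w₁} ∪ Y.image N := by
        intro u hu
        rcases hS u hu with h | h
        · exact Finset.mem_union_left _ (Finset.mem_singleton.2 h)
        · exact Finset.mem_union_right _ (Finset.mem_image.2 ⟨N u, h.1, hNinv u⟩)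
      have hScard : (C.filter (fun u => N u ∈ Cᶜ)).card ≤ 3 := by
        have h5 := Finset.card_le_card hSsub
        have h6 := Finset.card_union_le ({w₁} : Finset V) (Y.image N)
        have h7 : (Y.image N).card ≤ Y.card := Finset.card_image_le
        rw [Finset.card_singleton] at h6
        omega
      have hCss : C ⊂ X := by
        rw [Finset.ssubset_iff_of_subset hCX]
        exact ⟨w₂, hw₂, hw₂C⟩
      refine hminX C hCss ⟨hCodd, ?_, ?_, ?_⟩
      · omega
      · omega
      · omega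
    · have hw1Y : w₁ ∈ Y := Finset.mem_sdiff.2 ⟨hw₁, hw1C⟩
      have hSsub : C.filter (fun u => N u ∈ Cᶜ) ⊆ (Y.erase w₁).image N := by
        intro u hu
        rcases hS u hu with h | h
        · exact absurd (h ▸ (Finset.mem_filter.1 hu).1) hw1C
        · exact Finset.mem_image.2 ⟨N u, Finset.mem_erase.2 ⟨h.2, h.1⟩, hNinv u⟩
      have hScard : (C.filter (fun u => N u ∈ Cᶜ)).card ≤ 1 := by
        have h5 := Finset.card_le_card hSsub
        have h7 : ((Y.erase w₁).image N).card ≤ (Y.erase w₁).card := Finset.card_image_le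
        have h8 := Finset.card_erase_add_one hw1Y
        omega
      omega

end RGraph.KT
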