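import Pool.Agent.Work.MP_426d99_co.KT.St2

/-!
# Block KT2: Tutte's theorem for an induced subgraph
-/

open Finset Classical

namespace RGraph.KT

namespace Tut

variable {V : Type} [Fintype V]

/-- The induced graph. -/
def HG (G : SimpleGraph V) (W : Finset V) : SimpleGraph {v // v ∈ W} := G.comap Subtype.val

omit [Fintype V] in
theorem no_pm (G : SimpleGraph V) (W : Finset V) (h : ¬ ∃ σ, PMon G W σ) :
    ¬ ∃ M : (HG G W).Subgraph, M.IsPerfectMatching := by
  rintro ⟨M, hM⟩
  apply h
  have hex : ∀ x : {v // v ∈ W}, ∃! y, M.Adj x y := fun x => hM.1 (hM.2 x)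
  choose f hf huniq using hex
  have hinv : ∀ x, f (f x) = x := fun x => (huniq (f x) x (hf x).symm).symm
  refine ⟨fun v => if hv : v ∈ W then (f ⟨v, hv⟩ : V) else v, ?_⟩
  intro v hv
  simp only [dif_pos hv]
  refine ⟨(f ⟨v, hv⟩).2, ?_, ?_⟩
  · exact (hf ⟨v, hv⟩).adj_sub
  · rw [dif_pos (f ⟨v, hv⟩).2]
    rw [hinv]

end Tut

open Tut in
theorem I_Tut : StTut := by
  intro V _ G W hW hno
  have h1 := no_pm G W hno
  rw [SimpleGraph.tutte] at h1
  push Not at h1
  obtain ⟨u, hu⟩ := h1
  unfold SimpleGraph.IsTutteViolator at hu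
  set Sg : (HG G W).Subgraph := (⊤ : (HG G W).Subgraph).deleteVerts u with hSg
  set K := Sg.coe with hK
  have hverts : Sg.verts = uᶜ := by
    rw [hSg, SimpleGraph.Subgraph.deleteVerts_verts, SimpleGraph.Subgraph.verts_top]
    ext x; simp
  have hnotu : ∀ z, z ∈ Sg.verts → z ∉ u := by
    intro z hz
    rw [hverts] at hz
    exact hz
  -- the value map
  set f : Sg.verts → V := fun x => (x.1 : V) with hf
  have hfinj : Function.Injective f := by
    intro x y hxy
    exact Subtype.ext (Subtype.ext hxy)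
  set A : K.ConnectedComponent → Finset V := fun c => (f '' c.supp).toFinset with hA
  have memA : ∀ c v, v ∈ A c ↔ ∃ x ∈ c.supp, f x = v := by
    intro c v
    rw [hA]
    simp only [Set.mem_toFinset, Set.mem_image]
  have cardA : ∀ c, (A c).card = c.supp.ncard := by
    intro c
    rw [hA]
    simp only
    rw [← Set.ncard_eq_toFinset_card', Set.ncard_image_of_injective _ hfinj]
  have hdisjA : ∀ c c', c ≠ c' → Disjoint (A c) (A c') := by
    intro c c' hcc
    rw [Finset.disjoint_left]
    intro v hv hv'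
    rw [memA] at hv hv'
    obtain ⟨x, hx, rfl⟩ := hv
    obtain ⟨y, hy, hxy⟩ := hv'
    rw [hfinj hxy] at hy
    rw [SimpleGraph.ConnectedComponent.mem_supp_iff] at hx hy
    exact hcc (hx.symm.trans hy)
  have hAinj : Set.InjOn A K.oddComponents := by
    intro c hc c' _ e
    by_contra hne
    have h2 := hdisjA c c' hne
    rw [← e, disjoint_self, Finset.bot_eq_empty] at h2
    have h3 : Odd c.supp.ncard := hc
    rw [← cardA c, h2] at h3
    simp at h3
  set S : Finset V := (Subtype.val '' u).toFinset with hS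
  have cardS : S.card = u.ncard := by
    rw [hS, ← Set.ncard_eq_toFinset_card', Set.ncard_image_of_injective _ Subtype.val_injective]
  have memS : ∀ v, v ∈ S ↔ ∃ x ∈ u, (x : V) = v := by
    intro v
    rw [hS, Set.mem_toFinset, Set.mem_image]
  have hfin : (K.oddComponents).Finite := Set.toFinite _
  refine ⟨S, (hfin.toFinset).image A, ?_, ?_, ?_, ?_, ?_⟩
  · intro v hv
    rw [memS] at hv
    obtain ⟨x, _, rfl⟩ := hv
    exact x.2
  · intro B hB
    rw [Finset.mem_image] at hB
    obtain ⟨c, hc, rfl⟩ := hB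
    rw [Set.Finite.mem_toFinset] at hc
    refine ⟨?_, ?_, ?_⟩
    · intro v hv
      rw [memA] at hv
      obtain ⟨x, _, rfl⟩ := hv
      exact x.1.2
    · rw [Finset.disjoint_left]
      intro v hv hv'
      rw [memA] at hv
      rw [memS] at hv'
      obtain ⟨x, _, rfl⟩ := hv
      obtain ⟨y, hy, hxy⟩ := hv'
      have h2 : y = x.1 := Subtype.ext hxy
      rw [h2] at hy
      exact hnotu x.1 x.2 hy
    · rw [cardA]
      exact hc
  · intro B hB B' hB' hne
    rw [Finset.mem_image] at hB hB'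
    obtain ⟨c, _, rfl⟩ := hB
    obtain ⟨c', _, rfl⟩ := hB'
    exact hdisjA c c' (fun h => hne (by rw [h]))
  · intro B hB a ha v hvW hvB hvS hadj
    rw [Finset.mem_image] at hB
    obtain ⟨c, _, rfl⟩ := hB
    rw [memA] at ha
    obtain ⟨x, hx, rfl⟩ := ha
    have hvu : (⟨v, hvW⟩ : {v // v ∈ W}) ∉ u := by
      intro h
      exact hvS ((memS v).mpr ⟨_, h, rfl⟩)
    have hxu : x.1 ∉ u := hnotu x.1 x.2
    have hy : (⟨v, hvW⟩ : {v // v ∈ W}) ∈ Sg.verts := by
      rw [hverts]
      exact hvu
    apply hvB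
    rw [memA]
    refine ⟨⟨⟨v, hvW⟩, hy⟩, ?_, rfl⟩
    have hSadj : Sg.Adj x.1 ⟨v, hvW⟩ :=
      SimpleGraph.Subgraph.deleteVerts_adj.mpr ⟨trivial, hxu, trivial, hvu, hadj⟩
    have hKadj : K.Adj x ⟨⟨v, hvW⟩, hy⟩ := by
      rw [hK, SimpleGraph.Subgraph.coe_adj]
      exact hSadj
    rw [SimpleGraph.ConnectedComponent.mem_supp_iff] at hx ⊢
    rw [← hx]
    exact SimpleGraph.ConnectedComponent.sound hKadj.reachable.symm
  · have hc : ((hfin.toFinset).image A).card = K.oddComponents.ncard := by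
      rw [Finset.card_image_of_injOn (by
        intro c hc c' hc' e
        rw [Finset.mem_coe, Set.Finite.mem_toFinset] at hc hc'
        exact hAinj hc hc' e), Set.ncard_eq_toFinset_card _ hfin]
    rw [hc, cardS]
    have hpar := K.odd_ncard_oddComponents
    have hcardX : Nat.card Sg.verts + u.ncard = W.card := by
      have h2 := Set.ncard_add_ncard_compl u
      rw [Nat.card_coe_set_eq, hverts]
      have h3 : Nat.card {v // v ∈ W} = W.card := by
        rw [Nat.card_eq_fintype_card, Fintype.card_coe]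
      omega
    by_contra hcon
    have hq : K.oddComponents.ncard = u.ncard + 1 := by
      have : u.ncard < K.oddComponents.ncard := hu
      omega
    rw [hq] at hpar
    rcases Nat.even_or_odd (Nat.card Sg.verts) with h2 | h2
    · have h3 : ¬ Odd (u.ncard + 1) := fun h => (Nat.not_odd_iff_even.mpr h2) (hpar.mp h)
      rw [Nat.not_odd_iff_even] at h3
      obtain ⟨k1, hk1⟩ := h2
      obtain ⟨k2, hk2⟩ := h3
      obtain ⟨k3, hk3⟩ := hW
      omega
    · have h3 := hpar.mpr h2
      obtain ⟨k1, hk1⟩ := h2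
      obtain ⟨k2, hk2⟩ := h3
      obtain ⟨k3, hk3⟩ := hW
      omega

end RGraph.KT
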