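import Pool.Agent.Work.MP_426d99_co.KT.St2

open Finset Classical

namespace RGraph.KT

namespace RegX

theorem bd {V E : Type} [Fintype V] [Finite E] {ends : E → Sym2 V} {r : ℕ} (h : StBridge)
    (hr : 1 ≤ r) (hg : IsRGraph r ends) (hinj : Function.Injective ends) (Z : Set V) :
    ee (gr ends) Z.toFinset Z.toFinsetᶜ = (boundary ends Z).ncard := by
  have := (h V E ends r hr hg hinj).2.2.2.1 Z.toFinset
  rw [this, Set.coe_toFinset]

theorem core {V E : Type} [Fintype V] [Finite E] {ends : E → Sym2 V} {r : ℕ} (h : StBridge)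
    (hr : 1 ≤ r) (hg : IsRGraph r ends) (hinj : Function.Injective ends) {X : Finset V}
    (hX : MinTight (gr ends) r X) {Z : Set V} (hZ : (boundary ends Z).ncard = r)
    (hodd : Odd (Z.toFinset ∩ X).card) {u v w : V} (huv : u ≠ v) (hu : u ∈ Z) (hv : v ∈ Z)
    (huX : u ∈ X) (hvX : v ∈ X) (hw : w ∉ Z) (hwX : w ∈ X) (hZo : Odd Z.ncard) : False := by
  obtain ⟨⟨hXo, hXr, hX3, hXV⟩, hmin⟩ := hX
  have hb := h V E ends r hr hg hinj
  have hu' : u ∈ Z.toFinset ∩ X := by simp [hu, huX]
  have hv' : v ∈ Z.toFinset ∩ X := by simp [hv, hvX]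
  have h2 : 2 ≤ (Z.toFinset ∩ X).card := by
    have : ({u, v} : Finset V) ⊆ Z.toFinset ∩ X := by
      intro x hx
      simp only [Finset.mem_insert, Finset.mem_singleton] at hx
      rcases hx with rfl | rfl
      · exact hu'
      · exact hv'
    have h3 := Finset.card_le_card this
    rwa [Finset.card_pair huv] at h3
  have hss : Z.toFinset ∩ X ⊂ X := by
    refine ⟨Finset.inter_subset_right, fun hsub => ?_⟩
    have := hsub hwX
    simp [hw] at this
  have hcard := Finset.card_union_add_card_inter Z.toFinset X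
  have hZc : Z.toFinset.card = Z.ncard := (Set.ncard_eq_toFinset_card' Z).symm
  have huo : Odd (Z.toFinset ∪ X).card := by
    rw [Nat.odd_iff] at *
    omega
  have h1 := ee_submod (gr ends) Z.toFinset X
  have h3 := hb.2.1 _ hodd
  have h4 := hb.2.1 _ huo
  have h5 := bd h hr hg hinj Z
  rw [hZ] at h5
  have h6 : (Z.toFinset ∩ X).card ≤ X.card := Finset.card_le_card Finset.inter_subset_right
  refine hmin _ hss ⟨hodd, by omega, ?_, by omega⟩
  rw [Nat.odd_iff] at hodd
  omega

end RegX

theorem I_RegX (h : StBridge) : StReg := by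
  intro V E _ _ ends r hr hg hinj X hX a ha b hb c hc d hd hac hbd Y hY hbdY
  obtain ⟨hYo, hYr, haY, hcY⟩ := hY
  have hbr := h V E ends r hr hg hinj
  have hcc := Set.ncard_add_ncard_compl Y
  rw [Nat.card_eq_fintype_card] at hcc
  have hev := hbr.2.2.1
  have hYco : Odd (Yᶜ).ncard := by
    rw [Nat.odd_iff] at *
    rw [Nat.even_iff] at hev
    omega
  rcases hX with hX | ⟨rfl, hno⟩
  · rcases Nat.even_or_odd (Y.toFinset ∩ X).card with he | ho
    · refine RegX.core h hr hg hinj hX (Z := Yᶜ) (by rw [boundary_compl]; exact hYr) ?_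
        hac (u := a) (v := c) (w := b) haY hcY ha hc (fun h' => h' hbdY.1) hb hYco
      suffices hs : Odd (X \ Y.toFinset).card by
        convert hs using 2
        ext x
        simp
        tauto
      have h2 := Finset.card_inter_add_card_sdiff X Y.toFinset
      rw [Finset.inter_comm] at h2
      have := hX.1.1
      rw [Nat.odd_iff] at *
      rw [Nat.even_iff] at he
      omega
    · exact RegX.core h hr hg hinj hX hYr ho hbd hbdY.1 hbdY.2 hb hd haY ha hYo
  · apply hno
    have h2 : 2 ≤ Y.ncard := by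
      have : ({b, d} : Set V) ⊆ Y := by
        rintro x (rfl | rfl)
        · exact hbdY.1
        · exact hbdY.2
      have h3 := Set.ncard_le_ncard this (Set.toFinite _)
      rwa [Set.ncard_pair hbd] at h3
    have h2' : 2 ≤ (Yᶜ).ncard := by
      have : ({a, c} : Set V) ⊆ Yᶜ := by
        rintro x (rfl | rfl)
        · exact haY
        · exact hcY
      have h3 := Set.ncard_le_ncard this (Set.toFinite _)
      rwa [Set.ncard_pair hac] at h3
    have hZc : Y.toFinset.card = Y.ncard := (Set.ncard_eq_toFinset_card' Y).symm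
    refine ⟨Y.toFinset, by rwa [hZc], by rw [RegX.bd h hr hg hinj Y, hYr], ?_, ?_⟩
    · rw [hZc]
      rw [Nat.odd_iff] at hYo
      omega
    · rw [hZc]
      rw [Nat.odd_iff] at hYco
      omega

end RGraph.KT
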