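import Pool.Agent.Work.MP_426d99_co.KT.A_Order
import Pool.Agent.Work.MP_426d99_co.KT.P_Tut
import Pool.Agent.Work.MP_426d99_co.KT.P_Moore
import Pool.Agent.Work.MP_426d99_co.KT.P_Def
import Pool.Agent.Work.MP_426d99_co.KT.P_Num
import Pool.Agent.Work.MP_426d99_co.KT.P_Tight
import Pool.Agent.Work.MP_426d99_co.KT.P_Cells
import Pool.Agent.Work.MP_426d99_co.KT.P_JumpL
import Pool.Agent.Work.MP_426d99_co.KT.P_Double
import Pool.Agent.Work.MP_426d99_co.KT.P_C4
import Pool.Agent.Work.MP_426d99_co.KT.P_C3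
import Pool.Agent.Work.MP_426d99_co.KT.P_Orb
import Pool.Agent.Work.MP_426d99_co.KT.P_Simple
import Pool.Agent.Work.MP_426d99_co.KT.P_Bridge
import Pool.Agent.Work.MP_426d99_co.KT.P_Contr
import Pool.Agent.Work.MP_426d99_co.KT.X_Reg
import Pool.Agent.Work.MP_426d99_co.KT.P_C34
import Pool.Agent.Work.MP_426d99_co.KT.P_Bound
import Pool.Agent.Work.MP_426d99_co.KT.P_Main

namespace RGraph.KT

theorem main_all : StMain := by
  have hDef : StDef := I_Def I_Tut
  have hDef2 : StDef2 := I_Def2 I_Tut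
  have hExt : StExt := I_Ext hDef
  have hTight : StTight := I_Tight hDef hExt I_Moore I_Num
  have hCells : StCells := I_Cells hDef2 hExt I_Moore I_Num
  have hSimple : StSimple := I_Simple (I_Double I_JumpL)
  have hC34 : StC34 := I_C34 hSimple (I_C4 I_JumpL) (I_C3 I_JumpL I_Orb) I_Bridge (I_RegX I_Bridge)
  have hBound : StBound := I_Bound hSimple I_Bridge I_Contr hC34 hTight hCells I_Num
  exact I_Main order_all I_Len hBound

end RGraph.KT
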