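import Mathlib

/-!
# Counting edges between vertex sets of a simple graph
-/

open Finset Classical

namespace RGraph.KT

variable {V : Type} [Fintype V]

/-- The number of ordered pairs of adjacent vertices in `A × B`. -/
noncomputable def ee (G : SimpleGraph V) (A B : Finset V) : ℕ :=
  ((A ×ˢ B).filter (fun q => G.Adj q.1 q.2)).card

theorem ee_eq_sum (G : SimpleGraph V) (A B : Finset V) :
    ee G A B = ∑ u ∈ A, ∑ v ∈ B, if G.Adj u v then 1 else 0 := by
  unfold ee
  rw [Finset.card_filter, Finset.sum_product]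

theorem ee_symm (G : SimpleGraph V) (A B : Finset V) : ee G A B = ee G B A := by
  rw [ee_eq_sum, ee_eq_sum, Finset.sum_comm]
  simp only [G.adj_comm]

theorem ee_union_left (G : SimpleGraph V) {A A' : Finset V} (B : Finset V) (h : Disjoint A A') :
    ee G (A ∪ A') B = ee G A B + ee G A' B := by
  rw [ee_eq_sum, ee_eq_sum, ee_eq_sum, Finset.sum_union h]

theorem ee_union_right (G : SimpleGraph V) (A : Finset V) {B B' : Finset V} (h : Disjoint B B') :
    ee G A (B ∪ B') = ee G A B + ee G A B' := by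
  rw [ee_symm, ee_union_left G A h, ee_symm G B, ee_symm G B']

theorem ee_biUnion_left (G : SimpleGraph V) {ι : Type} (s : Finset ι) (f : ι → Finset V)
    (B : Finset V) (h : ∀ i ∈ s, ∀ j ∈ s, i ≠ j → Disjoint (f i) (f j)) :
    ee G (s.biUnion f) B = ∑ i ∈ s, ee G (f i) B := by
  rw [ee_eq_sum, Finset.sum_biUnion (fun i hi j hj hij => h i hi j hj hij)]
  simp only [ee_eq_sum]

theorem ee_mono (G : SimpleGraph V) {A A' B B' : Finset V} (hA : A ⊆ A') (hB : B ⊆ B') :
    ee G A B ≤ ee G A' B' := by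
  unfold ee
  apply Finset.card_le_card
  intro q hq
  simp only [Finset.mem_filter, Finset.mem_product] at hq ⊢
  exact ⟨⟨hA hq.1.1, hB hq.1.2⟩, hq.2⟩

theorem ee_graph_mono {G H : SimpleGraph V} (h : ∀ u v, G.Adj u v → H.Adj u v)
    (A B : Finset V) : ee G A B ≤ ee H A B := by
  unfold ee
  apply Finset.card_le_card
  intro q hq
  simp only [Finset.mem_filter, Finset.mem_product] at hq ⊢
  exact ⟨hq.1, h _ _ hq.2⟩

theorem ee_empty_left (G : SimpleGraph V) (B : Finset V) : ee G ∅ B = 0 := by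
  simp [ee]

theorem ee_empty_right (G : SimpleGraph V) (A : Finset V) : ee G A ∅ = 0 := by
  simp [ee]

theorem ee_eq_zero_iff (G : SimpleGraph V) (A B : Finset V) :
    ee G A B = 0 ↔ ∀ u ∈ A, ∀ v ∈ B, ¬ G.Adj u v := by
  unfold ee
  rw [Finset.card_eq_zero, Finset.filter_eq_empty_iff]
  constructor
  · intro h u hu v hv
    exact h (x := (u, v)) (Finset.mem_product.2 ⟨hu, hv⟩)
  · rintro h ⟨u, v⟩ hq
    exact h u (Finset.mem_product.1 hq).1 v (Finset.mem_product.1 hq).2

theorem ee_pos (G : SimpleGraph V) {A B : Finset V} {u v : V} (hu : u ∈ A) (hv : v ∈ B)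
    (h : G.Adj u v) : 1 ≤ ee G A B := by
  rw [Nat.one_le_iff_ne_zero, Ne, ee_eq_zero_iff]
  intro h0
  exact h0 u hu v hv h

theorem ee_sum_left (G : SimpleGraph V) (A B : Finset V) :
    ee G A B = ∑ u ∈ A, ee G {u} B := by
  rw [ee_eq_sum]
  apply Finset.sum_congr rfl
  intro u _
  rw [ee_eq_sum, Finset.sum_singleton]

theorem ee_single (G : SimpleGraph V) (u : V) (B : Finset V) :
    ee G {u} B = (B.filter (fun v => G.Adj u v)).card := by
  rw [ee_eq_sum, Finset.sum_singleton, Finset.card_filter]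

/-- All degrees are `d`. -/
def Reg (G : SimpleGraph V) (d : ℕ) : Prop := ∀ v, ee G {v} univ = d

theorem Reg.sum {G : SimpleGraph V} {d : ℕ} (h : Reg G d) (Z : Finset V) :
    ee G Z univ = d * Z.card := by
  rw [ee_sum_left, Finset.sum_congr rfl (fun u _ => h u), Finset.sum_const, smul_eq_mul, mul_comm]

theorem ee_compl_add (G : SimpleGraph V) (A Z : Finset V) :
    ee G A Z + ee G A Zᶜ = ee G A univ := by
  rw [← ee_union_right G A disjoint_compl_right, Finset.union_compl]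

theorem Reg.inner {G : SimpleGraph V} {d : ℕ} (h : Reg G d) (Z : Finset V) :
    ee G Z Z + ee G Z Zᶜ = d * Z.card := by
  rw [ee_compl_add, h.sum]

theorem ee_self_even (G : SimpleGraph V) (Z : Finset V) : Even (ee G Z Z) := by
  induction Z using Finset.induction_on with
  | empty => simp [ee_empty_left]
  | @insert v Z hv ih =>
    have hd : Disjoint ({v} : Finset V) Z := by simpa using hv
    rw [Finset.insert_eq, ee_union_left G _ hd, ee_union_right G _ hd, ee_union_right G _ hd,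
      ee_symm G Z {v}]
    have h0 : ee G {v} {v} = 0 := by
      rw [ee_eq_zero_iff]
      simp
    rw [h0]
    obtain ⟨m, hm⟩ := ih
    exact ⟨ee G {v} Z + m, by omega⟩

/-- Parity of the boundary. -/
theorem Reg.parity {G : SimpleGraph V} {d : ℕ} (h : Reg G d) (Z : Finset V) :
    ee G Z Zᶜ % 2 = (d * Z.card) % 2 := by
  have h1 := h.inner Z
  obtain ⟨m, hm⟩ := ee_self_even G Z
  omega

theorem Reg.parity_odd {G : SimpleGraph V} {d : ℕ} (h : Reg G d) {Z : Finset V}
    (hZ : Odd Z.card) : ee G Z Zᶜ % 2 = d % 2 := by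
  rw [h.parity]
  obtain ⟨m, hm⟩ := hZ
  rw [hm, Nat.mul_add, ← mul_assoc, mul_comm d 2, mul_assoc, Nat.add_mod, Nat.mul_mod_right]
  simp

/-- Submodularity for the boundary. -/
theorem ee_submod (G : SimpleGraph V) (X Y : Finset V) :
    ee G (X ∩ Y) (X ∩ Y)ᶜ + ee G (X ∪ Y) (X ∪ Y)ᶜ ≤ ee G X Xᶜ + ee G Y Yᶜ := by
  have key : ∀ Z : Finset V, ee G Z Zᶜ = ∑ u, ∑ v, if (u ∈ Z ∧ v ∉ Z ∧ G.Adj u v) then 1 else 0 := by
    intro Z
    unfold ee
    rw [← Finset.sum_product', ← Finset.card_filter]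
    congr 1
    ext ⟨u, v⟩
    simp [and_assoc]
  rw [key, key, key, key, ← Finset.sum_add_distrib, ← Finset.sum_add_distrib]
  apply Finset.sum_le_sum
  intro u _
  rw [← Finset.sum_add_distrib, ← Finset.sum_add_distrib]
  apply Finset.sum_le_sum
  intro v _
  simp only [Finset.mem_inter, Finset.mem_union]
  by_cases h1 : u ∈ X <;> by_cases h2 : v ∈ X <;> by_cases h3 : u ∈ Y <;>
    by_cases h4 : v ∈ Y <;> by_cases h5 : G.Adj u v <;> simp [h1, h2, h3, h4, h5]

/-- `σ` is a perfect matching of the graph induced on `W`. -/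
def PMon (G : SimpleGraph V) (W : Finset V) (σ : V → V) : Prop :=
  ∀ v ∈ W, σ v ∈ W ∧ G.Adj v (σ v) ∧ σ (σ v) = v

/-- There are two disjoint perfect matchings. -/
def TwoPM (G : SimpleGraph V) : Prop :=
  ∃ σ τ : V → V, PMon G univ σ ∧ PMon G univ τ ∧ ∀ v, σ v ≠ τ v

/-- Every odd set has at least `r` boundary edges. -/
def OddCut (G : SimpleGraph V) (r : ℕ) : Prop := ∀ Z : Finset V, Odd Z.card → r ≤ ee G Z Zᶜ

/-- No triangle and no 4-cycle in `X`. -/
def C34free (G : SimpleGraph V) (X : Finset V) : Prop :=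
  (∀ a ∈ X, ∀ b ∈ X, ∀ c ∈ X, G.Adj a b → G.Adj b c → G.Adj c a → False) ∧
    (∀ a ∈ X, ∀ b ∈ X, ∀ c ∈ X, ∀ d ∈ X, a ≠ c → b ≠ d → G.Adj a b → G.Adj b c → G.Adj c d →
      G.Adj d a → False)

theorem C34free.mono {G : SimpleGraph V} {X Y : Finset V} (h : C34free G X) (hY : Y ⊆ X) :
    C34free G Y :=
  ⟨fun a ha b hb c hc => h.1 a (hY ha) b (hY hb) c (hY hc),
    fun a ha b hb c hc d hd => h.2 a (hY ha) b (hY hb) c (hY hc) d (hY hd)⟩

theorem C34free.graph_mono {G H : SimpleGraph V} {X : Finset V} (h : C34free G X)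
    (hH : ∀ u v, H.Adj u v → G.Adj u v) : C34free H X :=
  ⟨fun a ha b hb c hc h1 h2 h3 => h.1 a ha b hb c hc (hH _ _ h1) (hH _ _ h2) (hH _ _ h3),
    fun a ha b hb c hc d hd h1 h2 h3 h4 h5 h6 =>
      h.2 a ha b hb c hc d hd h1 h2 (hH _ _ h3) (hH _ _ h4) (hH _ _ h5) (hH _ _ h6)⟩

/-- A nontrivial tight set. -/
def TightS (G : SimpleGraph V) (r : ℕ) (X : Finset V) : Prop :=
  Odd X.card ∧ ee G X Xᶜ = r ∧ 3 ≤ X.card ∧ X.card + 3 ≤ Fintype.card V

/-- An inclusion-minimal nontrivial tight set. -/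
def MinTight (G : SimpleGraph V) (r : ℕ) (X : Finset V) : Prop :=
  TightS G r X ∧ ∀ Y, Y ⊂ X → ¬ TightS G r Y

/-- `m` is a perfect matching of the graph with `X` contracted; the edge at the contracted vertex
is `w x` with `w ∈ X`. -/
def OutPM (G : SimpleGraph V) (X : Finset V) (m : V → V) (w x : V) : Prop :=
  w ∈ X ∧ x ∉ X ∧ G.Adj x w ∧ m x = w ∧
    ∀ v, v ∉ X → v ≠ x → m v ∉ X ∧ G.Adj v (m v) ∧ m (m v) = v

/-- Two disjoint such perfect matchings. -/
def OutPair (G : SimpleGraph V) (X : Finset V) : Prop :=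
  ∃ (m₁ m₂ : V → V) (w₁ x₁ w₂ x₂ : V), OutPM G X m₁ w₁ x₁ ∧ OutPM G X m₂ w₂ x₂ ∧
    ∀ v, v ∉ X → m₁ v ≠ m₂ v

/-- The graph without the edges of a matching. -/
def del (G : SimpleGraph V) (N : V → V) : SimpleGraph V where
  Adj u v := G.Adj u v ∧ N u ≠ v ∧ N v ≠ u
  symm := ⟨fun _ _ h => ⟨h.1.symm, h.2.2, h.2.1⟩⟩
  loopless := ⟨fun _ h => h.1.ne rfl⟩

theorem del_adj {G : SimpleGraph V} {N : V → V} {u v : V} :
    (del G N).Adj u v ↔ G.Adj u v ∧ N u ≠ v ∧ N v ≠ u := Iff.rfl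

theorem ee_del {G : SimpleGraph V} {N : V → V} (h : PMon G univ N) (A B : Finset V) :
    ee (del G N) A B + (A.filter (fun u => N u ∈ B)).card = ee G A B := by
  rw [ee_sum_left, ee_sum_left G, Finset.card_filter, ← Finset.sum_add_distrib]
  apply Finset.sum_congr rfl
  intro u _
  rw [ee_single, ee_single]
  obtain ⟨-, hadj, hinv⟩ := h u (Finset.mem_univ u)
  have h1 : (B.filter (fun v => (del G N).Adj u v)) = (B.filter (fun v => G.Adj u v)).erase (N u) := by
    ext v
    simp only [Finset.mem_filter, Finset.mem_erase, del_adj]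
    constructor
    · rintro ⟨hv, h1, h2, h3⟩
      exact ⟨fun h' => h2 h'.symm, hv, h1⟩
    · rintro ⟨h1, hv, h2⟩
      refine ⟨hv, h2, fun h' => h1 h'.symm, fun h' => h1 ?_⟩
      rw [← h', (h v (Finset.mem_univ v)).2.2]
  have h2 : (B.filter (fun v => (del G N).Adj u v)).card =
      ((B.filter (fun v => G.Adj u v)).erase (N u)).card := congrArg Finset.card h1
  by_cases hB : N u ∈ B
  · have h3 := Finset.card_erase_add_one (s := B.filter (fun v => G.Adj u v)) (a := N u)
      (Finset.mem_filter.2 ⟨hB, hadj⟩)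
    rw [if_pos hB]
    exact (congrArg (· + 1) h2).trans h3
  · rw [Finset.erase_eq_of_notMem (fun h' => hB (Finset.mem_filter.1 h').1)] at h2
    rw [if_neg hB]
    exact h2

theorem Reg.del {G : SimpleGraph V} {d : ℕ} {N : V → V} (h : Reg G (d + 1))
    (hN : PMon G univ N) : Reg (del G N) d := by
  intro v
  have h1 := ee_del hN {v} univ
  rw [h v] at h1
  simp at h1
  exact h1

end RGraph.KT
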