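import Pool.Agent.Work.MP_426d99_co.KT.St2

/-!
# (C3) triangles with a further edge
-/

open Finset Classical

namespace RGraph.KT

namespace C3

variable {V E : Type}

/-- The partner function of a perfect matching without loops. -/
theorem partner {s : E → Sym2 V} {P : Set E} (hP : IsPM s P) (hl : ∀ e ∈ P, ¬ (s e).IsDiag) :
    ∃ σ : V → V, (∀ v, ∃ e ∈ P, s e = s(v, σ v)) ∧ (∀ v, σ (σ v) = v ∧ σ v ≠ v) ∧
      ∀ e ∈ P, ∀ v w, s e = s(v, w) → σ v = w := by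
  have h1 : ∀ v, ∃ w, ∃ e ∈ P, s e = s(v, w) := by
    intro v
    obtain ⟨e, ⟨he, hv⟩, -⟩ := hP v
    obtain ⟨w, hw⟩ := (Sym2.mem_iff_exists).1 hv
    exact ⟨w, e, he, hw⟩
  choose σ hσ using h1
  have huniq : ∀ e ∈ P, ∀ e' ∈ P, ∀ v, v ∈ s e → v ∈ s e' → e = e' := by
    intro e he e' he' v hv hv'
    exact (hP v).unique ⟨he, hv⟩ ⟨he', hv'⟩
  have h3 : ∀ e ∈ P, ∀ v w, s e = s(v, w) → σ v = w := by
    intro e he v w hvw
    obtain ⟨e', he', hs⟩ := hσ v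
    have : e = e' := huniq e he e' he' v (by rw [hvw]; simp) (by rw [hs]; simp)
    subst this
    rw [hs] at hvw
    exact Sym2.congr_right.1 hvw
  refine ⟨σ, hσ, fun v => ?_, h3⟩
  obtain ⟨e, he, hs⟩ := hσ v
  refine ⟨h3 e he (σ v) v (by rw [hs, Sym2.eq_swap]), fun h => ?_⟩
  apply hl e he
  rw [hs, h]
  simp

/-- Combination of two perfect matchings. -/
theorem combine {s ends : E → Sym2 V} {P Q G : Set E} (hP : IsPM s P) (hQ : IsPM s Q)
    {σ τ : V → V} (hσ : ∀ v, ∃ e ∈ P, s e = s(v, σ v)) (hτ : ∀ v, ∃ e ∈ Q, s e = s(v, τ v))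
    {U R : Set V} (hU : ∀ v ∈ U, σ v ∈ U) (hR : ∀ v, v ∉ U → v ∉ R → τ v ∉ U ∧ τ v ∉ R)
    (hd : ∀ v ∈ U, v ∉ R) (hG1 : ∀ v ∈ R, ∃! e, e ∈ G ∧ v ∈ ends e)
    (hG2 : ∀ e ∈ G, ∀ v ∈ ends e, v ∈ R)
    (hs1 : ∀ e ∈ P, (∀ v ∈ s e, v ∈ U) → s e = ends e)
    (hs2 : ∀ e ∈ Q, (∀ v ∈ s e, v ∉ U ∧ v ∉ R) → s e = ends e) :
    IsPM ends ({e | e ∈ P ∧ ∀ v ∈ s e, v ∈ U} ∪ {e | e ∈ Q ∧ ∀ v ∈ s e, v ∉ U ∧ v ∉ R} ∪ G) := by
  intro v
  by_cases hvU : v ∈ U
  · obtain ⟨e, he, hs⟩ := hσ v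
    have hall : ∀ w ∈ s e, w ∈ U := by
      intro w hw
      rw [hs, Sym2.mem_iff] at hw
      rcases hw with rfl | rfl
      · exact hvU
      · exact hU v hvU
    have hse := hs1 e he hall
    refine ⟨e, ⟨Or.inl (Or.inl ⟨he, hall⟩), by rw [← hse, hs]; simp⟩, ?_⟩
    rintro e' ⟨(⟨h1, h2⟩ | ⟨h1, h2⟩) | h1, hv⟩
    · rw [← hs1 e' h1 h2] at hv
      exact (hP v).unique ⟨h1, hv⟩ ⟨he, by rw [hs]; simp⟩
    · rw [← hs2 e' h1 h2] at hv
      exact absurd hvU (h2 v hv).1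
    · exact absurd (hG2 e' h1 v hv) (hd v hvU)
  · by_cases hvR : v ∈ R
    · obtain ⟨e, ⟨he, hv⟩, hu⟩ := hG1 v hvR
      refine ⟨e, ⟨Or.inr he, hv⟩, ?_⟩
      rintro e' ⟨(⟨h1, h2⟩ | ⟨h1, h2⟩) | h1, hv'⟩
      · rw [← hs1 e' h1 h2] at hv'
        exact absurd (h2 v hv') hvU
      · rw [← hs2 e' h1 h2] at hv'
        exact absurd hvR (h2 v hv').2
      · exact hu e' ⟨h1, hv'⟩
    · obtain ⟨e, he, hs⟩ := hτ v
      have hall : ∀ w ∈ s e, w ∉ U ∧ w ∉ R := by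
        intro w hw
        rw [hs, Sym2.mem_iff] at hw
        rcases hw with rfl | rfl
        · exact ⟨hvU, hvR⟩
        · exact hR v hvU hvR
      have hse := hs2 e he hall
      refine ⟨e, ⟨Or.inl (Or.inr ⟨he, hall⟩), by rw [← hse, hs]; simp⟩, ?_⟩
      rintro e' ⟨(⟨h1, h2⟩ | ⟨h1, h2⟩) | h1, hv⟩
      · rw [← hs1 e' h1 h2] at hv
        exact absurd (h2 v hv) hvU
      · rw [← hs2 e' h1 h2] at hv
        exact (hQ v).unique ⟨h1, hv⟩ ⟨he, by rw [hs]; simp⟩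
      · exact absurd (hG2 e' h1 v hv) hvR

theorem hasPMs_two {ends : E → Sym2 V} {M N : Set E} (hM : IsPM ends M) (hN : IsPM ends N)
    (hd : Disjoint M N) : HasPMs ends 2 := by
  refine ⟨![M, N], ?_, ?_⟩
  · intro i
    fin_cases i
    · exact hM
    · exact hN
  · intro i j hij
    fin_cases i <;> fin_cases j
    · exact absurd rfl hij
    · exact hd
    · exact hd.symm
    · exact absurd rfl hij

end C3

open C3 in
theorem I_C3 (h1 : StJumpL) (h2 : StOrb) : StC3 := by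
  intro V E _ _ ends e₁ e₂ e₃ e₅ a b c d hl he₁ he₂ hab hac had hbc hbd hcd he₃ he₅ h3
  by_contra hno
  obtain ⟨P₁, P₂, P₃, hP₁, hP₂, hP₃, d12, d13, d23, n1, n2, m2, m3, hE⟩ :=
    h1 V E ends e₁ e₂ a b c d he₁ he₂ hab hac had hbc hbd hcd h3 hno
  have e12 : e₁ ≠ e₂ := by
    rintro rfl
    exact (Set.disjoint_left.1 d23) m2 m3
  have e31 : e₃ ≠ e₁ := by
    rintro rfl
    rw [he₃, Sym2.eq_iff] at he₁
    rcases he₁ with ⟨_, h⟩ | ⟨h, _⟩
    · exact hbc h.symm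
    · exact hab h
  have e32 : e₃ ≠ e₂ := by
    rintro rfl
    rw [he₃, Sym2.eq_iff] at he₂
    rcases he₂ with ⟨h, _⟩ | ⟨h, _⟩
    · exact hac h
    · exact had h
  have e51 : e₅ ≠ e₁ := by
    rintro rfl
    rw [he₅, Sym2.eq_iff] at he₁
    rcases he₁ with ⟨h, _⟩ | ⟨h, _⟩
    · exact hac h.symm
    · exact hbc h.symm
  have e52 : e₅ ≠ e₂ := by
    rintro rfl
    rw [he₅, Sym2.eq_iff] at he₂
    rcases he₂ with ⟨_, h⟩ | ⟨h, _⟩
    · exact hbd h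
    · exact hcd h
  have e53 : e₅ ≠ e₃ := by
    rintro rfl
    rw [he₅, Sym2.eq_iff] at he₃
    rcases he₃ with ⟨h, _⟩ | ⟨_, h⟩
    · exact hac h.symm
    · exact hab h.symm
  set s := sw ends e₁ e₂ a b c d with hs
  have s1 : s e₁ = s(a, c) := sw_one e12
  have s2 : s e₂ = s(b, d) := sw_two
  have s0 : ∀ e, e ≠ e₁ → e ≠ e₂ → s e = ends e := fun e h h' => sw_other h h'
  have n1' : e₁ ∉ P₃ := fun h => (Set.disjoint_left.1 d23) m2 h
  have n2' : e₂ ∉ P₂ := fun h => (Set.disjoint_left.1 d23) h m3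
  have hls : ∀ e, ¬ (s e).IsDiag := by
    intro e
    by_cases h : e = e₁
    · rw [h, s1]; simpa using hac
    · by_cases h' : e = e₂
      · rw [h', s2]; simpa using hbd
      · rw [s0 e h h']; exact hl e
  obtain ⟨σ, hσ1, hσ2, hσ3⟩ := C3.partner hP₂ (fun e _ => hls e)
  obtain ⟨τ, hτ1, hτ2, hτ3⟩ := C3.partner hP₃ (fun e _ => hls e)
  have hσa : σ a = c := hσ3 e₁ m2 a c s1
  have hτb : τ b = d := hτ3 e₂ m3 b d s2
  -- `e₃ ∈ P₁`
  have m31 : e₃ ∈ P₁ := by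
    by_contra hn
    apply hno
    have hQ : IsPM ends ((P₂ \ {e₁}) ∪ {e₃}) := by
      intro v
      by_cases hv : v = a ∨ v = c
      · refine ⟨e₃, ⟨Or.inr rfl, by rw [he₃, Sym2.mem_iff]; exact hv⟩, ?_⟩
        rintro e ⟨⟨h5, h6⟩ | h5, h7⟩
        · exfalso
          have h8 : e ≠ e₂ := fun h => n2' (h ▸ h5)
          rw [← s0 e h6 h8] at h7
          apply h6
          refine (hP₂ v).unique ⟨h5, h7⟩ ⟨m2, ?_⟩
          rw [s1, Sym2.mem_iff]
          exact hv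
        · exact h5
      · obtain ⟨e, ⟨he, hve⟩, hu⟩ := hP₂ v
        have h6 : e ≠ e₁ := by
          rintro rfl
          rw [s1, Sym2.mem_iff] at hve
          exact hv hve
        have h8 : e ≠ e₂ := fun h => n2' (h ▸ he)
        refine ⟨e, ⟨Or.inl ⟨he, h6⟩, by rw [← s0 e h6 h8]; exact hve⟩, ?_⟩
        rintro e' ⟨⟨h5, h6'⟩ | h5, h7⟩
        · have h8' : e' ≠ e₂ := fun h => n2' (h ▸ h5)
          rw [← s0 e' h6' h8'] at h7
          exact hu e' ⟨h5, h7⟩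
        · exfalso
          rw [Set.mem_singleton_iff] at h5
          rw [h5, he₃, Sym2.mem_iff] at h7
          exact hv h7
    refine hasPMs_two hE hQ ?_
    rw [Set.disjoint_left]
    rintro e h5 (⟨h6, _⟩ | h6)
    · exact (Set.disjoint_left.1 d12) h5 h6
    · rw [Set.mem_singleton_iff] at h6
      exact hn (h6 ▸ h5)
  have n51 : e₅ ∉ P₁ := by
    intro h
    apply e53
    exact (hE c).unique ⟨h, by rw [he₅]; simp⟩ ⟨m31, by rw [he₃]; simp⟩
  -- the combination is a perfect matching disjoint from `P₁`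
  have fin : ∀ (U R : Set V) (G : Set E), (∀ v ∈ U, σ v ∈ U) →
      (∀ v, v ∉ U → v ∉ R → τ v ∉ U ∧ τ v ∉ R) → (∀ v ∈ U, v ∉ R) →
      (∀ v ∈ R, ∃! e, e ∈ G ∧ v ∈ ends e) → (∀ e ∈ G, ∀ v ∈ ends e, v ∈ R) →
      c ∉ U → (b ∈ U ∨ d ∈ U) → (∀ e ∈ G, e ∉ P₁) → False := by
    intro U R G hU hR hd hG1 hG2 hcU hbdU hGP
    have hM := combine (ends := ends) hP₂ hP₃ hσ1 hτ1 hU hR hd hG1 hG2 (by
      intro e he hall
      refine s0 e ?_ (fun h => n2' (h ▸ he))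
      rintro rfl
      exact hcU (hall c (by rw [s1]; simp))) (by
      intro e he hall
      refine s0 e (fun h => n1' (h ▸ he)) ?_
      rintro rfl
      rcases hbdU with h | h
      · exact (hall b (by rw [s2]; simp)).1 h
      · exact (hall d (by rw [s2]; simp)).1 h)
    apply hno
    refine hasPMs_two hE hM ?_
    rw [Set.disjoint_left]
    rintro e h5 ((h6 | h6) | h6)
    · exact (Set.disjoint_left.1 d12) h5 h6.1
    · exact (Set.disjoint_left.1 d13) h5 h6.1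
    · exact hGP e h6 h5
  rcases h2 V σ τ hσ2 hτ2 a b c d hσa hτb hab hac had hbc hbd hcd with
    ⟨U, hU1, hU2, haU, hcU, hbU, hdU⟩ | ⟨U, z, z', hz, hU1, hcU, hz'U, hzU, hU2⟩
  · refine fin U ∅ ∅ hU1 ?_ (by simp) (by simp) (by simp) hcU (Or.inl hbU) (by simp)
    intro v hv _
    refine ⟨fun h => hv ?_, by simp⟩
    have := hU2 _ h
    rwa [(hτ2 v).1] at this
  · have hcz' : c ≠ z' := by
      rcases hz with ⟨_, rfl⟩ | ⟨_, rfl⟩
      · exact hcd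
      · exact hbc.symm
    obtain ⟨g, hg, hgP⟩ : ∃ g, ends g = s(c, z') ∧ g ∉ P₁ := by
      rcases hz with ⟨_, rfl⟩ | ⟨_, rfl⟩
      · exact ⟨e₂, he₂, n2⟩
      · exact ⟨e₅, he₅, n51⟩
    refine fin U {c, z'} {g} hU1 ?_ ?_ ?_ ?_ hcU ?_ ?_
    · intro v hv hv'
      simp only [Set.mem_insert_iff, Set.mem_singleton_iff, not_or] at hv'
      obtain ⟨h5, h6, h7⟩ := hU2 v hv hv'.1 hv'.2
      refine ⟨h5, ?_⟩
      simp only [Set.mem_insert_iff, Set.mem_singleton_iff, not_or]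
      exact ⟨h6, h7⟩
    · intro v hv hv'
      simp only [Set.mem_insert_iff, Set.mem_singleton_iff] at hv'
      rcases hv' with rfl | rfl
      · exact hcU hv
      · exact hz'U hv
    · intro v hv
      simp only [Set.mem_insert_iff, Set.mem_singleton_iff] at hv
      refine ⟨g, ⟨rfl, by rw [hg, Sym2.mem_iff]; exact hv⟩, fun e he => he.1⟩
    · intro e he v hv
      rw [Set.mem_singleton_iff] at he
      rw [he, hg, Sym2.mem_iff] at hv
      simp only [Set.mem_insert_iff, Set.mem_singleton_iff]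
      exact hv
    · rcases hz with ⟨h, _⟩ | ⟨h, _⟩
      · exact Or.inl (h ▸ hzU)
      · exact Or.inr (h ▸ hzU)
    · intro e he
      rw [Set.mem_singleton_iff] at he
      rw [he]
      exact hgP

end RGraph.KT
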