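import Pool.Agent.Work.MP_426d99_co.KT.St

/-!
# The insertion of a gadget keeps the `r`-graph property
-/

open Finset Classical

namespace RGraph.KT

namespace InsR

/-! ### The finite check -/

/-- Number of light edges cut. -/
def LC (x : Fin 10 → Bool) : ℕ := ∑ a, if x (lu a) = x (lv a) then 0 else 1
/-- Number of heavy pairs cut. -/
def HC (x : Fin 10 → Bool) : ℕ := ∑ a, if x (hu a) = x (hv a) then 0 else 1
/-- Number of vertices. -/
def CC (x : Fin 10 → Bool) : ℕ := ∑ z, if x z = true then 1 else 0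

def test (x : Fin 10 → Bool) : Bool :=
  (x 0 = x 3 ∨ 1 ≤ LC x + HC x) ∧ (CC x % 2 = 1 → (1 ≤ HC x ∧
    3 ≤ LC x + HC x + (if x 0 = x 4 then 0 else 1) + (if x 3 = x 4 then 0 else 1)))

theorem test_all : ∀ b0 b1 b2 b3 b4 b5 b6 b7 b8 b9 : Bool,
    test ![b0, b1, b2, b3, b4, b5, b6, b7, b8, b9] = true := by
  decide +kernel

theorem vec10 {α : Type} (x : Fin 10 → α) :
    ![x 0, x 1, x 2, x 3, x 4, x 5, x 6, x 7, x 8, x 9] = x := by
  funext i
  fin_cases i <;> rfl

theorem test_true (x : Fin 10 → Bool) : test x = true := by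
  have h := test_all (x 0) (x 1) (x 2) (x 3) (x 4) (x 5) (x 6) (x 7) (x 8) (x 9)
  rwa [vec10] at h

/-- Characteristic function. -/
noncomputable def chi (X : Set (Fin 10)) : Fin 10 → Bool := fun z => decide (z ∈ X)

theorem chi_eq (X : Set (Fin 10)) (z z' : Fin 10) : chi X z = chi X z' ↔ (z ∈ X ↔ z' ∈ X) := by
  unfold chi
  rw [decide_eq_decide]

/-- Exactly one of two propositions. -/
noncomputable def dl (P Q : Prop) : ℕ := if (P ↔ Q) then 0 else 1

theorem ncard_sum {α : Type} [Fintype α] (S : Set α) :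
    S.ncard = ∑ a, if a ∈ S then 1 else 0 := by
  rw [Set.ncard_eq_toFinset_card', ← Finset.card_filter]
  congr 1
  ext z
  simp

theorem card_chi (X : Set (Fin 10)) : X.ncard = CC (chi X) := by
  unfold CC chi
  rw [ncard_sum]
  apply Finset.sum_congr rfl
  intro z _
  simp

theorem check1 (W : Set (Fin 10)) (h : ℕ) (hh : 1 ≤ h) :
    dl (0 ∈ W) (3 ∈ W) ≤ LC (chi W) + h * HC (chi W) := by
  have ht := test_true (chi W)
  unfold test at ht
  have ht' := (of_decide_eq_true ht).1
  rw [chi_eq] at ht'
  unfold dl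
  split_ifs with h1
  · exact Nat.zero_le _
  · have h2 := ht'.resolve_left h1
    have h3 : 1 * HC (chi W) ≤ h * HC (chi W) := Nat.mul_le_mul_right _ hh
    omega

theorem check2 (W : Set (Fin 10)) (h : ℕ) (hh : 1 ≤ h) (hodd : W.ncard % 2 = 1) :
    h + 2 ≤ LC (chi W) + h * HC (chi W) + dl (0 ∈ W) (4 ∈ W) + dl (3 ∈ W) (4 ∈ W) := by
  have ht := test_true (chi W)
  unfold test at ht
  rw [card_chi] at hodd
  obtain ⟨h1, h2⟩ := (of_decide_eq_true ht).2 hodd
  simp only [chi_eq] at h2
  obtain ⟨k, rfl⟩ : ∃ k, h = k + 1 := ⟨h - 1, by omega⟩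
  have h3 : k * 1 ≤ k * HC (chi W) := Nat.mul_le_mul_left _ h1
  have h4 : (k + 1) * HC (chi W) = k * HC (chi W) + HC (chi W) := by ring
  unfold dl
  rw [h4]
  omega

theorem check3 (z : Fin 10) (h : ℕ) :
    LC (chi {z}) + h * HC (chi {z}) + dl ((0 : Fin 10) ∈ ({z} : Set (Fin 10))) False +
      dl ((4 : Fin 10) ∈ ({z} : Set (Fin 10))) False +
      dl ((4 : Fin 10) ∈ ({z} : Set (Fin 10))) False +
      dl ((3 : Fin 10) ∈ ({z} : Set (Fin 10))) False = h + 2 := by
  have hchi : chi {z} = fun y => decide (y = z) := by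
    funext y
    simp [chi]
  have h1 : ∀ z : Fin 10, LC (fun y => decide (y = z)) + (if (0 : Fin 10) = z then 1 else 0) +
      (if (4 : Fin 10) = z then 1 else 0) + (if (4 : Fin 10) = z then 1 else 0) +
      (if (3 : Fin 10) = z then 1 else 0) = 2 := by decide +kernel
  have h2 : ∀ z : Fin 10, HC (fun y => decide (y = z)) = 1 := by decide +kernel
  have h3 : ∀ y : Fin 10, dl (y ∈ ({z} : Set (Fin 10))) False = if y = z then 1 else 0 := by
    intro y
    unfold dl
    by_cases hy : y = z <;> simp [hy]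
  rw [hchi, h2 z, h3, h3, h3]
  have := h1 z
  omega

/-! ### Indicators -/

section

variable {L E : Type} {r : ℕ}

/-- The old part of a set of vertices. -/
def old (X : Set (Option (L ⊕ Fin 10))) : Set (Option L) := {v | v.map Sum.inl ∈ X}

/-- The part of a set of vertices in the gadget. -/
def gad (X : Set (Option (L ⊕ Fin 10))) : Set (Fin 10) := {z | some (Sum.inr z) ∈ X}

theorem ind_dl {V E : Type} {ends : E → Sym2 V} {e : E} {u v : V} (h : ends e = s(u, v))
    (X : Set V) : ind ends X e = dl (u ∈ X) (v ∈ X) := ind_eq h X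

variable (h : ℕ) (ends : E → Sym2 L) (p : Fin r → L) (i j : Fin r)

theorem ind_old (X : Set (Option (L ⊕ Fin 10))) (e : E) :
    ind (cl (ins h ends p i j) (insp p i j)) X (Sum.inl (Sum.inl e)) =
      ind (cl ends p) (old X) (Sum.inl e) := by
  obtain ⟨u, v, huv⟩ := exists_ends ends e
  have h1 : cl (ins h ends p i j) (insp p i j) (Sum.inl (Sum.inl e)) =
      s(some (Sum.inl u), some (Sum.inl v)) := by
    simp [cl, ins, huv]
  have h2 : cl ends p (Sum.inl e) = s(some u, some v) := by
    simp [cl, huv]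
  rw [ind_dl h1, ind_dl h2]
  rfl

theorem ind_new0 (X : Set (Option (L ⊕ Fin 10))) :
    ind (cl (ins h ends p i j) (insp p i j)) X (Sum.inl (Sum.inr (Sum.inl 0))) =
      dl (some (p i) ∈ old X) (0 ∈ gad X) := by
  have h1 : cl (ins h ends p i j) (insp p i j) (Sum.inl (Sum.inr (Sum.inl 0))) =
      s(some (Sum.inl (p i)), some (Sum.inr 0)) := by
    simp [cl, ins]
  rw [ind_dl h1]
  rfl

theorem ind_new1 (X : Set (Option (L ⊕ Fin 10))) :
    ind (cl (ins h ends p i j) (insp p i j)) X (Sum.inl (Sum.inr (Sum.inl 1))) =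
      dl (some (p j) ∈ old X) (4 ∈ gad X) := by
  have h1 : cl (ins h ends p i j) (insp p i j) (Sum.inl (Sum.inr (Sum.inl 1))) =
      s(some (Sum.inl (p j)), some (Sum.inr 4)) := by
    simp [cl, ins]
  rw [ind_dl h1]
  rfl

theorem ind_light (X : Set (Option (L ⊕ Fin 10))) (a : Fin 8) :
    ind (cl (ins h ends p i j) (insp p i j)) X (Sum.inl (Sum.inr (Sum.inr (Sum.inl a)))) =
      dl (lu a ∈ gad X) (lv a ∈ gad X) := by
  have h1 : cl (ins h ends p i j) (insp p i j) (Sum.inl (Sum.inr (Sum.inr (Sum.inl a)))) =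
      s(some (Sum.inr (lu a)), some (Sum.inr (lv a))) := by
    simp [cl, ins]
  rw [ind_dl h1]
  rfl

theorem ind_heavy (X : Set (Option (L ⊕ Fin 10))) (a : Fin 5) (b : Fin h) :
    ind (cl (ins h ends p i j) (insp p i j)) X (Sum.inl (Sum.inr (Sum.inr (Sum.inr (a, b))))) =
      dl (hu a ∈ gad X) (hv a ∈ gad X) := by
  have h1 : cl (ins h ends p i j) (insp p i j) (Sum.inl (Sum.inr (Sum.inr (Sum.inr (a, b))))) =
      s(some (Sum.inr (hu a)), some (Sum.inr (hv a))) := by
    simp [cl, ins]
  rw [ind_dl h1]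
  rfl

theorem ind_strand (X : Set (Option (L ⊕ Fin 10))) (k : Fin r) :
    ind (cl (ins h ends p i j) (insp p i j)) X (Sum.inr k) =
      if k = i then dl (4 ∈ gad X) (none ∈ old X) else
        if k = j then dl (3 ∈ gad X) (none ∈ old X) else
          dl (some (p k) ∈ old X) (none ∈ old X) := by
  have h1 : cl (ins h ends p i j) (insp p i j) (Sum.inr k) = s(some (insp p i j k), none) := rfl
  rw [ind_dl h1]
  unfold insp
  split_ifs <;> rfl

theorem ind_strand' (Z : Set (Option L)) (k : Fin r) :
    ind (cl ends p) Z (Sum.inr k) = dl (some (p k) ∈ Z) (none ∈ Z) :=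
  ind_dl (show cl ends p (Sum.inr k) = s(some (p k), none) from rfl) Z

theorem sum_two {i j : Fin r} (hij : i ≠ j) (g : Fin r → ℕ) (a b : ℕ) :
    (∑ k, if k = i then a else if k = j then b else g k) + g i + g j =
      (∑ k, g k) + a + b := by
  have hj : j ∈ univ.erase i := mem_erase.2 ⟨hij.symm, mem_univ j⟩
  have e1 := Finset.add_sum_erase univ (fun k => if k = i then a else if k = j then b else g k)
    (mem_univ i)
  have e2 := Finset.add_sum_erase (univ.erase i)
    (fun k => if k = i then a else if k = j then b else g k) hj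
  have e3 := Finset.add_sum_erase univ g (mem_univ i)
  have e4 := Finset.add_sum_erase (univ.erase i) g hj
  have e5 : ∑ k ∈ (univ.erase i).erase j, (if k = i then a else if k = j then b else g k) =
      ∑ k ∈ (univ.erase i).erase j, g k := by
    apply Finset.sum_congr rfl
    intro k hk
    rw [mem_erase, mem_erase] at hk
    rw [if_neg hk.2.1, if_neg hk.1]
  simp only [if_true, if_neg hij.symm] at e1 e2
  omega

theorem cut_eq [Fintype E] (hij : i ≠ j) (X : Set (Option (L ⊕ Fin 10))) :
    (boundary (cl (ins h ends p i j) (insp p i j)) X).ncard +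
      dl (some (p i) ∈ old X) (none ∈ old X) + dl (some (p j) ∈ old X) (none ∈ old X) =
    (boundary (cl ends p) (old X)).ncard + dl (some (p i) ∈ old X) (0 ∈ gad X) +
      dl (some (p j) ∈ old X) (4 ∈ gad X) + (LC (chi (gad X)) + h * HC (chi (gad X))) +
      dl (4 ∈ gad X) (none ∈ old X) + dl (3 ∈ gad X) (none ∈ old X) := by
  rw [ncard_eq, ncard_eq, Fintype.sum_sum_type, Fintype.sum_sum_type, Fintype.sum_sum_type,
    Fintype.sum_sum_type, Fintype.sum_prod_type, Fin.sum_univ_two, ind_new0, ind_new1,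
    Fintype.sum_sum_type]
  simp only [ind_old, ind_light, ind_heavy, ind_strand]
  simp only [ind_strand']
  have h1 : ∑ a, dl (lu a ∈ gad X) (lv a ∈ gad X) = LC (chi (gad X)) := by
    unfold LC dl
    simp only [chi_eq]
  have h2 : ∑ a, ∑ _b : Fin h, dl (hu a ∈ gad X) (hv a ∈ gad X) = h * HC (chi (gad X)) := by
    unfold HC dl
    rw [Finset.mul_sum]
    simp only [chi_eq, Finset.sum_const, Finset.card_univ, Fintype.card_fin, smul_eq_mul]
  have h3 := sum_two hij (fun k => dl (some (p k) ∈ old X) (none ∈ old X))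
    (dl (4 ∈ gad X) (none ∈ old X)) (dl (3 ∈ gad X) (none ∈ old X))
  rw [h1, h2]
  omega

theorem card_eq [Fintype L] (X : Set (Option (L ⊕ Fin 10))) :
    X.ncard = (old X).ncard + (gad X).ncard := by
  rw [ncard_sum, ncard_sum (old X), ncard_sum (gad X), Fintype.sum_option, Fintype.sum_option,
    Fintype.sum_sum_type]
  have h1 : ∀ a : L, (some a ∈ old X) = (some (Sum.inl a) ∈ X) := fun _ => rfl
  have h2 : (none ∈ old X) = (none ∈ X) := rfl
  have h3 : ∀ z : Fin 10, (z ∈ gad X) = (some (Sum.inr z) ∈ X) := fun _ => rfl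
  simp only [h1, h2, h3]
  omega

end

theorem dl_tri (P Q R : Prop) : dl P R ≤ dl P Q + dl Q R := by
  unfold dl
  by_cases hP : P <;> by_cases hQ : Q <;> by_cases hR : R <;> simp [hP, hQ, hR]

theorem dl_comm (P Q : Prop) : dl P Q = dl Q P := by
  unfold dl
  by_cases hP : P <;> by_cases hQ : Q <;> simp [hP, hQ]

theorem dl_self (P : Prop) : dl P P = 0 := by
  unfold dl
  simp

theorem dl_ff : dl False False = 0 := dl_self False

theorem empty_cut (h : ℕ) : LC (chi ∅) + h * HC (chi ∅) = 0 := by
  have hchi : chi (∅ : Set (Fin 10)) = fun _ => false := by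
    funext y
    simp [chi]
  rw [hchi]
  have h1 : LC (fun _ => false) = 0 := by decide +kernel
  have h2 : HC (fun _ => false) = 0 := by decide +kernel
  rw [h1, h2, Nat.mul_zero]

/-- The arithmetic of the second case. -/
theorem parity_step {c : ℕ} (P Q R : Prop) (hc : c % 2 = 0) (hle : dl P R + dl Q R ≤ c) :
    dl P R + dl Q R + dl P Q ≤ c := by
  unfold dl at *
  by_cases hP : P <;> by_cases hQ : Q <;> by_cases hR : R <;> simp [hP, hQ, hR] at hle ⊢ <;> omega

end InsR

open InsR in
theorem I_InsR : StInsR := by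
  intro r h hr hh L E _ _ ends p i j hij hG
  have := Fintype.ofFinite L
  have := Fintype.ofFinite E
  have hcut := cut_eq h ends p i j hij
  refine ⟨?_, ?_, ?_⟩
  · rintro ((e | (a | (a | ⟨a, b⟩))) | k)
    · obtain ⟨u, v, huv⟩ := exists_ends ends e
      have h1 : cl (ins h ends p i j) (insp p i j) (Sum.inl (Sum.inl e)) =
          s(some (Sum.inl u), some (Sum.inl v)) := by
        simp [cl, ins, huv]
      have h2 := hG.loopless (Sum.inl e)
      have h3 : cl ends p (Sum.inl e) = s(some u, some v) := by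
        simp [cl, huv]
      rw [h3] at h2
      rw [h1]
      simp only [Sym2.mk_isDiag_iff, Option.some.injEq, Sum.inl.injEq] at h2 ⊢
      exact h2
    · fin_cases a <;> simp [cl, ins]
    · have h2 : ∀ a, lu a ≠ lv a := by decide
      simpa [cl, ins] using h2 a
    · have h2 : ∀ a, hu a ≠ hv a := by decide
      simpa [cl, ins] using h2 a
    · simp [cl]
  · intro v
    have hc := hcut {v}
    rcases v with _ | (v | z)
    · have h1 : old ({none} : Set (Option (L ⊕ Fin 10))) = {none} := by
        ext v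
        cases v <;> simp [old]
      have h2 : gad ({none} : Set (Option (L ⊕ Fin 10))) = ∅ := by
        ext z
        simp [gad]
      rw [h1, h2, hG.regular, empty_cut] at hc
      simp only [Set.mem_singleton_iff, Set.mem_empty_iff_false, reduceCtorEq] at hc
      rw [dl_ff] at hc
      omega
    · have h1 : old ({some (Sum.inl v)} : Set (Option (L ⊕ Fin 10))) = {some v} := by
        ext v
        cases v <;> simp [old]
      have h2 : gad ({some (Sum.inl v)} : Set (Option (L ⊕ Fin 10))) = ∅ := by
        ext z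
        simp [gad]
      rw [h1, h2, hG.regular, empty_cut] at hc
      simp only [Set.mem_singleton_iff, Set.mem_empty_iff_false, reduceCtorEq] at hc
      rw [dl_ff] at hc
      omega
    · have h1 : old ({some (Sum.inr z)} : Set (Option (L ⊕ Fin 10))) = ∅ := by
        ext v
        cases v <;> simp [old]
      have h2 : gad ({some (Sum.inr z)} : Set (Option (L ⊕ Fin 10))) = {z} := by
        ext z
        simp [gad]
      have h3 : boundary (cl ends p) (∅ : Set (Option L)) = ∅ := by
        ext e
        simp [boundary]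
      have h4 := check3 z h
      rw [h1, h2, h3, Set.ncard_empty] at hc
      have h5 : ∀ v : Option L, (v ∈ (∅ : Set (Option L))) = False := fun v => by simp
      simp only [h5] at hc
      rw [dl_ff, dl_comm False, dl_comm False] at hc
      omega
  · intro X hX
    have hc := hcut X
    have hcard := card_eq X
    have hp := parity hG.regular (old X)
    rcases Nat.even_or_odd (old X).ncard with hZ | hZ
    · have hW : (gad X).ncard % 2 = 1 := by
        rw [hcard] at hX
        rw [Nat.odd_iff] at hX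
        rw [Nat.even_iff] at hZ
        omega
      have h1 := check2 (gad X) h hh hW
      have h2 : (boundary (cl ends p) (old X)).ncard % 2 = 0 := by
        rw [hp]
        obtain ⟨k, hk⟩ := hZ
        rw [hk, ← two_mul, mul_assoc]
        omega
      have h3 : dl (some (p i) ∈ old X) (none ∈ old X) + dl (some (p j) ∈ old X) (none ∈ old X) ≤
          (boundary (cl ends p) (old X)).ncard := by
        rw [ncard_eq, Fintype.sum_sum_type]
        simp only [ind_strand']
        have := InsR.sum_two hij (fun k => dl (some (p k) ∈ old X) (none ∈ old X)) 0 0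
        omega
      have h4 := parity_step _ _ _ h2 h3
      have h5 := dl_tri (0 ∈ gad X) (some (p i) ∈ old X) (some (p j) ∈ old X)
      have h6 := dl_tri (0 ∈ gad X) (some (p j) ∈ old X) (4 ∈ gad X)
      have h7 := dl_tri (3 ∈ gad X) (none ∈ old X) (4 ∈ gad X)
      rw [dl_comm (0 ∈ gad X) (some (p i) ∈ old X)] at h5
      rw [dl_comm (none ∈ old X) (4 ∈ gad X)] at h7
      omega
    · have h0 := hG.odd _ hZ
      have h1 := check1 (gad X) h hh
      have h5 := dl_tri (some (p i) ∈ old X) (0 ∈ gad X) (none ∈ old X)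
      have h6 := dl_tri (0 ∈ gad X) (3 ∈ gad X) (none ∈ old X)
      have h7 := dl_tri (some (p j) ∈ old X) (4 ∈ gad X) (none ∈ old X)
      omega

end RGraph.KT
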