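import Pool.Agent.Work.MP_426d99_co.Walk

/-!
# Poles, Petersen gadgets on two strands, and the statements of the first block

A pole is a finite multigraph `ends : E → Sym2 L` together with `r` strands `p : Fin r → L`; closing
the strands in a new root vertex gives the graph `cl ends p` on `Option L`.
-/

open Finset Classical

namespace RGraph.KT

/-- The graph obtained from a pole by joining all strands to a root `none`. -/
def cl {L E : Type} {r : ℕ} (ends : E → Sym2 L) (p : Fin r → L) : E ⊕ Fin r → Sym2 (Option L)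
  | Sum.inl e => (ends e).map some
  | Sum.inr k => s(some (p k), none)

/-- A near perfect matching: all vertices except the root are covered exactly once. -/
def NPM {L E : Type} {r : ℕ} (ends : E → Sym2 L) (p : Fin r → L) (F : Set (E ⊕ Fin r)) : Prop :=
  ∀ v : L, ∃! x, x ∈ F ∧ some v ∈ cl ends p x

/-- First ends of the 8 light edges of the gadget (Petersen graph: `0 1 2 3 4` outer cycle,
spokes `0 5, 1 6, 2 7, 3 8, 4 9`, inner cycle `5 7 9 6 8`; the edges `0 4`, `3 4` are cut). -/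
def lu : Fin 8 → Fin 10 := ![0, 1, 1, 2, 3, 5, 7, 6]
/-- Second ends of the light edges. -/
def lv : Fin 8 → Fin 10 := ![5, 2, 6, 7, 8, 8, 9, 9]
/-- First ends of the 5 heavy edges. -/
def hu : Fin 5 → Fin 10 := ![0, 2, 5, 6, 4]
/-- Second ends of the heavy edges. -/
def hv : Fin 5 → Fin 10 := ![1, 3, 7, 8, 9]

/-- The new internal edges. -/
abbrev NE (h : ℕ) := Fin 2 ⊕ (Fin 8 ⊕ (Fin 5 × Fin h))

/-- The gadget is inserted on the strands `i` and `j`. -/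
def ins {L E : Type} {r : ℕ} (h : ℕ) (ends : E → Sym2 L) (p : Fin r → L) (i j : Fin r) :
    E ⊕ NE h → Sym2 (L ⊕ Fin 10)
  | Sum.inl e => (ends e).map Sum.inl
  | Sum.inr (Sum.inl a) =>
      if a = 0 then s(Sum.inl (p i), Sum.inr 0) else s(Sum.inl (p j), Sum.inr 4)
  | Sum.inr (Sum.inr (Sum.inl a)) => s(Sum.inr (lu a), Sum.inr (lv a))
  | Sum.inr (Sum.inr (Sum.inr m)) => s(Sum.inr (hu m.1), Sum.inr (hv m.1))

/-- The strands after the insertion. -/
def insp {L : Type} {r : ℕ} (p : Fin r → L) (i j : Fin r) : Fin r → L ⊕ Fin 10 :=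
  fun k => if k = i then Sum.inr 4 else if k = j then Sum.inr 3 else Sum.inl (p k)

/-- The part of an edge set lying in the old pole. -/
def pull {E : Type} {r h : ℕ} (i j : Fin r) (F : Set ((E ⊕ NE h) ⊕ Fin r)) : Set (E ⊕ Fin r) :=
  {x | match x with
    | Sum.inl e => Sum.inl (Sum.inl e) ∈ F
    | Sum.inr k => if k = i then Sum.inl (Sum.inr (Sum.inl 0)) ∈ F
        else if k = j then Sum.inl (Sum.inr (Sum.inl 1)) ∈ F else Sum.inr k ∈ F}

/-- The possible transitions of the traces at the two strands of a gadget. -/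
def Tr (a b a' b' : Prop) : Prop :=
  (¬ a ∧ ¬ b ∧ ¬ a' ∧ ¬ b') ∨ (¬ a ∧ ¬ b ∧ a' ∧ b') ∨ (a ∧ ¬ b ∧ a' ∧ ¬ b') ∨
    (a ∧ ¬ b ∧ ¬ a' ∧ b') ∨ (¬ a ∧ b ∧ ¬ a' ∧ b') ∨ (a ∧ b ∧ ¬ a' ∧ ¬ b')

/-- The edge set touches the gadget. -/
def Act {E : Type} {r h : ℕ} (i j : Fin r) (F : Set ((E ⊕ NE h) ⊕ Fin r)) : Prop :=
  Sum.inr i ∈ pull i j F ∨ Sum.inr j ∈ pull i j F ∨ Sum.inr i ∈ F ∨ Sum.inr j ∈ F

/-- (INSR) the insertion keeps the `r`-graph property. -/
def StInsR : Prop := ∀ (r h : ℕ), r = h + 2 → 1 ≤ h → ∀ (L E : Type) [Finite L] [Finite E]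
  (ends : E → Sym2 L) (p : Fin r → L) (i j : Fin r), i ≠ j → IsRGraph r (cl ends p) →
    IsRGraph r (cl (ins h ends p i j) (insp p i j))

/-- (INSP) near perfect matchings restrict to near perfect matchings. -/
def StInsP : Prop := ∀ (r h : ℕ) (L E : Type) (ends : E → Sym2 L) (p : Fin r → L) (i j : Fin r),
  i ≠ j → ∀ F, NPM (ins h ends p i j) (insp p i j) F →
    NPM ends p (pull i j F) ∧
      Tr (Sum.inr i ∈ pull i j F) (Sum.inr j ∈ pull i j F) (Sum.inr i ∈ F) (Sum.inr j ∈ F)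

/-- (INSD) two disjoint near perfect matchings do not both touch the gadget. -/
def StInsD : Prop := ∀ (r h : ℕ) (L E : Type) (ends : E → Sym2 L) (p : Fin r → L) (i j : Fin r),
  i ≠ j → ∀ F G, NPM (ins h ends p i j) (insp p i j) F →
    NPM (ins h ends p i j) (insp p i j) G → Disjoint F G →
      Disjoint (pull i j F) (pull i j G) ∧ ¬ (Act i j F ∧ Act i j G)

/-- A family of disjoint near perfect matchings `F s`, `s ∈ K`, where `F s` uses the strand `s`. -/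
def Fam {L E : Type} {r : ℕ} (ends : E → Sym2 L) (p : Fin r → L) (K : Finset (Fin r))
    (F : Fin r → Set (E ⊕ Fin r)) : Prop :=
  (∀ s ∈ K, NPM ends p (F s) ∧ ∀ k, Sum.inr k ∈ F s ↔ k = s) ∧
    ∀ s ∈ K, ∀ t ∈ K, s ≠ t → Disjoint (F s) (F t)

/-- (FAM) such families extend over a gadget. -/
def StFam : Prop := ∀ (r h : ℕ) (L E : Type) (ends : E → Sym2 L) (p : Fin r → L) (i j : Fin r),
  i ≠ j → ∀ K : Finset (Fin r), K.card ≤ h → ¬ (i ∈ K ∧ j ∈ K) → ∀ F, Fam ends p K F →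
    ∃ F', Fam (ins h ends p i j) (insp p i j) K F'

/-! ### Traces -/

/-- The strands used. -/
noncomputable def tr {E : Type} {r : ℕ} (F : Set (E ⊕ Fin r)) : Finset ℕ :=
  (Finset.range r).filter (fun k => ∃ hk : k < r, Sum.inr (⟨k, hk⟩ : Fin r) ∈ F)

/-- One gadget on the strands `i`, `j`. -/
def StepR (i j : ℕ) (S T S' T' : Finset ℕ) : Prop :=
  Tr (i ∈ S) (j ∈ S) (i ∈ S') (j ∈ S') ∧ Tr (i ∈ T) (j ∈ T) (i ∈ T') (j ∈ T') ∧
    (∀ k, k ≠ i → k ≠ j → ((k ∈ S' ↔ k ∈ S) ∧ (k ∈ T' ↔ k ∈ T))) ∧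
    ¬ ((i ∈ S ∨ j ∈ S ∨ i ∈ S' ∨ j ∈ S') ∧ (i ∈ T ∨ j ∈ T ∨ i ∈ T' ∨ j ∈ T'))

/-- The pairs of traces reachable after a list of gadgets (the head is the last gadget). -/
def Reach : List (ℕ × ℕ) → Finset ℕ → Finset ℕ → Prop
  | [], S, T => Disjoint S T
  | g :: l, S', T' => Disjoint S' T' ∧ ∃ S T, Reach l S T ∧ StepR g.1 g.2 S T S' T'

/-- The gadgets `(i, j)`, `i < m`, `i ≡ j` mod `K`, the last one first. -/
def batch (K j : ℕ) : ℕ → List (ℕ × ℕ)
  | 0 => []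
  | i + 1 => if i % K = j % K then (i, j) :: batch K j i else batch K j i

/-- All gadgets `(i, j)`, `i < j < m`, `i ≡ j` mod `K`, in colexicographic order, last first. -/
def colex (K : ℕ) : ℕ → List (ℕ × ℕ)
  | 0 => []
  | j + 1 => batch K j j ++ colex K j

/-- (COLEX) after all gadgets two disjoint traces are not both odd on the same class. -/
def StColex : Prop := ∀ (K r : ℕ), 1 ≤ K → ∀ S T, Reach (colex K r) S T → ∀ c,
  ¬ (Odd ((Finset.range r).filter (fun m => m % K = c ∧ m ∈ S)).card ∧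
    Odd ((Finset.range r).filter (fun m => m % K = c ∧ m ∈ T)).card)

/-- (LEN) the number of gadgets. -/
def StLen : Prop := (∀ (K r : ℕ), 1 ≤ K → (colex K r).length = ∑ j ∈ Finset.range r, j / K) ∧
  (∀ r : ℕ, ∑ j ∈ Finset.range r, j / 1 = r * (r - 1) / 2) ∧
  (∀ r : ℕ, ∑ j ∈ Finset.range r, j / 2 = (r - 1) ^ 2 / 4) ∧
  (∀ K r : ℕ, 1 ≤ K → 2 * K * ∑ j ∈ Finset.range r, j / K ≤ r * r) ∧
  (∀ (K r : ℕ), 1 ≤ K → ∀ g ∈ colex K r, g.1 < g.2 ∧ g.2 < r ∧ g.1 % K = g.2 % K)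

/-- (POLE) the pole of a list of gadgets. -/
def StPole : Prop := ∀ (r h : ℕ), r = h + 2 → 1 ≤ h → ∀ l : List (ℕ × ℕ),
  (∀ g ∈ l, g.1 < r ∧ g.2 < r ∧ g.1 ≠ g.2) →
  ∃ (L E : Type) (_ : Finite L) (_ : Finite E) (ends : E → Sym2 L) (p : Fin r → L),
    IsRGraph r (cl ends p) ∧ Nat.card L = 1 + 10 * l.length ∧
    (∀ F G, NPM ends p F → NPM ends p G → Disjoint F G → Reach l (tr F) (tr G)) ∧
    (∀ K : Finset (Fin r), K.card ≤ h →
      (∀ g ∈ l, ∀ s ∈ K, ∀ t ∈ K, ¬ (s.1 = g.1 ∧ t.1 = g.2)) → ∃ F, Fam ends p K F) ∧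
    (l ≠ [] → 2 ≤ h → ∃ e e', e ≠ e' ∧ cl ends p e = cl ends p e')

/-- (ORDER) an `r`-graph with `π = k` and few vertices. -/
def StOrder : Prop := ∀ r k : ℕ, 1 ≤ k → k + 2 ≤ r →
  ∃ (V E : Type) (_ : Finite V) (_ : Finite E) (ends : E → Sym2 V),
    IsRGraph r ends ∧ PiEq ends k ∧ Nat.card V = 2 + 10 * ∑ j ∈ Finset.range r, j / k ∧
      (4 ≤ r → ∃ e e', e ≠ e' ∧ ends e = ends e')

end RGraph.KT
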