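import Pool.Agent.Work.MP_426d99_co.Main
import Pool.Agent.Work.MP_426d99_co.KT.St
import Pool.Agent.Work.MP_426d99_co.KT.EE

/-!
# Statements of the second block: `𝒯(r, 2) ⊆ ℋ_r` for `r ≥ 5`
-/

open Finset Classical

namespace RGraph.KT

/-! ### Simple graphs -/

/-- (TUT) Tutte's theorem for the graph induced on `W`. -/
def StTut : Prop := ∀ (V : Type) [Fintype V] (G : SimpleGraph V) (W : Finset V),
  Even W.card → (¬ ∃ σ, PMon G W σ) →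
  ∃ (S : Finset V) (C : Finset (Finset V)), S ⊆ W ∧
    (∀ A ∈ C, A ⊆ W ∧ Disjoint A S ∧ Odd A.card) ∧
    (∀ A ∈ C, ∀ B ∈ C, A ≠ B → Disjoint A B) ∧
    (∀ A ∈ C, ∀ u ∈ A, ∀ v ∈ W, v ∉ A → v ∉ S → ¬ G.Adj u v) ∧ S.card + 2 ≤ C.card

/-- (MOORE) few edges in a graph without triangles and 4-cycles. -/
def StMoore : Prop := ∀ (V : Type) [Fintype V] (G : SimpleGraph V) (Z : Finset V),
  C34free G Z → (ee G Z Z) ^ 2 ≤ Z.card ^ 2 * (Z.card - 1)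

/-- (DEF) an odd set with a small boundary, for an even set `W` with a small boundary. -/
def StDef : Prop := ∀ (V : Type) [Fintype V] (G : SimpleGraph V) (D : ℕ) (W : Finset V),
  Reg G D → Even W.card → ee G W Wᶜ + 2 ≤ 2 * D → (¬ ∃ σ, PMon G W σ) →
    ∃ C ⊆ W, Odd C.card ∧ ee G C Cᶜ < D

/-- (DEF2) the same for `W = V`: an isolated odd set or three odd sets with small boundary. -/
def StDef2 : Prop := ∀ (V : Type) [Fintype V] (G : SimpleGraph V) (D : ℕ),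
  Reg G D → Even (Fintype.card V) → (¬ ∃ σ, PMon G univ σ) →
    (∃ C : Finset V, Odd C.card ∧ ee G C Cᶜ = 0) ∨
    (∃ A B C : Finset V, Disjoint A B ∧ Disjoint A C ∧ Disjoint B C ∧ Odd A.card ∧ Odd B.card ∧
      Odd C.card ∧ ee G A Aᶜ < D ∧ ee G B Bᶜ < D ∧ ee G C Cᶜ < D)

/-- (NUM) arithmetic. `m` is the inner degree sum, `t` the boundary. -/
def StNum : Prop :=
  (∀ d z t m : ℕ, 4 ≤ d → Odd z → t + 2 ≤ d → m + t = d * z → m ^ 2 ≤ z ^ 2 * (z - 1) →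
    d ^ 2 ≤ z + 1) ∧
  (∀ d y t m : ℕ, 4 ≤ d → Even y → 4 ≤ y → t + 2 ≤ 2 * d → m + t = d * y →
    m ^ 2 ≤ y ^ 2 * (y - 1) → d ^ 2 ≤ y + 3) ∧
  (∀ d z m : ℕ, 1 ≤ d → 1 ≤ z → d * z ≤ m → m ^ 2 ≤ z ^ 2 * (z - 1) → d ^ 2 + 1 ≤ z) ∧
  (∀ d n : ℕ, 4 ≤ d → 4 * d ^ 2 ≤ n + 8 → 10 * (d ^ 2 / 4) + 2 ≤ n) ∧
  (∀ d n : ℕ, 4 ≤ d → 3 * d ^ 2 ≤ n + 3 → 10 * (d ^ 2 / 4) + 2 ≤ n) ∧
  (∀ d n : ℕ, 4 ≤ d → 2 * (d ^ 2 + 1) + ((d - 1) ^ 2 + 1) ≤ n → 10 * (d ^ 2 / 4) + 2 ≤ n) ∧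
  (∀ d a b : ℕ, 4 ≤ d → 2 * ((d - 1) ^ 2 + 1) ≤ a → 2 * ((d - 1) ^ 2 + 1) ≤ b → Odd a → Odd b →
    10 * (d ^ 2 / 4) + 2 ≤ a + b)

/-- (EXT) in a graph with large odd cuts even sets with a small boundary have a perfect
matching. -/
def StExt : Prop := ∀ (V : Type) [Fintype V] (G : SimpleGraph V) (r : ℕ) (W : Finset V),
  Reg G r → OddCut G r → Even W.card → ee G W Wᶜ + 2 ≤ 2 * r → ∃ σ, PMon G W σ

/-- (TIGHT) a minimal nontrivial tight set is large. -/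
def StTight : Prop := ∀ (V : Type) [Fintype V] (G : SimpleGraph V) (d : ℕ) (X : Finset V),
  4 ≤ d → Reg G (d + 1) → OddCut G (d + 1) → ¬ TwoPM G → MinTight G (d + 1) X → C34free G X →
    OutPair G X → 2 * d ^ 2 ≤ X.card + 4

/-- (CELLS) the case without nontrivial tight sets. -/
def StCells : Prop := ∀ (V : Type) [Fintype V] (G : SimpleGraph V) (d : ℕ),
  4 ≤ d → Reg G (d + 1) → OddCut G (d + 1) → Nonempty V → Even (Fintype.card V) → ¬ TwoPM G →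
    C34free G univ → 10 * (d ^ 2 / 4) + 2 ≤ Fintype.card V

/-! ### Multigraphs -/

/-- All `r`-graphs of smaller order have two disjoint perfect matchings. -/
def MinLow (r n : ℕ) : Prop := ∀ (V E : Type) [Finite V] [Finite E] (ends : E → Sym2 V),
  IsRGraph r ends → Nat.card V < n → HasPMs ends 2

/-- At order `n` the value `π = 2` is skipped. -/
def Jump (r n : ℕ) : Prop := ∀ (V E : Type) [Finite V] [Finite E] (ends : E → Sym2 V),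
  IsRGraph r ends → Nat.card V = n → HasPMs ends 2 → HasPMs ends 3

/-- (JUMPL) the three perfect matchings of a switched graph. -/
def StJumpL : Prop := ∀ (V E : Type) [Finite V] [Finite E] (ends : E → Sym2 V) (e₁ e₂ : E)
  (a b c d : V), ends e₁ = s(a, b) → ends e₂ = s(c, d) → a ≠ b → a ≠ c → a ≠ d → b ≠ c → b ≠ d →
  c ≠ d → HasPMs (sw ends e₁ e₂ a b c d) 3 → ¬ HasPMs ends 2 →
  ∃ P₁ P₂ P₃ : Set E, IsPM (sw ends e₁ e₂ a b c d) P₁ ∧ IsPM (sw ends e₁ e₂ a b c d) P₂ ∧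
    IsPM (sw ends e₁ e₂ a b c d) P₃ ∧ Disjoint P₁ P₂ ∧ Disjoint P₁ P₃ ∧ Disjoint P₂ P₃ ∧
    e₁ ∉ P₁ ∧ e₂ ∉ P₁ ∧ e₁ ∈ P₂ ∧ e₂ ∈ P₃ ∧ IsPM ends P₁

/-- (DOUBLE) a free parallel copy of the new edge gives two disjoint perfect matchings. -/
def StDouble : Prop := ∀ (V E : Type) [Finite V] [Finite E] (ends : E → Sym2 V)
  (e₁ e₂ e₃ e₄ : E) (a b c d : V), ends e₁ = s(a, b) → ends e₂ = s(c, d) → a ≠ b → a ≠ c →
  a ≠ d → b ≠ c → b ≠ d → c ≠ d → ends e₃ = s(a, c) → ends e₄ = s(a, c) → e₃ ≠ e₄ →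
  HasPMs (sw ends e₁ e₂ a b c d) 3 → HasPMs ends 2

/-- (C4) the 4-cycle `a b d c` with edges `e₁ = ab`, `e₂ = cd`, `e₃ = ac`, `e₄ = bd`. -/
def StC4 : Prop := ∀ (V E : Type) [Finite V] [Finite E] (ends : E → Sym2 V)
  (e₁ e₂ e₃ e₄ : E) (a b c d : V), ends e₁ = s(a, b) → ends e₂ = s(c, d) → a ≠ b → a ≠ c →
  a ≠ d → b ≠ c → b ≠ d → c ≠ d → ends e₃ = s(a, c) → ends e₄ = s(b, d) →
  HasPMs (sw ends e₁ e₂ a b c d) 3 → HasPMs ends 2

/-- (C3) the triangle `a b c` with edges `e₁ = ab`, `e₃ = ac`, `e₅ = cb` and the further edge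
`e₂ = cd`. -/
def StC3 : Prop := ∀ (V E : Type) [Finite V] [Finite E] (ends : E → Sym2 V)
  (e₁ e₂ e₃ e₅ : E) (a b c d : V), (∀ e, ¬ (ends e).IsDiag) → ends e₁ = s(a, b) → ends e₂ = s(c, d) → a ≠ b → a ≠ c →
  a ≠ d → b ≠ c → b ≠ d → c ≠ d → ends e₃ = s(a, c) → ends e₅ = s(c, b) →
  HasPMs (sw ends e₁ e₂ a b c d) 3 → HasPMs ends 2

/-- (ORB) two fixed point free involutions with `σ a = c`, `τ b = d`. -/
def StOrb : Prop := ∀ (V : Type) [Finite V] (σ τ : V → V), (∀ v, σ (σ v) = v ∧ σ v ≠ v) →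
  (∀ v, τ (τ v) = v ∧ τ v ≠ v) → ∀ a b c d : V, σ a = c → τ b = d → a ≠ b → a ≠ c → a ≠ d →
  b ≠ c → b ≠ d → c ≠ d →
  (∃ U : Set V, (∀ v ∈ U, σ v ∈ U) ∧ (∀ v ∈ U, τ v ∈ U) ∧ a ∉ U ∧ c ∉ U ∧ b ∈ U ∧ d ∈ U) ∨
  (∃ (U : Set V) (z z' : V), ((z = b ∧ z' = d) ∨ (z = d ∧ z' = b)) ∧ (∀ v ∈ U, σ v ∈ U) ∧
    c ∉ U ∧ z' ∉ U ∧ z ∈ U ∧ ∀ v, v ∉ U → v ≠ c → v ≠ z' → τ v ∉ U ∧ τ v ≠ c ∧ τ v ≠ z')

/-- (SIMPLE) the low graphs of order `n` are simple. -/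
def StSimple : Prop := ∀ r n : ℕ, 3 ≤ r → Jump r n → MinLow r n →
  ∀ (V E : Type) [Finite V] [Finite E] (ends : E → Sym2 V), IsRGraph r ends → Nat.card V = n →
    ¬ HasPMs ends 2 → Function.Injective ends

/-- The underlying simple graph. -/
def gr {V E : Type} (ends : E → Sym2 V) : SimpleGraph V where
  Adj u v := u ≠ v ∧ ∃ e, ends e = s(u, v)
  symm := ⟨fun _ _ h => ⟨h.1.symm, by obtain ⟨e, he⟩ := h.2; exact ⟨e, by rw [he, Sym2.eq_swap]⟩⟩⟩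
  loopless := ⟨fun _ h => h.1 rfl⟩

/-- (BRIDGE) from the multigraph to the simple graph. -/
def StBridge : Prop := ∀ (V E : Type) [Fintype V] [Finite E] (ends : E → Sym2 V) (r : ℕ),
  1 ≤ r → IsRGraph r ends → Function.Injective ends →
    Reg (gr ends) r ∧ OddCut (gr ends) r ∧ Even (Fintype.card V) ∧
    (∀ X : Finset V, ee (gr ends) X Xᶜ = (boundary ends (X : Set V)).ncard) ∧
    (TwoPM (gr ends) → HasPMs ends 2)

/-- (CONTR) contraction of a tight set. -/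
def StContr : Prop := ∀ r n : ℕ, 1 ≤ r → MinLow r n → ∀ (V E : Type) [Fintype V] [Finite E]
  (ends : E → Sym2 V), IsRGraph r ends → Function.Injective ends → Fintype.card V = n →
    ∀ X : Finset V, Odd X.card → 3 ≤ X.card → (boundary ends (X : Set V)).ncard = r →
      OutPair (gr ends) X

/-- (REG) switches inside a minimal tight set, or inside `V` if there is no nontrivial tight set,
are good. -/
def StReg : Prop := ∀ (V E : Type) [Fintype V] [Finite E] (ends : E → Sym2 V) (r : ℕ),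
  1 ≤ r → IsRGraph r ends → Function.Injective ends → ∀ X : Finset V,
    (MinTight (gr ends) r X ∨ (X = univ ∧ ¬ ∃ Y, TightS (gr ends) r Y)) →
    ∀ a ∈ X, ∀ b ∈ X, ∀ c ∈ X, ∀ d ∈ X, a ≠ c → b ≠ d → ∀ Y : Set V, Tight r ends a c Y →
      ¬ (b ∈ Y ∧ d ∈ Y)

/-- (C34) no triangles and 4-cycles. -/
def StC34 : Prop := ∀ r n : ℕ, 5 ≤ r → Jump r n → MinLow r n →
  ∀ (V E : Type) [Fintype V] [Finite E] (ends : E → Sym2 V), IsRGraph r ends →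
    Fintype.card V = n → ¬ HasPMs ends 2 → ∀ X : Finset V,
      (MinTight (gr ends) r X ∨ (X = univ ∧ ¬ ∃ Y, TightS (gr ends) r Y)) → C34free (gr ends) X

/-- (BOUND) if the value 2 is skipped at order `n`, then `n` is large. -/
def StBound : Prop := ∀ r n : ℕ, 5 ≤ r → Jump r n → MinLow r n →
  ∀ (V E : Type) [Fintype V] [Finite E] (ends : E → Sym2 V), IsRGraph r ends →
    Fintype.card V = n → ¬ HasPMs ends 2 → 10 * ((r - 1) ^ 2 / 4) + 2 ≤ n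

/-- (MAIN) the result. -/
def StMain : Prop := ∀ r : ℕ, 5 ≤ r →
  (∃ (V E : Type) (_ : Finite V) (_ : Finite E) (ends : E → Sym2 V), InT r 2 ends) ∧
  (∀ (V E : Type) [Finite V] [Finite E] (ends : E → Sym2 V), InT r 2 ends → InH r ends)

end RGraph.KT
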